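import Mathlib
import Pool.Agent.TH172.ER.Main

/-!
Torsion points of a complex torus: counting the solutions of `N t = u`.
-/

open Filter Topology
open H4EP H667R3
open scoped OnePoint

noncomputable section

namespace Pool.Agent.Y442.EC

variable (L : PeriodPair)

theorem den_one_iff (p : ℤ) {N : ℕ} (hN : N ≠ 0) : ((p : ℚ) / (N : ℚ)).den = 1 ↔ (N : ℤ) ∣ p := by
  have hn : (N : ℚ) ≠ 0 := by exact_mod_cast hN
  constructor
  · intro h
    have hq := Rat.coe_int_num_of_den_eq_one h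
    set r := ((p : ℚ) / (N : ℚ)) with hr
    have : (p : ℚ) = (N : ℚ) * (r.num : ℚ) := by
      rw [hq, hr]
      field_simp
    exact ⟨r.num, by exact_mod_cast this⟩
  · rintro ⟨k, hk⟩
    have : ((p : ℚ) / (N : ℚ)) = (k : ℚ) := by
      rw [hk]
      push_cast
      field_simp
    rw [this]
    exact Rat.den_intCast k

theorem frac_mem (p q : ℤ) {N : ℕ} (hN : N ≠ 0) :
    ((p : ℂ) * L.ω₁ + (q : ℂ) * L.ω₂) / (N : ℂ) ∈ L.lattice ↔ (N : ℤ) ∣ p ∧ (N : ℤ) ∣ q := by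
  have e : ((p : ℂ) * L.ω₁ + (q : ℂ) * L.ω₂) / (N : ℂ)
      = (((p : ℚ) / (N : ℚ) : ℚ) : ℂ) * L.ω₁ + (((q : ℚ) / (N : ℚ) : ℚ) : ℂ) * L.ω₂ := by
    push_cast
    ring
  rw [e, PeriodPair.mul_ω₁_add_mul_ω₂_mem_lattice, den_one_iff p hN, den_one_iff q hN]

theorem frac_zero (p q : ℤ) {N : ℕ} (hN : N ≠ 0) :
    cl L (((p : ℂ) * L.ω₁ + (q : ℂ) * L.ω₂) / (N : ℂ)) = 0 ↔ (N : ℤ) ∣ p ∧ (N : ℤ) ∣ q := by
  rw [cl_eq_zero, frac_mem L p q hN]

/-- there are exactly `N ^ 2` points killed by `N` -/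
theorem tors_card {N : ℕ} (hN : N ≠ 0) :
    ∃ S : Finset (Torus L), S.card = N ^ 2 ∧ ∀ t, t ∈ S ↔ N • t = 0 := by
  classical
  have hN' : (N : ℂ) ≠ 0 := by exact_mod_cast hN
  set g : Fin N × Fin N → Torus L := fun ij =>
    cl L ((((ij.1 : ℕ) : ℤ) : ℂ) * L.ω₁ / (N : ℂ) + (((ij.2 : ℕ) : ℤ) : ℂ) * L.ω₂ / (N : ℂ)) with hg
  have hinj : Function.Injective g := by
    rintro ⟨i, j⟩ ⟨i', j'⟩ h
    simp only [hg] at h
    rw [cl_eq] at h
    have e : (((i : ℕ) : ℤ) : ℂ) * L.ω₁ / (N : ℂ) + (((j : ℕ) : ℤ) : ℂ) * L.ω₂ / (N : ℂ)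
        - ((((i' : ℕ) : ℤ) : ℂ) * L.ω₁ / (N : ℂ) + (((j' : ℕ) : ℤ) : ℂ) * L.ω₂ / (N : ℂ))
        = ((((i : ℕ) : ℤ) - ((i' : ℕ) : ℤ) : ℤ) * L.ω₁
          + (((j : ℕ) : ℤ) - ((j' : ℕ) : ℤ) : ℤ) * L.ω₂) / (N : ℂ) := by
      push_cast
      ring
    rw [e, frac_mem L _ _ hN] at h
    have h1 := Int.eq_zero_of_abs_lt_dvd h.1 (by rw [abs_lt]; constructor <;> omega)
    have h2 := Int.eq_zero_of_abs_lt_dvd h.2 (by rw [abs_lt]; constructor <;> omega)
    rw [Prod.mk.injEq]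
    exact ⟨Fin.ext (by omega), Fin.ext (by omega)⟩
  refine ⟨Finset.univ.image g, ?_, ?_⟩
  · rw [Finset.card_image_of_injective _ hinj, Finset.card_univ, Fintype.card_prod, Fintype.card_fin,
      pow_two]
  · intro t
    rw [Finset.mem_image]
    constructor
    · rintro ⟨⟨i, j⟩, -, rfl⟩
      rw [← cl_nmul, cl_eq_zero, PeriodPair.mem_lattice]
      refine ⟨((i : ℕ) : ℤ), ((j : ℕ) : ℤ), ?_⟩
      field_simp
    · intro ht
      rw [← cl_rep t, ← cl_nmul, cl_eq_zero, PeriodPair.mem_lattice] at ht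
      obtain ⟨p, q, h⟩ := ht
      have hpos : (0 : ℤ) < N := by exact_mod_cast Nat.pos_of_ne_zero hN
      have hi0 := Int.emod_nonneg p hpos.ne'
      have hi1 := Int.emod_lt_of_pos p hpos
      have hj0 := Int.emod_nonneg q hpos.ne'
      have hj1 := Int.emod_lt_of_pos q hpos
      obtain ⟨i, hi⟩ := Int.eq_ofNat_of_zero_le hi0
      obtain ⟨j, hj⟩ := Int.eq_ofNat_of_zero_le hj0
      refine ⟨(⟨i, by omega⟩, ⟨j, by omega⟩), Finset.mem_univ _, ?_⟩
      rw [← cl_rep t, cl_eq]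
      rw [PeriodPair.mem_lattice]
      refine ⟨-(p / N), -(q / N), ?_⟩
      have e1 : (p : ℂ) = (N : ℂ) * ((p / N : ℤ) : ℂ) + (i : ℂ) := by
        have := Int.mul_ediv_add_emod p N
        rw [hi] at this
        exact_mod_cast this.symm
      have e2 : (q : ℂ) = (N : ℂ) * ((q / N : ℤ) : ℂ) + (j : ℂ) := by
        have := Int.mul_ediv_add_emod q N
        rw [hj] at this
        exact_mod_cast this.symm
      rw [e1, e2] at h
      have h' : rep t = (((N : ℂ) * ((p / N : ℤ) : ℂ) + (i : ℂ)) * L.ω₁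
          + ((N : ℂ) * ((q / N : ℤ) : ℂ) + (j : ℂ)) * L.ω₂) / N := by
        rw [h]
        field_simp
      rw [h']
      push_cast
      field_simp
      ring

/-- an `N`-th part of a point -/
def divp (N : ℕ) (u : Torus L) : Torus L := cl L (rep u / (N : ℂ))

theorem nsmul_divp {N : ℕ} (hN : N ≠ 0) (u : Torus L) : N • divp L N u = u := by
  have hN' : (N : ℂ) ≠ 0 := by exact_mod_cast hN
  rw [divp, ← cl_nmul]
  conv_rhs => rw [← cl_rep u]
  congr 1
  field_simp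

theorem fib_exists {N : ℕ} (hN : N ≠ 0) (u : Torus L) :
    ∃ S : Finset (Torus L), S.card = N ^ 2 ∧ ∀ t, t ∈ S ↔ N • t = u := by
  classical
  obtain ⟨S, hS, h⟩ := tors_card L hN
  refine ⟨S.image (fun t => t + divp L N u), ?_, ?_⟩
  · rw [Finset.card_image_of_injective _ (add_left_injective _), hS]
  · intro t
    rw [Finset.mem_image]
    constructor
    · rintro ⟨s, hs, rfl⟩
      rw [smul_add, (h s).1 hs, nsmul_divp L hN, zero_add]
    · intro ht
      refine ⟨t - divp L N u, (h _).2 ?_, sub_add_cancel t _⟩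
      rw [smul_sub, ht, nsmul_divp L hN, sub_self]

variable {L}

/-- the solutions of `N t = u` (for `N = 0` a junk value) -/
def fib (N : ℕ) (u : Torus L) : Finset (Torus L) :=
  if h : N ≠ 0 then (fib_exists L h u).choose else ∅

theorem mem_fib {N : ℕ} (hN : N ≠ 0) (u t : Torus L) : t ∈ fib N u ↔ N • t = u := by
  rw [fib, dif_pos hN]
  exact (fib_exists L hN u).choose_spec.2 t

theorem card_fib {N : ℕ} (hN : N ≠ 0) (u : Torus L) : (fib N u).card = N ^ 2 := by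
  rw [fib, dif_pos hN]
  exact (fib_exists L hN u).choose_spec.1

open Classical in
/-- the solutions of `N t ∈ Z` -/
def pre (N : ℕ) (Z : Finset (Torus L)) : Finset (Torus L) := Z.biUnion (fib N)

theorem mem_pre {N : ℕ} (hN : N ≠ 0) (Z : Finset (Torus L)) (t : Torus L) :
    t ∈ pre N Z ↔ N • t ∈ Z := by
  classical
  unfold pre
  rw [Finset.mem_biUnion]
  constructor
  · rintro ⟨u, hu, ht⟩
    rw [mem_fib hN] at ht
    rwa [ht]
  · intro h
    exact ⟨_, h, (mem_fib hN _ _).2 rfl⟩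

theorem card_pre {N : ℕ} (hN : N ≠ 0) (Z : Finset (Torus L)) : (pre N Z).card = N ^ 2 * Z.card := by
  classical
  have h : (pre N Z).card = ∑ u ∈ Z, (fib N u).card := by
    unfold pre
    apply Finset.card_biUnion
    intro u _ v _ huv
    change Disjoint (fib N u) (fib N v)
    rw [Finset.disjoint_left]
    intro t h1 h2
    rw [mem_fib hN] at h1 h2
    exact huv (h1.symm.trans h2)
  rw [h, Finset.sum_congr rfl (fun u _ => card_fib hN u), Finset.sum_const, smul_eq_mul, mul_comm]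

theorem card_le_nat {N : ℕ} (hN : N ≠ 0) (u : Torus L) (S : Finset (Torus L)) (P : Torus L → Prop)
    (h : ∀ t ∈ S, N • t = u ∧ P t) : S.card ≤ Nat.card {t : Torus L // N • t = u ∧ P t} := by
  have hfin : {t : Torus L | N • t = u ∧ P t}.Finite :=
    (fib N u).finite_toSet.subset (fun t ht => (mem_fib hN u t).2 ht.1)
  have h1 : (S : Set (Torus L)) ⊆ {t : Torus L | N • t = u ∧ P t} := fun t ht => h t ht
  have h2 := Set.ncard_le_ncard h1 hfin
  rwa [Set.ncard_coe_finset] at h2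

end Pool.Agent.Y442.EC
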