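import Mathlib
import Pool.Agent.Y442.EC.Tors

/-!
Elliptic functions with simple zeros and poles, and the functions `h(N z) / h(z + c)`.
-/

open Filter Topology
open H4EP H667R3 Pool.Agent.TH172.ER
open scoped OnePoint

noncomputable section

namespace Pool.Agent.Y442.EC

variable {L : PeriodPair}

open Classical in
/-- the divisor with simple zeros at `Z` and simple poles at `W` -/
def ind (Z W : Finset (Torus L)) (t : Torus L) : ℤ :=
  (if t ∈ Z then 1 else 0) - (if t ∈ W then 1 else 0)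

theorem ind_Z {Z W : Finset (Torus L)} (h : Disjoint Z W) {t : Torus L} (ht : t ∈ Z) :
    ind Z W t = 1 := by
  rw [ind, if_pos ht, if_neg (Finset.disjoint_left.1 h ht), sub_zero]

theorem ind_W {Z W : Finset (Torus L)} (h : Disjoint Z W) {t : Torus L} (ht : t ∈ W) :
    ind Z W t = -1 := by
  rw [ind, if_pos ht, if_neg (Finset.disjoint_right.1 h ht), zero_sub]

theorem ind_none {Z W : Finset (Torus L)} {t : Torus L} (h1 : t ∉ Z) (h2 : t ∉ W) :
    ind Z W t = 0 := by
  rw [ind, if_neg h1, if_neg h2, sub_zero]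

theorem ind_eq_one {Z W : Finset (Torus L)} {t : Torus L} (h : ind Z W t = 1) : t ∈ Z := by
  rw [ind] at h
  by_contra hc
  rw [if_neg hc] at h
  split_ifs at h <;> norm_num at h

/-- an elliptic function with simple zeros at `Z` and simple poles at `W` -/
structure EF (L : PeriodPair) where
  h : ℂ → ℂ
  per : ∀ z, ∀ l ∈ L.lattice, h (z + l) = h z
  Z : Finset (Torus L)
  W : Finset (Torus L)
  disj : Disjoint Z W
  mero : Meromorphic h
  ana : ∀ z, cl L z ∉ W → AnalyticAt ℂ h z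
  ord : ∀ z, meromorphicOrderAt h z = ((ind Z W (cl L z) : ℤ) : WithTop ℤ)

namespace EF

variable (E : EF L)

theorem per' {z w : ℂ} (h : cl L z = cl L w) : E.h z = E.h w := by
  have h1 := cl_eq.1 h
  have := E.per w _ h1
  rwa [add_sub_cancel] at this

theorem ne_zero {z : ℂ} (h1 : cl L z ∉ E.Z) (h2 : cl L z ∉ E.W) : E.h z ≠ 0 := by
  intro h0
  have h3 := (E.ana z h2).meromorphicOrderAt_eq
  rw [E.ord, ind_none h1 h2] at h3
  have h4 : analyticOrderAt E.h z ≠ 0 := by
    rw [(E.ana z h2).analyticOrderAt_ne_zero]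
    exact h0
  rcases hh : analyticOrderAt E.h z with _ | n
  · rw [hh] at h3
    exact absurd h3 (WithTop.coe_ne_top)
  · rw [hh] at h3 h4
    have hn : n ≠ 0 := by
      rintro rfl
      exact h4 rfl
    have h5 : ((0 : ℤ) : WithTop ℤ) = ((n : ℤ) : WithTop ℤ) := h3
    exact hn (by exact_mod_cast h5.symm)

/-- the function `h(N z) / h(z + c)` -/
def f (N : ℕ) (c : ℂ) (z : ℂ) : ℂ := E.h (N * z) / E.h (z + c)

theorem hN_mero {N : ℕ} (hN : N ≠ 0) : Meromorphic (fun z : ℂ => E.h ((N : ℂ) * z)) := by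
  intro z
  have hg : AnalyticAt ℂ (fun z : ℂ => (N : ℂ) * z) z := analyticAt_const.mul analyticAt_id
  have hd : deriv (fun z : ℂ => (N : ℂ) * z) z ≠ 0 := by
    rw [deriv_const_mul_field]
    simpa using hN
  exact (meromorphicAt_comp_iff_of_deriv_ne_zero hg hd).2 (E.mero _)

theorem hN_ord {N : ℕ} (hN : N ≠ 0) (z : ℂ) :
    meromorphicOrderAt (fun z : ℂ => E.h ((N : ℂ) * z)) z
      = ((ind E.Z E.W (N • cl L z) : ℤ) : WithTop ℤ) := by
  have hg : AnalyticAt ℂ (fun z : ℂ => (N : ℂ) * z) z := analyticAt_const.mul analyticAt_id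
  have hd : deriv (fun z : ℂ => (N : ℂ) * z) z ≠ 0 := by
    rw [deriv_const_mul_field]
    simpa using hN
  have h1 : (fun z : ℂ => E.h ((N : ℂ) * z)) = E.h ∘ (fun z : ℂ => (N : ℂ) * z) := rfl
  rw [h1, meromorphicOrderAt_comp_of_deriv_ne_zero hg hd, E.ord, cl_nmul]

theorem hc_mero (c : ℂ) : Meromorphic (fun z : ℂ => E.h (z + c)) := by
  intro z
  exact (meromorphicAt_comp_add_const_iff_meromorphicAt (f := E.h) (x := z)).2 (E.mero _)

theorem hc_ord (c z : ℂ) :
    meromorphicOrderAt (fun z : ℂ => E.h (z + c)) z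
      = ((ind E.Z E.W (cl L z + cl L c) : ℤ) : WithTop ℤ) := by
  have h1 : meromorphicOrderAt (fun z : ℂ => E.h (z + c)) z = meromorphicOrderAt E.h (z + c) :=
    meromorphicOrderAt_comp_add_const_eq_meromorphicOrderAt (f := E.h)
  rw [h1, E.ord, cl_add]

theorem f_mero {N : ℕ} (hN : N ≠ 0) (c : ℂ) : Meromorphic (E.f N c) :=
  fun z => (E.hN_mero hN z).div (E.hc_mero c z)

theorem f_per (N : ℕ) (c : ℂ) (z : ℂ) {l : ℂ} (hl : l ∈ L.lattice) :
    E.f N c (z + l) = E.f N c z := by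
  rw [f, f]
  have h1 : E.h (z + l + c) = E.h (z + c) := by
    rw [show z + l + c = z + c + l by ring, E.per _ l hl]
  have h2 : E.h ((N : ℂ) * (z + l)) = E.h ((N : ℂ) * z) := by
    apply E.per'
    rw [cl_nmul, cl_nmul, cl_add, cl_eq_zero.2 hl, add_zero]
  rw [h1, h2]

theorem f_per' (N : ℕ) (c : ℂ) {z w : ℂ} (h : cl L z = cl L w) : E.f N c z = E.f N c w := by
  have h1 := cl_eq.1 h
  have := E.f_per N c w h1
  rwa [add_sub_cancel] at this

/-- the order of `f` at a point of `E` -/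
def of (N : ℕ) (C t : Torus L) : ℤ := ind E.Z E.W (N • t) - ind E.Z E.W (t + C)

theorem f_ord {N : ℕ} (hN : N ≠ 0) (c z : ℂ) :
    meromorphicOrderAt (E.f N c) z = ((E.of N (cl L c) (cl L z) : ℤ) : WithTop ℤ) := by
  have h1 : E.f N c = (fun z : ℂ => E.h ((N : ℂ) * z)) / (fun z : ℂ => E.h (z + c)) := rfl
  rw [h1, meromorphicOrderAt_div (E.hN_mero hN z) (E.hc_mero c z), E.hN_ord hN, E.hc_ord,
    ← WithTop.LinearOrderedAddCommGroup.coe_sub, of]

theorem f_oz {N : ℕ} (hN : N ≠ 0) (c z : ℂ) : oz (E.f N c) z = E.of N (cl L c) (cl L z) := by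
  rw [oz, E.f_ord hN, WithTop.untop₀_coe]

/-- the points `t` with `t + C ∈ Z ∪ W` -/
def bad (C : Torus L) : Finset (Torus L) :=
  open Classical in (E.Z ∪ E.W).image (fun u => u - C)

theorem mem_bad (C t : Torus L) : t ∈ E.bad C ↔ t + C ∈ E.Z ∨ t + C ∈ E.W := by
  classical
  unfold bad
  rw [Finset.mem_image]
  constructor
  · rintro ⟨u, hu, rfl⟩
    rw [sub_add_cancel]
    exact Finset.mem_union.1 hu
  · intro h
    exact ⟨t + C, Finset.mem_union.2 h, add_sub_cancel_right _ _⟩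

theorem card_bad (C : Torus L) : (E.bad C).card ≤ E.Z.card + E.W.card := by
  classical
  unfold bad
  exact Finset.card_image_le.trans (Finset.card_union_le _ _)

theorem bad_exists (S : Finset (Torus L)) (hS : E.Z.card + E.W.card < S.card)
    (C : Torus L) : ∃ t ∈ S, t ∉ E.bad C := by
  classical
  have h := E.card_bad C
  obtain ⟨t, ht, ht'⟩ := Finset.exists_mem_notMem_of_card_lt_card (lt_of_le_of_lt h hS)
  exact ⟨t, ht, ht'⟩

theorem ndeg {N : ℕ} (hN : N ≠ 0) (c : ℂ) (hb : E.Z.card + E.W.card < N ^ 2 * E.W.card) :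
    NDeg (E.f N c) := by
  obtain ⟨t, ht, ht'⟩ := E.bad_exists (pre N E.W) (by rwa [card_pre hN]) (cl L c)
  rw [mem_pre hN] at ht
  rw [E.mem_bad, not_or] at ht'
  apply ndeg_of_pole (E.f_mero hN c) (z₀ := rep t)
  rw [E.f_ord hN, cl_rep, of, ind_W E.disj ht, ind_none ht'.1 ht'.2]
  exact_mod_cast (by norm_num : (-1 - 0 : ℤ) < 0)

theorem lin01 (g : ℂ → ℂ) : lin g 0 1 = g := by
  funext w
  simp [lin]

theorem vo01 (g : ℂ → ℂ) (z : ℂ) : vo g 0 1 z = oz g z - min (oz g z) 0 := by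
  rw [vo, lin01]

theorem oz_vo (g : ℂ → ℂ) (z : ℂ) : oz g z = vo g 0 1 z - vo g 1 0 z := by
  rw [vo01, vo_top]
  ring

theorem vo_zero {N : ℕ} (hN : N ≠ 0) (c : ℂ) {t : Torus L} (ht : N • t ∈ E.Z)
    (hb : t ∉ E.bad (cl L c)) : 0 < vo (E.f N c) 0 1 (rep t) := by
  rw [E.mem_bad, not_or] at hb
  rw [vo01, E.f_oz hN, cl_rep, of, ind_Z E.disj ht, ind_none hb.1 hb.2]
  norm_num

theorem vo_pole {N : ℕ} (hN : N ≠ 0) (c : ℂ) {t : Torus L} (ht : N • t ∈ E.W)
    (hb : t ∉ E.bad (cl L c)) : 0 < vo (E.f N c) 1 0 (rep t) := by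
  rw [E.mem_bad, not_or] at hb
  rw [vo_top, E.f_oz hN, cl_rep, of, ind_W E.disj ht, ind_none hb.1 hb.2]
  norm_num

/-- the value `κ` -/
theorem vo_val {N : ℕ} (hN : N ≠ 0) (c : ℂ) (hn : NDeg (E.f N c)) {κ : ℂ} {t : Torus L}
    (hb : t ∉ E.bad (cl L c)) (h1 : N • t ∉ E.Z) (h2 : N • t ∉ E.W)
    (hv : E.h (N * rep t) = κ * E.h (rep t + c)) : 0 < vo (E.f N c) κ 1 (rep t) := by
  rw [E.mem_bad, not_or] at hb
  have e1 : AnalyticAt ℂ (fun z : ℂ => E.h ((N : ℂ) * z)) (rep t) := by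
    have hg : AnalyticAt ℂ (fun z : ℂ => (N : ℂ) * z) (rep t) := analyticAt_const.mul analyticAt_id
    refine AnalyticAt.fun_comp (E.ana _ ?_) hg
    rwa [cl_nmul, cl_rep]
  have e2 : AnalyticAt ℂ (fun z : ℂ => E.h (z + c)) (rep t) := by
    have hg : AnalyticAt ℂ (fun z : ℂ => z + c) (rep t) := analyticAt_id.add analyticAt_const
    refine AnalyticAt.fun_comp (E.ana _ ?_) hg
    rw [cl_add, cl_rep]
    exact hb.2
  have e3 : E.h (rep t + c) ≠ 0 := by
    apply E.ne_zero
    · rw [cl_add, cl_rep]; exact hb.1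
    · rw [cl_add, cl_rep]; exact hb.2
  have e4 : AnalyticAt ℂ (lin (E.f N c) κ 1) (rep t) := by
    have : AnalyticAt ℂ (E.f N c) (rep t) := e1.div e2 e3
    unfold lin
    exact (analyticAt_const.mul this).sub analyticAt_const
  have h0 : oz (E.f N c) (rep t) = 0 := by
    rw [E.f_oz hN, cl_rep, of, ind_none h1 h2, ind_none hb.1 hb.2, sub_zero]
  rw [vo, h0, min_self, sub_zero]
  apply ana_pos e4
  · rw [lin, f, hv, mul_div_assoc, div_self e3]
    ring
  · exact hn κ 1 (Or.inr one_ne_zero) _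

/-- the number of poles, upper bound -/
theorem sum_le {N : ℕ} (hN : N ≠ 0) (c : ℂ) :
    ∑ᶠ t : Torus L, vo (E.f N c) 1 0 (rep t) ≤ ((N ^ 2 * E.W.card + E.Z.card : ℕ) : ℤ) := by
  classical
  set S := pre N E.W ∪ E.Z.image (fun u => u - cl L c) with hS
  rw [finsum_eq_sum_of_support_subset (s := S)]
  · have h1 : ∀ t ∈ S, vo (E.f N c) 1 0 (rep t) ≤ (if t ∈ pre N E.W then 1 else 0)
        + (if t ∈ E.Z.image (fun u => u - cl L c) then 1 else 0) := by
      intro t _
      rw [vo_top, E.f_oz hN, cl_rep, of]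
      have e1 : t ∈ pre N E.W ↔ N • t ∈ E.W := mem_pre hN _ _
      have e2 : t ∈ E.Z.image (fun u => u - cl L c) ↔ t + cl L c ∈ E.Z := by
        rw [Finset.mem_image]
        constructor
        · rintro ⟨u, hu, rfl⟩
          rwa [sub_add_cancel]
        · intro h
          exact ⟨_, h, add_sub_cancel_right _ _⟩
      simp only [e1, e2, ind]
      split_ifs <;> omega
    refine (Finset.sum_le_sum h1).trans ?_
    rw [Finset.sum_add_distrib, Finset.sum_ite_mem, Finset.sum_ite_mem]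
    simp only [Finset.sum_const, mul_one, nsmul_eq_mul]
    have c1 : (S ∩ pre N E.W).card ≤ N ^ 2 * E.W.card := by
      rw [← card_pre hN]
      exact Finset.card_le_card Finset.inter_subset_right
    have c2 : (S ∩ E.Z.image (fun u => u - cl L c)).card ≤ E.Z.card :=
      (Finset.card_le_card Finset.inter_subset_right).trans Finset.card_image_le
    push_cast
    have c1' : ((S ∩ pre N E.W).card : ℤ) ≤ (N : ℤ) ^ 2 * (E.W.card : ℤ) := by exact_mod_cast c1
    have c2' : ((S ∩ E.Z.image (fun u => u - cl L c)).card : ℤ) ≤ (E.Z.card : ℤ) := by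
      exact_mod_cast c2
    linarith
  · intro t ht
    rw [Function.mem_support] at ht
    by_contra hc
    rw [hS, Finset.mem_coe, Finset.mem_union, not_or, mem_pre hN, Finset.mem_image] at hc
    apply ht
    rw [vo_top, E.f_oz hN, cl_rep, of]
    have e2 : t + cl L c ∉ E.Z := fun h => hc.2 ⟨_, h, add_sub_cancel_right _ _⟩
    simp only [ind, if_neg hc.1, if_neg e2]
    split_ifs <;> norm_num

/-- the number of poles, lower bound -/
theorem le_sum {N : ℕ} (hN : N ≠ 0) (c : ℂ) :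
    ((N ^ 2 * E.W.card : ℕ) : ℤ) ≤ ∑ᶠ t : Torus L, vo (E.f N c) 1 0 (rep t) + (E.W.card : ℤ) := by
  classical
  set S := pre N E.W ∪ (E.Z ∪ E.W).image (fun u => u - cl L c) with hS
  rw [finsum_eq_sum_of_support_subset (s := S)]
  · have h1 : ∀ t ∈ S, (if t ∈ pre N E.W then 1 else 0)
        - (if t ∈ E.W.image (fun u => u - cl L c) then 1 else 0) ≤ vo (E.f N c) 1 0 (rep t) := by
      intro t _
      rw [vo_top, E.f_oz hN, cl_rep, of]
      have e1 : t ∈ pre N E.W ↔ N • t ∈ E.W := mem_pre hN _ _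
      have e2 : t ∈ E.W.image (fun u => u - cl L c) ↔ t + cl L c ∈ E.W := by
        rw [Finset.mem_image]
        constructor
        · rintro ⟨u, hu, rfl⟩
          rwa [sub_add_cancel]
        · intro h
          exact ⟨_, h, add_sub_cancel_right _ _⟩
      have d1 : ¬ (t + cl L c ∈ E.Z ∧ t + cl L c ∈ E.W) := fun h =>
        Finset.disjoint_left.1 E.disj h.1 h.2
      have d2 : ¬ (N • t ∈ E.Z ∧ N • t ∈ E.W) := fun h => Finset.disjoint_left.1 E.disj h.1 h.2
      simp only [e1, e2, ind]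
      split_ifs <;> first | omega | tauto
    have h2 := Finset.sum_le_sum h1
    rw [Finset.sum_sub_distrib, Finset.sum_ite_mem, Finset.sum_ite_mem] at h2
    simp only [Finset.sum_const, mul_one, nsmul_eq_mul] at h2
    have c1 : (S ∩ pre N E.W).card = N ^ 2 * E.W.card := by
      rw [← card_pre hN, Finset.inter_eq_right.2]
      exact Finset.subset_union_left
    have c2 : (S ∩ E.W.image (fun u => u - cl L c)).card ≤ E.W.card :=
      (Finset.card_le_card Finset.inter_subset_right).trans Finset.card_image_le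
    rw [c1] at h2
    have c2' : ((S ∩ E.W.image (fun u => u - cl L c)).card : ℤ) ≤ (E.W.card : ℤ) := by
      exact_mod_cast c2
    linarith
  · intro t ht
    rw [Function.mem_support] at ht
    by_contra hc
    rw [hS, Finset.mem_coe, Finset.mem_union, not_or, mem_pre hN, Finset.mem_image] at hc
    apply ht
    rw [vo_top, E.f_oz hN, cl_rep, of]
    have e2 : t + cl L c ∉ E.Z := fun h =>
      hc.2 ⟨_, Finset.mem_union_left _ h, add_sub_cancel_right _ _⟩
    have e3 : t + cl L c ∉ E.W := fun h =>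
      hc.2 ⟨_, Finset.mem_union_right _ h, add_sub_cancel_right _ _⟩
    simp only [ind, if_neg hc.1, if_neg e2, if_neg e3]
    split_ifs <;> norm_num

/-- a translation that preserves the divisor of `f` -/
theorem period_sym {N : ℕ} (hN : N ≠ 0) (C : Torus L)
    (hbig : 2 * (E.Z.card + E.W.card) < N ^ 2) {κ : Torus L}
    (hκ : ∀ t, E.of N C (t + κ) = E.of N C t) : ∀ u ∈ E.Z, u + N • κ ∈ E.Z := by
  classical
  intro u hu
  have h1 : (E.bad C ∪ E.bad (C + κ)).card < (fib N u).card := by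
    rw [card_fib hN]
    refine lt_of_le_of_lt (Finset.card_union_le _ _) ?_
    have := E.card_bad C
    have := E.card_bad (C + κ)
    omega
  obtain ⟨t, ht, ht'⟩ := Finset.exists_mem_notMem_of_card_lt_card h1
  rw [mem_fib hN] at ht
  rw [Finset.mem_union, not_or, E.mem_bad, E.mem_bad, not_or, not_or] at ht'
  obtain ⟨⟨a1, a2⟩, a3, a4⟩ := ht'
  have h2 := hκ t
  rw [of, of, ht, ind_Z E.disj hu, ind_none a1 a2, smul_add, ht] at h2
  have e : t + κ + C = t + (C + κ) := by abel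
  rw [e, ind_none a3 a4, sub_zero, sub_zero] at h2
  exact ind_eq_one h2

theorem period_sym' {N : ℕ} (C : Torus L) {κ : Torus L}
    (hκ : ∀ t, E.of N C (t + κ) = E.of N C t)
    (hi : ∀ t, ind E.Z E.W (t + N • κ) = ind E.Z E.W t) : ∀ u ∈ E.Z, u + κ ∈ E.Z := by
  intro u hu
  have h2 := hκ (u - C)
  rw [of, of, smul_add, hi] at h2
  have e1 : u - C + κ + C = u + κ := by abel
  have e2 : u - C + C = u := by abel
  rw [e1, e2, ind_Z E.disj hu] at h2
  apply ind_eq_one (W := E.W)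
  linarith

end EF

/-- a meromorphic function on `E` without non-trivial periods separates the points of the fibres
of `t ↦ M t`, outside a finite set -/
theorem birat_of {G : ℂ → ℂ} (hGm : Meromorphic G)
    (hGp : ∀ z, ∀ l ∈ L.lattice, G (z + l) = G z) {M : ℕ} (hM : M ≠ 0)
    (hno : ∀ κ : Torus L, κ ≠ 0 → ¬ ∀ z : ℂ, (fun w => G (w + rep κ)) =ᶠ[𝓝[≠] z] G) :
    ∃ T : Set (Torus L), T.Finite ∧ ∀ s t : Torus L, s ∉ T → t ∉ T →
      M • s = M • t → G (rep s) = G (rep t) → s = t := by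
  have hGp' : ∀ z w, cl L z = cl L w → G z = G w := by
    intro z w h
    have h1 := cl_eq.1 h
    have := hGp w _ h1
    rwa [add_sub_cancel] at this
  refine ⟨⋃ τ ∈ {τ : Torus L | M • τ = 0 ∧ τ ≠ 0}, {t | G (rep t + rep τ) - G (rep t) = 0}, ?_, ?_⟩
  · refine Set.Finite.biUnion ((tors_finite L M hM).subset (fun x hx => hx.1)) ?_
    rintro τ ⟨hτ1, hτ2⟩
    have hm1 : Meromorphic (fun z => G (z + rep τ)) := by
      intro z
      exact (meromorphicAt_comp_add_const_iff_meromorphicAt (f := G) (x := z)).2 (hGm _)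
    have hm2 : Meromorphic (fun z => G (z + rep τ) - G z) := fun z => (hm1 z).sub (hGm z)
    by_cases hex : ∃ z₀, meromorphicOrderAt (fun z => G (z + rep τ) - G z) z₀ ≠ ⊤
    · obtain ⟨z₀, hz₀⟩ := hex
      refine finite_zeros L (fun z => G (z + rep τ) - G z) hm2 ?_ z₀ hz₀
      intro z w h
      rw [hGp' z w h, hGp' (z + rep τ) (w + rep τ) (by rw [cl_add, cl_add, h])]
    · exfalso
      push Not at hex
      apply hno τ hτ2
      intro z
      have h1 := hex z
      rw [meromorphicOrderAt_eq_top_iff] at h1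
      filter_upwards [h1] with w hw
      exact sub_eq_zero.1 hw
  · intro s t hs ht hst hF
    by_contra hne
    apply ht
    rw [Set.mem_iUnion₂]
    refine ⟨s - t, ⟨by rw [smul_sub, hst, sub_self], sub_ne_zero.2 hne⟩, ?_⟩
    rw [Set.mem_ofPred_eq, sub_eq_zero, ← hF]
    apply hGp'
    rw [cl_add, cl_rep, cl_rep, cl_rep]
    abel

end Pool.Agent.Y442.EC
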