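import Mathlib
import Pool.Agent.Y442.EC.EF

/-!
Elliptic functions with prescribed simple zeros and poles, from the Weierstrass sigma function.
-/

open Filter Topology
open H4EP H667R3 Pool.Agent.TH172.ER
open scoped OnePoint

noncomputable section

namespace Pool.Agent.Y442.EC

variable {L : PeriodPair}

/-- a product of sigma functions -/
def sp (L : PeriodPair) {k : ℕ} (z : Fin k → ℂ) (u : ℂ) : ℂ := ∏ i, sg L 1 (-z i) u

theorem sp_eq {k : ℕ} (z : Fin k → ℂ) : sp L z = ∏ i, sg L 1 (-z i) := by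
  funext u
  rw [sp, Finset.prod_apply]

theorem sp_ana {k : ℕ} (z : Fin k → ℂ) (u : ℂ) : AnalyticAt ℂ (sp L z) u := by
  rw [sp_eq]
  exact Finset.analyticAt_prod _ fun i _ => sg_ana L 1 _ u

open Classical in
theorem sp_ord {k : ℕ} (z : Fin k → ℂ) (hz : Function.Injective (fun i => cl L (z i))) (u : ℂ) :
    meromorphicOrderAt (sp L z) u
      = ((if cl L u ∈ Finset.univ.image (fun i => cl L (z i)) then 1 else 0 : ℤ) : WithTop ℤ) := by
  rw [sp_eq, meromorphicOrderAt_prod (fun i _ => sg_mero L 1 (-z i) u)]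
  have h1 : ∀ i ∈ (Finset.univ : Finset (Fin k)), meromorphicOrderAt (sg L 1 (-z i)) u
      = (((if cl L u = cl L (z i) then 1 else 0 : ℤ)) : WithTop ℤ) := by
    intro i _
    rw [sg_ord L 1 one_ne_zero]
    have c : ((1 : ℕ) : ℂ) * u + -z i ∈ L.lattice ↔ cl L u = cl L (z i) := by
      rw [mem_iff_cl, cl_neg, neg_neg, one_smul]
    simp only [c]
  rw [Finset.sum_congr rfl h1]
  have h2 : ∑ i : Fin k, (((if cl L u = cl L (z i) then 1 else 0 : ℤ)) : WithTop ℤ)
      = ((∑ i : Fin k, (if cl L u = cl L (z i) then 1 else 0 : ℤ) : ℤ) : WithTop ℤ) := by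
    push_cast
    rfl
  rw [h2]
  congr 1
  split_ifs with h3
  · obtain ⟨i, -, hi⟩ := Finset.mem_image.1 h3
    rw [Finset.sum_eq_single i]
    · rw [if_pos hi.symm]
    · intro j _ hj
      rw [if_neg]
      intro h
      exact hj (hz (h.symm.trans hi.symm))
    · intro h
      exact absurd (Finset.mem_univ i) h
  · apply Finset.sum_eq_zero
    intro i _
    rw [if_neg]
    intro h
    exact h3 (Finset.mem_image.2 ⟨i, Finset.mem_univ _, h.symm⟩)

theorem sp_ne {k : ℕ} (z : Fin k → ℂ) {u : ℂ} (h : ∀ i, cl L u ≠ cl L (z i)) : sp L z u ≠ 0 := by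
  rw [sp, Finset.prod_ne_zero_iff]
  intro i _
  rw [sg]
  apply sigma_ne_zero
  rw [mem_iff_cl, cl_neg, neg_neg, one_smul]
  exact h i

theorem sp_add {l : ℂ} (hl : l ∈ L.lattice) : ∃ C : ℂ, C ≠ 0 ∧ ∀ (k : ℕ) (z : Fin k → ℂ) (u : ℂ),
    sp L z (u + l) = C ^ k * Complex.exp (eta L l * ((k : ℂ) * u - ∑ i, z i)) * sp L z u := by
  obtain ⟨C, hC, h⟩ := sg_add L 1 hl
  refine ⟨C, hC, fun k z u => ?_⟩
  have e1 : C ^ k * Complex.exp (eta L l * ((k : ℂ) * u - ∑ i, z i))
      = ∏ i : Fin k, (C * Complex.exp (eta L l * (u - z i))) := by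
    rw [Finset.prod_mul_distrib, Finset.prod_const, Finset.card_univ, Fintype.card_fin,
      ← Complex.exp_sum, ← Finset.mul_sum, Finset.sum_sub_distrib, Finset.sum_const,
      Finset.card_univ, Fintype.card_fin, nsmul_eq_mul]
  rw [e1, sp, sp, ← Finset.prod_mul_distrib]
  refine Finset.prod_congr rfl fun i _ => ?_
  rw [h]
  congr 3
  push_cast
  ring

section

variable {k : ℕ} (z w : Fin k → ℂ)

/-- the elliptic function with zeros `z i` and poles `w i` -/
def hS (L : PeriodPair) {k : ℕ} (z w : Fin k → ℂ) (u : ℂ) : ℂ := sp L z u / sp L w u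

theorem hS_per (hs : ∑ i, z i = ∑ i, w i) (u : ℂ) {l : ℂ} (hl : l ∈ L.lattice) :
    hS L z w (u + l) = hS L z w u := by
  obtain ⟨C, hC, h⟩ := sp_add hl
  rw [hS, hS, h, h, hs]
  exact mul_div_mul_left _ _ (mul_ne_zero (pow_ne_zero _ hC) (Complex.exp_ne_zero _))

open Classical in
/-- the elliptic function with zeros `z i` and poles `w i` -/
def mk (z w : Fin k → ℂ) (hz : Function.Injective (fun i => cl L (z i)))
    (hw : Function.Injective (fun i => cl L (w i))) (hd : ∀ i j, cl L (z i) ≠ cl L (w j))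
    (hs : ∑ i, z i = ∑ i, w i) : EF L :=
  { h := hS L z w
    per := fun u l hl => hS_per z w hs u hl
    Z := Finset.univ.image (fun i => cl L (z i))
    W := Finset.univ.image (fun i => cl L (w i))
    disj := by
      rw [Finset.disjoint_left]
      intro t h1 h2
      obtain ⟨i, -, hi⟩ := Finset.mem_image.1 h1
      obtain ⟨j, -, hj⟩ := Finset.mem_image.1 h2
      exact hd i j (hi.trans hj.symm)
    mero := fun u => ((sp_ana z u).meromorphicAt).div ((sp_ana w u).meromorphicAt)
    ana := by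
      intro u hu
      refine (sp_ana z u).div (sp_ana w u) (sp_ne w ?_)
      intro i h
      exact hu (Finset.mem_image.2 ⟨i, Finset.mem_univ _, h.symm⟩)
    ord := by
      intro u
      have e : hS L z w = sp L z / sp L w := rfl
      rw [e, meromorphicOrderAt_div (sp_ana z u).meromorphicAt (sp_ana w u).meromorphicAt,
        sp_ord z hz, sp_ord w hw, ← WithTop.LinearOrderedAddCommGroup.coe_sub, ind] }

end

end Pool.Agent.Y442.EC
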