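import Mathlib
import Pool.Agent.Y442.EC.Mk

/-!
Elliptic functions whose zeros are killed by `M`, and whose poles are all mapped to one point by
multiplication by `M`.
-/

open Filter Topology
open H4EP H667R3 Pool.Agent.TH172.ER
open scoped OnePoint

noncomputable section

namespace Pool.Agent.Y442.EC

variable {L : PeriodPair}

theorem int_zero_of_dvd {M p : ℤ} (h : M ∣ p) (h2 : |p| < M) : p = 0 :=
  Int.eq_zero_of_abs_lt_dvd h h2

theorem exists_rep' (ε : Torus L) : ∃ x : ℂ, cl L x = ε ∧ (ε = 0 → x = L.ω₂) := by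
  by_cases h : ε = 0
  · exact ⟨L.ω₂, by rw [h, cl_eq_zero]; exact L.ω₂_mem_lattice, fun _ => rfl⟩
  · exact ⟨rep ε, cl_rep ε, fun h' => absurd h' h⟩

theorem exists_EF (ε : Torus L) {n : ℕ} (hn : n ≠ 0) (hε : n • ε = 0) :
    ∃ k M₀ : ℕ, 2 ≤ k ∧ ∀ M : ℕ, M₀ ≤ M → ∃ E : EF L, E.Z.card = k ∧ E.W.card = k ∧
      (∀ u ∈ E.Z, M • u = 0) ∧ (∀ u ∈ E.W, M • u = -ε) ∧
      (∀ δ : Torus L, (∀ u ∈ E.Z, u + δ ∈ E.Z) → δ = 0) := by
  classical
  obtain ⟨x, hx, hx0⟩ := exists_rep' ε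
  have hnx : cl L ((n : ℂ) * x) = 0 := by rw [cl_nmul, hx, hε]
  rw [cl_eq_zero, PeriodPair.mem_lattice] at hnx
  obtain ⟨p, q, hpq⟩ := hnx
  set l₁ : ℤ := 2 * p with hl₁
  set l₂ : ℤ := 2 * q with hl₂
  set A : ℤ := |l₁| + 1 with hA
  have hA0 : 0 < A := by have := abs_nonneg l₁; omega
  set k : ℕ := 2 * n with hk
  have hk2 : 2 ≤ k := by omega
  have hkx : (k : ℂ) * x = (l₁ : ℂ) * L.ω₁ + (l₂ : ℂ) * L.ω₂ := by
    rw [hk, hl₁, hl₂]
    push_cast
    linear_combination -2 * hpq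
  refine ⟨k, (2 * k * A + |l₁| + k + 1).toNat, hk2, fun M hM => ?_⟩
  have hMbig : 2 * (k : ℤ) * A + |l₁| + k + 1 ≤ (M : ℤ) := by
    have h1 : ((2 * k * A + |l₁| + k + 1).toNat : ℤ) ≤ (M : ℤ) := by exact_mod_cast hM
    have h2 := Int.self_le_toNat (2 * (k : ℤ) * A + |l₁| + k + 1)
    linarith
  have hk0 : (0 : ℤ) < k := by omega
  have hkA : 0 ≤ (k : ℤ) * A := by positivity
  have hMk : (k : ℤ) + 1 ≤ (M : ℤ) := by
    have := abs_nonneg l₁
    nlinarith
  have hM0 : M ≠ 0 := by omega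
  have hM0' : (M : ℂ) ≠ 0 := by exact_mod_cast hM0
  -- bounds for indices
  have hb : ∀ i : Fin k, 0 ≤ ((i : ℕ) : ℤ) ∧ ((i : ℕ) : ℤ) + 1 ≤ (k : ℤ) := fun i => by
    have := i.2
    omega
  set z : Fin k → ℂ := fun i => (((((i : ℕ) : ℤ) * A : ℤ) : ℂ) * L.ω₁) / (M : ℂ) with hz
  set i0 : Fin k := ⟨0, by omega⟩ with hi0
  set w : Fin k → ℂ := fun i => z i - x / (M : ℂ) + (if i = i0 then (k : ℂ) * x / (M : ℂ) else 0)
    with hw
  have hzz : ∀ (i j : Fin k), cl L (z i) = cl L (z j) → i = j := by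
    intro i j h
    rw [cl_eq] at h
    have e : z i - z j = ((((((i : ℕ) : ℤ) - ((j : ℕ) : ℤ)) * A : ℤ) : ℂ) * L.ω₁
        + ((0 : ℤ) : ℂ) * L.ω₂) / (M : ℂ) := by
      simp only [hz]
      push_cast
      ring
    rw [e, frac_mem L _ _ hM0] at h
    obtain ⟨hi1, hi2⟩ := hb i
    obtain ⟨hj1, hj2⟩ := hb j
    have h1 := int_zero_of_dvd h.1 (by
      rw [abs_lt]
      have := abs_nonneg l₁
      constructor <;> nlinarith)
    rcases mul_eq_zero.1 h1 with h2 | h2
    · exact Fin.ext (by omega)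
    · omega
  have hinjz : Function.Injective (fun i => cl L (z i)) := fun i j h => hzz i j h
  have hww : ∀ i j : Fin k, i ≠ i0 → j ≠ i0 → cl L (w i) = cl L (w j) → i = j := by
    intro i j hi hj h
    apply hzz
    rw [cl_eq] at h ⊢
    have e : w i - w j = z i - z j := by
      simp only [hw, if_neg hi, if_neg hj]
      ring
    rwa [e] at h
  have hw0 : ∀ j : Fin k, j ≠ i0 → cl L (w i0) ≠ cl L (w j) := by
    intro j hj h
    rw [cl_eq] at h
    have e : w i0 - w j = (((-(((j : ℕ) : ℤ) * A) + l₁ : ℤ) : ℂ) * L.ω₁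
        + (l₂ : ℂ) * L.ω₂) / (M : ℂ) := by
      have e1 : w i0 = z i0 - x / (M : ℂ) + (k : ℂ) * x / (M : ℂ) := by
        simp only [hw, if_true]
      have e2 : w j = z j - x / (M : ℂ) := by
        simp only [hw, if_neg hj, add_zero]
      have e3 : z i0 = 0 := by
        simp only [hz, hi0]
        simp
      rw [e1, e2, e3, hkx]
      simp only [hz]
      push_cast
      ring
    rw [e, frac_mem L _ _ hM0] at h
    obtain ⟨hj1, hj2⟩ := hb j
    have hj0 : 1 ≤ ((j : ℕ) : ℤ) := by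
      by_contra hc
      apply hj
      apply Fin.ext
      rw [hi0]
      change (j : ℕ) = 0
      omega
    have ha1 := neg_abs_le l₁
    have ha2 := le_abs_self l₁
    have h1 := int_zero_of_dvd h.1 (by
      rw [abs_lt]
      constructor <;> nlinarith)
    nlinarith
  have hinjw : Function.Injective (fun i => cl L (w i)) := by
    intro i j h
    by_cases hi : i = i0
    · by_cases hj : j = i0
      · rw [hi, hj]
      · rw [hi] at h
        exact absurd h (hw0 j hj)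
    · by_cases hj : j = i0
      · rw [hj] at h
        exact absurd h.symm (hw0 i hi)
      · exact hww i j hi hj h
  have hkxΛ : (k : ℂ) * x ∈ L.lattice := by
    rw [hkx]
    rw [PeriodPair.mem_lattice]
    exact ⟨l₁, l₂, rfl⟩
  have hω : ∀ a : ℤ, (a : ℂ) * L.ω₁ ∈ L.lattice := fun a => by
    rw [PeriodPair.mem_lattice]
    exact ⟨a, 0, by push_cast; ring⟩
  have hd : ∀ i j, cl L (z i) ≠ cl L (w j) := by
    intro i j h
    rw [cl_eq] at h
    have e : z i - w j = ((((((i : ℕ) : ℤ) - ((j : ℕ) : ℤ)) * A : ℤ) : ℂ) * L.ω₁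
        + (1 - (if j = i0 then (k : ℂ) else 0)) * x) / (M : ℂ) := by
      simp only [hw, hz]
      split_ifs <;> push_cast <;> ring
    have h2 := intCast_mul_mem L h (M : ℤ)
    have e2 : ((M : ℤ) : ℂ) * (z i - w j) = (((((i : ℕ) : ℤ) - ((j : ℕ) : ℤ)) * A : ℤ) : ℂ) * L.ω₁
        + (1 - (if j = i0 then (k : ℂ) else 0)) * x := by
      rw [e]
      push_cast
      field_simp
    rw [e2] at h2
    have hxΛ : x ∈ L.lattice := by
      have h3 := sub_mem h2 (hω ((((i : ℕ) : ℤ) - ((j : ℕ) : ℤ)) * A))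
      rw [add_sub_cancel_left] at h3
      by_cases hj : j = i0
      · rw [if_pos hj] at h3
        have h4 := add_mem h3 hkxΛ
        have e3 : (1 - (k : ℂ)) * x + (k : ℂ) * x = x := by ring
        rwa [e3] at h4
      · rw [if_neg hj, sub_zero, one_mul] at h3
        exact h3
    have hε0 : ε = 0 := by rw [← hx, cl_eq_zero]; exact hxΛ
    have hx1 := hx0 hε0
    have e4 : z i - w j = ((((((i : ℕ) : ℤ) - ((j : ℕ) : ℤ)) * A : ℤ) : ℂ) * L.ω₁
        + ((1 - (if j = i0 then (k : ℤ) else 0) : ℤ) : ℂ) * L.ω₂) / (M : ℂ) := by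
      rw [e, hx1]
      split_ifs <;> push_cast <;> ring
    rw [e4, frac_mem L _ _ hM0] at h
    have h5 := int_zero_of_dvd h.2 (by
      rw [abs_lt]
      split_ifs <;> constructor <;> omega)
    split_ifs at h5
    · omega
    · omega
  have hs : ∑ i, z i = ∑ i, w i := by
    simp only [hw]
    rw [Finset.sum_add_distrib, Finset.sum_sub_distrib, Finset.sum_const, Finset.card_univ,
      Fintype.card_fin, nsmul_eq_mul, Finset.sum_ite_eq' Finset.univ i0, if_pos (Finset.mem_univ _)]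
    ring
  have memZ : ∀ u : Torus L, u ∈ (mk z w hinjz hinjw hd hs).Z ↔ ∃ i, cl L (z i) = u := by
    intro u
    change u ∈ Finset.univ.image (fun i => cl L (z i)) ↔ _
    simp
  have memW : ∀ u : Torus L, u ∈ (mk z w hinjz hinjw hd hs).W ↔ ∃ i, cl L (w i) = u := by
    intro u
    change u ∈ Finset.univ.image (fun i => cl L (w i)) ↔ _
    simp
  refine ⟨mk z w hinjz hinjw hd hs, ?_, ?_, ?_, ?_, ?_⟩
  · change (Finset.univ.image (fun i => cl L (z i))).card = k
    rw [Finset.card_image_of_injective _ hinjz, Finset.card_univ, Fintype.card_fin]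
  · change (Finset.univ.image (fun i => cl L (w i))).card = k
    rw [Finset.card_image_of_injective _ hinjw, Finset.card_univ, Fintype.card_fin]
  · intro u hu
    obtain ⟨i, rfl⟩ := (memZ u).1 hu
    rw [← cl_nmul, cl_eq_zero]
    have e : (M : ℂ) * z i = (((((i : ℕ) : ℤ) * A : ℤ)) : ℂ) * L.ω₁ := by
      simp only [hz]
      field_simp
    rw [e]
    exact hω _
  · intro u hu
    obtain ⟨i, rfl⟩ := (memW u).1 hu
    rw [← cl_nmul, ← hx, ← cl_neg, cl_eq]
    have e : (M : ℂ) * w i - -x = (((((i : ℕ) : ℤ) * A : ℤ)) : ℂ) * L.ω₁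
        + (if i = i0 then (k : ℂ) * x else 0) := by
      simp only [hw, hz]
      split_ifs
      · field_simp
        ring
      · field_simp
        ring
    rw [e]
    apply add_mem (hω _)
    split_ifs
    · exact hkxΛ
    · exact zero_mem _
  · intro δ hδ
    have hz0 : cl L (z i0) = 0 := by
      rw [cl_eq_zero]
      simp only [hz, hi0]
      simp
    obtain ⟨j, hj⟩ := (memZ _).1 (hδ _ ((memZ _).2 ⟨i0, rfl⟩))
    rw [hz0, zero_add] at hj
    set il : Fin k := ⟨k - 1, by omega⟩ with hil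
    obtain ⟨i, hi⟩ := (memZ _).1 (hδ _ ((memZ _).2 ⟨il, rfl⟩))
    rw [← hj, ← cl_add, cl_eq] at hi
    have e : z i - (z il + z j) = ((((((i : ℕ) : ℤ) - ((k : ℤ) - 1 + ((j : ℕ) : ℤ))) * A : ℤ) : ℂ) * L.ω₁
        + ((0 : ℤ) : ℂ) * L.ω₂) / (M : ℂ) := by
      simp only [hz, hil]
      have : (((k - 1 : ℕ) : ℤ)) = (k : ℤ) - 1 := by omega
      rw [this]
      push_cast
      ring
    rw [e, frac_mem L _ _ hM0] at hi
    obtain ⟨hi1, hi2⟩ := hb i
    obtain ⟨hj1, hj2⟩ := hb j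
    have h1 := int_zero_of_dvd hi.1 (by
      rw [abs_lt]
      have := abs_nonneg l₁
      constructor <;> nlinarith)
    rcases mul_eq_zero.1 h1 with h2 | h2
    · have hj0 : j = i0 := Fin.ext (by rw [hi0]; change (j : ℕ) = 0; omega)
      rw [← hj, hj0, hz0]
    · omega

end Pool.Agent.Y442.EC
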