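import Mathlib
import Pool.Agent.Y442.EC.TB

/-!
Curves of geometric genus one on `E × ℙ¹` with large multiplicities at three points.
-/

open Filter Topology
open H4EP H667R3 Pool.Agent.TH172.ER
open scoped OnePoint

noncomputable section

namespace Pool.Agent.Y442.EC

variable {L : PeriodPair}

theorem vo_finite {f : ℂ → ℂ} (hf : Meromorphic f) (hper : ∀ z, ∀ l ∈ L.lattice, f (z + l) = f z)
    (hn : NDeg f) (p q : ℂ) (hpq : p ≠ 0 ∨ q ≠ 0) :
    (Function.support (fun t : Torus L => vo f p q (rep t))).Finite := by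
  have hfin1 : (Function.support (od (lin f p q) : Torus L → ℤ)).Finite :=
    od_finite (lin_mero hf _ _) (lin_per hper _ _) (hn _ _ hpq)
  have hfin2 : (Function.support (od f : Torus L → ℤ)).Finite := od_finite (L := L) hf hper hn.self
  refine (hfin1.union hfin2).subset ?_
  intro t ht
  by_contra hc
  rw [Set.mem_union, not_or, Function.mem_support, Function.mem_support, not_not, not_not] at hc
  apply ht
  change oz (lin f p q) (rep t) - min (oz f (rep t)) 0 = 0
  have h1 : oz (lin f p q) (rep t) = 0 := hc.1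
  have h2 : oz f (rep t) = 0 := hc.2
  rw [h1, h2]
  norm_num

theorem sum_valueOrder {f : ℂ → ℂ} (hf : Meromorphic f)
    (hper : ∀ z, ∀ l ∈ L.lattice, f (z + l) = f z) (hn : NDeg f) (v : OnePoint ℂ) :
    ((∑ᶠ t : Torus L, valueOrder f (rep t) v : ℕ) : ℤ) = ∑ᶠ t : Torus L, vo f 1 0 (rep t) := by
  have e0 : ∀ t : Torus L, (valueOrder f (rep t) v : ℤ) = vo f (hom v).1 (hom v).2 (rep t) :=
    fun t => valueOrder_eq hf hn (rep t) v
  have hfin : (Function.support fun t : Torus L => valueOrder f (rep t) v).Finite := by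
    refine (vo_finite hf hper hn _ _ (hom_ne v)).subset ?_
    intro t ht h
    apply ht
    have h1 : (valueOrder f (rep t) v : ℤ) = 0 := (e0 t).trans h
    exact_mod_cast h1
  have e5 : ((∑ᶠ t : Torus L, valueOrder f (rep t) v : ℕ) : ℤ)
      = ∑ᶠ t : Torus L, (valueOrder f (rep t) v : ℤ) :=
    AddMonoidHom.map_finsum (Nat.castAddMonoidHom ℤ) hfin
  rw [e5, finsum_congr e0, sum_vo hf hper hn _ _ (hom_ne v)]

theorem mob_per {f : ℂ → ℂ} (hper : ∀ z, ∀ l ∈ L.lattice, f (z + l) = f z) (A B C D : ℂ) :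
    ∀ z, ∀ l ∈ L.lattice, mob A B C D f (z + l) = mob A B C D f z := by
  intro z l hl
  rw [mob, mob, hper z l hl]

theorem sum_mob {f : ℂ → ℂ} (hf : Meromorphic f) (hper : ∀ z, ∀ l ∈ L.lattice, f (z + l) = f z)
    (hn : NDeg f) {A B C D : ℂ} (hdet : A * D - B * C ≠ 0) :
    ∑ᶠ t : Torus L, vo (mob A B C D f) 1 0 (rep t) = ∑ᶠ t : Torus L, vo f 1 0 (rep t) := by
  have hAC : A ≠ 0 ∨ C ≠ 0 := by
    by_contra hc
    push Not at hc
    apply hdet
    rw [hc.1, hc.2]
    ring
  rw [← sum_vo (mob_mero hf A B C D) (mob_per hper A B C D) (mob_ndeg hf hn hdet) A C hAC]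
  apply finsum_congr
  intro t
  have := vo_mob hf hn hdet 1 0 (Or.inl one_ne_zero) (rep t)
  rw [mul_one, mul_zero, add_zero, mul_one, mul_zero, add_zero] at this
  exact this

/-- a period of `mob f` preserves the orders of `f` -/
theorem period_oz {f : ℂ → ℂ} (hf : Meromorphic f) (hn : NDeg f) {A B C D : ℂ}
    (hdet : A * D - B * C ≠ 0) {s : ℂ}
    (h : ∀ z : ℂ, (fun w => mob A B C D f (w + s)) =ᶠ[𝓝[≠] z] mob A B C D f) (z : ℂ) :
    oz f (z + s) = oz f z := by
  have h1 := vo_shift (h z) (A * 0 + B * 1) (C * 0 + D * 1)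
  have h2 := vo_shift (h z) (A * 1 + B * 0) (C * 1 + D * 0)
  rw [vo_mob hf hn hdet 0 1 (Or.inr one_ne_zero), vo_mob hf hn hdet 0 1 (Or.inr one_ne_zero)] at h1
  rw [vo_mob hf hn hdet 1 0 (Or.inl one_ne_zero), vo_mob hf hn hdet 1 0 (Or.inl one_ne_zero)] at h2
  rw [EF.oz_vo, EF.oz_vo, h1, h2]

theorem exists_curve3 (p₁ p₂ p₃ : Surface L) (h12 : p₁.2 ≠ p₂.2) (h13 : p₁.2 ≠ p₃.2)
    (h23 : p₂.2 ≠ p₃.2) {n : ℕ} (hn : n ≠ 0) (hε : n • p₁.1 = n • p₂.1) :
    ∃ k M₀ : ℕ, ∀ M : ℕ, M₀ ≤ M → ∃ C : EllipticCurveOn L, C.m = M * (M + 1) ∧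
      (∀ v, C.sectionDegree v ≤ (M + 1) ^ 2 * k + k) ∧
      (M + 1) ^ 2 * k ≤ C.mult p₁ + 2 * k ∧ (M + 1) ^ 2 * k ≤ C.mult p₂ + 2 * k ∧
      M ^ 2 ≤ C.mult p₃ + 2 * k := by
  classical
  set ε : Torus L := p₁.1 - p₂.1 with hεd
  have hε' : n • ε = 0 := by rw [hεd, smul_sub, hε, sub_self]
  obtain ⟨k, M₀, hk2, hEF⟩ := exists_EF ε hn hε'
  refine ⟨k, max M₀ (4 * k + 2), fun M hM => ?_⟩
  have hM1 : M₀ ≤ M := le_trans (le_max_left _ _) hM
  have hM2 : 4 * k + 2 ≤ M := le_trans (le_max_right _ _) hM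
  have hM0 : M ≠ 0 := by omega
  obtain ⟨E, hZ, hW, hZM, hWM, hsym⟩ := hEF M hM1
  set N := M + 1 with hN
  have hN0 : N ≠ 0 := by omega
  obtain ⟨c, hNc⟩ : ∃ c : ℂ, N • cl L c = p₃.1 - p₁.1 :=
    ⟨rep (divp L N (p₃.1 - p₁.1)), by rw [cl_rep, nsmul_divp L hN0]⟩
  obtain ⟨Mo, ⟨k0, hk0, hB0, hD0⟩, ⟨k1, hk1, hA1, hC1⟩, h2a, h2b⟩ := exists_mo h12 h13 h23
  have hNsq : 4 * k + 2 ≤ N ^ 2 := by nlinarith
  have hnd : NDeg (E.f N c) := by
    apply E.ndeg hN0
    rw [hZ, hW]
    nlinarith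
  have hfm := E.f_mero hN0 c
  have hfp : ∀ z, ∀ l ∈ L.lattice, E.f N c (z + l) = E.f N c z := fun z l hl => E.f_per N c z hl
  set g := mob Mo.A Mo.B Mo.C Mo.D (E.f N c) with hg
  have hgm : Meromorphic g := mob_mero hfm _ _ _ _
  have hgp : ∀ z, ∀ l ∈ L.lattice, g (z + l) = g z := mob_per hfp _ _ _ _
  have hgn : NDeg g := mob_ndeg hfm hnd Mo.det
  have hbir : ∃ T : Set (Torus L), T.Finite ∧ ∀ s t : Torus L, s ∉ T → t ∉ T →
      (M * N) • s = (M * N) • t → g (rep s) = g (rep t) → s = t := by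
    apply birat_of hgm hgp (mul_ne_zero hM0 hN0)
    intro κ hκ hper
    apply hκ
    have hof : ∀ t, E.of N (cl L c) (t + κ) = E.of N (cl L c) t := by
      intro t
      have h1 := period_oz hfm hnd Mo.det hper (rep t)
      rw [E.f_oz hN0, E.f_oz hN0, cl_add, cl_rep, cl_rep] at h1
      exact h1
    have h1 := E.period_sym hN0 (cl L c) (by rw [hZ, hW]; omega) hof
    have h2 := hsym _ h1
    exact hsym _ (E.period_sym' (cl L c) hof (by intro t; rw [h2, add_zero]))
  set C : EllipticCurveOn L :=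
    { m := M * N
      m_pos := Nat.pos_of_ne_zero (mul_ne_zero hM0 hN0)
      c := p₁.1
      f := g
      meromorphic := hgm
      periodic := hgp
      birational := hbir } with hCdef
  have hbad : (E.bad (cl L c)).card ≤ 2 * k := by
    have := E.card_bad (cl L c)
    omega
  have tv : ∀ (t : Torus L) (v : OnePoint ℂ), TakesValue g (rep t) v ↔
      0 < vo g (hom v).1 (hom v).2 (rep t) := fun t v => takesValue_iff hgm hgn (rep t) v
  have hMN : ∀ t : Torus L, (M * N) • t = M • (N • t) := fun t => mul_smul M N t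
  have hMN' : ∀ t : Torus L, (M * N) • t = N • (M • t) := fun t => by rw [mul_comm, mul_smul]
  have hMN0 : M * N ≠ 0 := mul_ne_zero hM0 hN0
  refine ⟨C, rfl, ?_, ?_, ?_, ?_⟩
  · intro v
    have h1 := sum_valueOrder hgm hgp hgn v
    rw [hg, sum_mob hfm hfp hnd Mo.det] at h1
    have h2 := E.sum_le hN0 c
    rw [hZ, hW] at h2
    have h3 : ((C.sectionDegree v : ℕ) : ℤ) ≤ ((N ^ 2 * k + k : ℕ) : ℤ) := h1.trans_le h2
    exact_mod_cast h3
  · -- the point `p₁`
    have h1 : (pre N E.Z \ E.bad (cl L c)).card ≤ C.mult p₁ := by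
      have h0 := card_le_nat (N := M * N) hMN0 0 (pre N E.Z \ E.bad (cl L c))
        (fun t => TakesValue g (rep t) p₁.2) (by
          intro t ht
          rw [Finset.mem_sdiff, mem_pre hN0] at ht
          refine ⟨by rw [hMN, hZM _ ht.1], ?_⟩
          rw [tv, ← vo_smul hgm hk0, ← hB0, ← hD0]
          have := vo_mob hfm hnd Mo.det 0 1 (Or.inr one_ne_zero) (rep t)
          rw [mul_zero, mul_one, zero_add, mul_zero, mul_one, zero_add] at this
          rw [hg, this]
          exact E.vo_zero hN0 c ht.1 ht.2)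
      refine h0.trans_eq ?_
      unfold EllipticCurveOn.mult
      congr 1
      have : ∀ t : Torus L, (M * N) • t = 0 ↔ C.m • t + C.c = p₁.1 := by
        intro t
        change _ ↔ (M * N) • t + p₁.1 = p₁.1
        rw [add_eq_right]
      simp only [this]
      rfl
    have h2 := Finset.le_card_sdiff (E.bad (cl L c)) (pre N E.Z)
    rw [card_pre hN0, hZ] at h2
    omega
  · have h1 : (pre N E.W \ E.bad (cl L c)).card ≤ C.mult p₂ := by
      have h0 := card_le_nat (N := M * N) hMN0 (-ε) (pre N E.W \ E.bad (cl L c))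
        (fun t => TakesValue g (rep t) p₂.2) (by
          intro t ht
          rw [Finset.mem_sdiff, mem_pre hN0] at ht
          refine ⟨by rw [hMN, hWM _ ht.1], ?_⟩
          rw [tv, ← vo_smul hgm hk1, ← hA1, ← hC1]
          have := vo_mob hfm hnd Mo.det 1 0 (Or.inl one_ne_zero) (rep t)
          rw [mul_zero, mul_one, add_zero, mul_zero, mul_one, add_zero] at this
          rw [hg, this]
          exact E.vo_pole hN0 c ht.1 ht.2)
      refine h0.trans_eq ?_
      unfold EllipticCurveOn.mult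
      congr 1
      have : ∀ t : Torus L, (M * N) • t = -ε ↔ C.m • t + C.c = p₂.1 := by
        intro t
        change _ ↔ (M * N) • t + p₁.1 = p₂.1
        rw [hεd, neg_sub, eq_sub_iff_add_eq]
      simp only [this]
      rfl
    have h2 := Finset.le_card_sdiff (E.bad (cl L c)) (pre N E.W)
    rw [card_pre hN0, hW] at h2
    omega
  · have h1 : (fib M (cl L c) \ E.bad (cl L c)).card ≤ C.mult p₃ := by
      have h0 := card_le_nat (N := M * N) hMN0 (p₃.1 - p₁.1) (fib M (cl L c) \ E.bad (cl L c))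
        (fun t => TakesValue g (rep t) p₃.2) (by
          intro t ht
          rw [Finset.mem_sdiff, mem_fib hM0] at ht
          refine ⟨by rw [hMN', ht.1, hNc], ?_⟩
          have hNt : N • t = t + cl L c := by
            rw [hN, add_smul, one_smul, ht.1, add_comm]
          rw [tv, ← h2a, ← h2b]
          have := vo_mob hfm hnd Mo.det 1 1 (Or.inl one_ne_zero) (rep t)
          rw [mul_one, mul_one, mul_one, mul_one] at this
          rw [hg, this]
          have hb := ht.2
          rw [E.mem_bad, not_or] at hb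
          apply E.vo_val hN0 c hnd ht.2
          · rw [hNt]; exact hb.1
          · rw [hNt]; exact hb.2
          · rw [one_mul]
            apply E.per'
            rw [cl_nmul, cl_rep, hNt, cl_add, cl_rep])
      refine h0.trans_eq ?_
      unfold EllipticCurveOn.mult
      congr 1
      have : ∀ t : Torus L, (M * N) • t = p₃.1 - p₁.1 ↔ C.m • t + C.c = p₃.1 := by
        intro t
        change _ ↔ (M * N) • t + p₁.1 = p₃.1
        rw [eq_sub_iff_add_eq]
      simp only [this]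
      rfl
    have h2 := Finset.le_card_sdiff (E.bad (cl L c)) (fib M (cl L c))
    rw [card_fib hM0] at h2
    omega

end Pool.Agent.Y442.EC
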