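import Mathlib
import Pool.Agent.Y442.EC.Cv

/-!
The canonical degree of curves of geometric genus one on a blow-up of `E × ℙ¹`.
-/

open Filter Topology
open H4EP H667R3 Pool.Agent.TH172.ER
open scoped OnePoint

noncomputable section

namespace Pool.Agent.Y442.EC

variable {L : PeriodPair}

/-- The canonical degree `K_X · C'` of the strict transform `C'` of the curve `C` on the blow-up `X`
of `E × ℙ¹` at the points of the finite set `S`: since `K_{E × ℙ¹} = -2 [E × {pt}]` and
`K_X = π^* K_{E × ℙ¹} + ∑_{p ∈ S} E_p`, it is `∑_{p ∈ S} mult_p C - 2 C · [E × {pt}]`. -/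
def canonicalDegree (C : EllipticCurveOn L) (S : Finset (Surface L)) : ℤ :=
  ∑ p ∈ S, (C.mult p : ℤ) - 2 * (C.sectionDegree ∞ : ℤ)

theorem mult_subset (C : EllipticCurveOn L) {S S' : Finset (Surface L)} (h : S ⊆ S') :
    canonicalDegree C S ≤ canonicalDegree C S' := by
  unfold canonicalDegree
  have := Finset.sum_le_sum_of_subset_of_nonneg (f := fun p => (C.mult p : ℤ)) h
    (fun p _ _ => Int.natCast_nonneg _)
  linarith

theorem growth (S : Finset (Surface L)) {p₁ p₂ p₃ : Surface L} (hp₁ : p₁ ∈ S) (hp₂ : p₂ ∈ S)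
    (hp₃ : p₃ ∈ S) (h12 : p₁.2 ≠ p₂.2) (h13 : p₁.2 ≠ p₃.2)
    (h23 : p₂.2 ≠ p₃.2) {n : ℕ} (hn : n ≠ 0) (hε : n • p₁.1 = n • p₂.1) :
    ∃ k M₀ : ℕ, ∀ M : ℕ, M₀ ≤ M → ∃ C : EllipticCurveOn L, C.m = M * (M + 1) ∧
      (∀ v, C.sectionDegree v ≤ ((M + 1) ^ 2 + 1) * k) ∧
      (M : ℤ) ^ 2 ≤ canonicalDegree C S + 8 * k := by
  classical
  obtain ⟨k, M₀, h⟩ := exists_curve3 p₁ p₂ p₃ h12 h13 h23 hn hε
  refine ⟨k, M₀, fun M hM => ?_⟩
  obtain ⟨C, hm, hs, h1, h2, h3⟩ := h M hM
  refine ⟨C, hm, fun v => (hs v).trans_eq (by ring), ?_⟩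
  have hsub : ({p₁, p₂, p₃} : Finset (Surface L)) ⊆ S := by
    intro p hp
    rw [Finset.mem_insert, Finset.mem_insert, Finset.mem_singleton] at hp
    rcases hp with h | h | h
    · rw [h]; exact hp₁
    · rw [h]; exact hp₂
    · rw [h]; exact hp₃
  refine le_trans ?_ (add_le_add_left (mult_subset C hsub) _)
  unfold canonicalDegree
  rw [Finset.sum_insert, Finset.sum_insert, Finset.sum_singleton]
  · have k1 : (((M + 1) ^ 2 * k : ℕ) : ℤ) ≤ ((C.mult p₁ + 2 * k : ℕ) : ℤ) := by exact_mod_cast h1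
    have k2 : (((M + 1) ^ 2 * k : ℕ) : ℤ) ≤ ((C.mult p₂ + 2 * k : ℕ) : ℤ) := by exact_mod_cast h2
    have k3 : ((M ^ 2 : ℕ) : ℤ) ≤ ((C.mult p₃ + 2 * k : ℕ) : ℤ) := by exact_mod_cast h3
    have k4 : ((C.sectionDegree ∞ : ℕ) : ℤ) ≤ (((M + 1) ^ 2 * k + k : ℕ) : ℤ) := by
      exact_mod_cast hs ∞
    push_cast at k1 k2 k3 k4
    linarith
  · rw [Finset.mem_singleton]
    exact fun h => h23 (by rw [h])
  · rw [Finset.mem_insert, Finset.mem_singleton, not_or]
    exact ⟨fun h => h12 (by rw [h]), fun h => h13 (by rw [h])⟩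

/-- the multiplicities at the points of a section -/
theorem sum_mult_le (C : EllipticCurveOn L) (hn : NDeg C.f) (S : Finset (Surface L))
    (v : OnePoint ℂ) (hS : ∀ p ∈ S, p.2 = v) :
    ∑ p ∈ S, (C.mult p : ℤ) ≤ (C.sectionDegree ∞ : ℤ) := by
  classical
  have hsum : (C.sectionDegree ∞ : ℤ) = (C.sectionDegree v : ℤ) := by
    unfold EllipticCurveOn.sectionDegree
    rw [sum_valueOrder C.meromorphic C.periodic hn, sum_valueOrder C.meromorphic C.periodic hn]
  rw [hsum]
  have e0 : ∀ t : Torus L, (valueOrder C.f (rep t) v : ℤ) = vo C.f (hom v).1 (hom v).2 (rep t) :=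
    fun t => valueOrder_eq C.meromorphic hn (rep t) v
  have hfin : (Function.support fun t : Torus L => valueOrder C.f (rep t) v).Finite := by
    refine (vo_finite C.meromorphic C.periodic hn _ _ (hom_ne v)).subset ?_
    intro t ht h
    apply ht
    have h1 : (valueOrder C.f (rep t) v : ℤ) = 0 := (e0 t).trans h
    exact_mod_cast h1
  set T := hfin.toFinset with hT
  have h1 : C.sectionDegree v = ∑ t ∈ T, valueOrder C.f (rep t) v := by
    unfold EllipticCurveOn.sectionDegree
    rw [finsum_eq_sum_of_support_subset (s := T)]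
    rw [hT, Set.Finite.coe_toFinset]
  have h2 : ∀ t : Torus L, TakesValue C.f (rep t) v ↔ t ∈ T := by
    intro t
    rw [takesValue_iff C.meromorphic hn, ← e0, hT, Set.Finite.mem_toFinset, Function.mem_support]
    omega
  have h3 : ∀ p ∈ S, C.mult p = (T.filter (fun t => C.m • t + C.c = p.1)).card := by
    intro p hp
    unfold EllipticCurveOn.mult
    apply card_iff
    intro t
    rw [Finset.mem_filter, hS p hp, h2]
    tauto
  have h4 : ∑ p ∈ S, C.mult p ≤ T.card := by
    rw [Finset.sum_congr rfl h3]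
    rw [← Finset.card_biUnion]
    · apply Finset.card_le_card
      intro t ht
      obtain ⟨p, -, hp⟩ := Finset.mem_biUnion.1 ht
      exact (Finset.mem_filter.1 hp).1
    · intro p hp q hq hpq
      rw [Function.onFun, Finset.disjoint_left]
      intro t h5 h6
      apply hpq
      apply Prod.ext
      · rw [← (Finset.mem_filter.1 h5).2, (Finset.mem_filter.1 h6).2]
      · rw [hS p hp, hS q hq]
  have h5 : T.card ≤ ∑ t ∈ T, valueOrder C.f (rep t) v := by
    rw [Finset.card_eq_sum_ones]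
    apply Finset.sum_le_sum
    intro t ht
    rw [hT, Set.Finite.mem_toFinset, Function.mem_support] at ht
    omega
  rw [h1]
  exact_mod_cast h4.trans h5

/-- a constant function on `E` -/
theorem const_case (C : EllipticCurveOn L) (hn : ¬ NDeg C.f) : ∃ c₀ : ℂ,
    ∀ z, meromorphicOrderAt (fun w => C.f w - c₀) z = ⊤ := by
  classical
  unfold NDeg at hn
  push Not at hn
  obtain ⟨p, q, hpq, z, hz⟩ := hn
  have hq : q ≠ 0 := by
    intro hq
    have hp : p ≠ 0 := by
      rcases hpq with h | h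
      · exact h
      · exact absurd hq h
    have e : lin C.f p q = fun _ => -p := by
      funext w
      simp [lin, hq]
    rw [e, meromorphicOrderAt_const, if_neg (neg_ne_zero.2 hp)] at hz
    exact WithTop.coe_ne_top hz
  have hall : ∀ y, meromorphicOrderAt (lin C.f p q) y = ⊤ := by
    intro y
    by_contra hy
    exact MeromorphicOn.meromorphicOrderAt_ne_top_of_isPreconnected (U := Set.univ) (x := y)
      (fun x _ => lin_mero C.meromorphic _ _ x) isPreconnected_univ (Set.mem_univ _)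
      (Set.mem_univ z) hy hz
  refine ⟨p / q, fun y => ?_⟩
  have h1 := hall y
  rw [meromorphicOrderAt_eq_top_iff] at h1 ⊢
  filter_upwards [h1] with w hw
  simp only [lin] at hw
  field_simp
  linear_combination hw

theorem const_m (C : EllipticCurveOn L) {c₀ : ℂ}
    (h : ∀ z, meromorphicOrderAt (fun w => C.f w - c₀) z = ⊤) : C.m = 1 := by
  classical
  by_contra hm
  have hm0 := C.m_pos
  obtain ⟨T, hTf, hT⟩ := C.birational
  -- the finite set of points where `f` has a wrong value
  have hX : {t : Torus L | C.f (rep t) ≠ c₀}.Finite := by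
    set K := Metric.closedBall (0:ℂ) (‖L.ω₁‖ + ‖L.ω₂‖)
    have h2 : {x : ℂ | C.f x = c₀} ∈ codiscreteWithin K := by
      rw [mem_codiscreteWithin]
      intro x _
      have h3 := h x
      rw [meromorphicOrderAt_eq_top_iff] at h3
      rw [Filter.disjoint_principal_right]
      filter_upwards [h3] with w hw
      rw [Set.mem_compl_iff, Set.mem_sdiff, not_and, not_not]
      intro _
      exact sub_eq_zero.1 hw
    have h3 : (K \ {x : ℂ | C.f x = c₀}).Finite :=
      (isCompact_closedBall _ _).finite_sdiff_of_mem_codiscreteWithin h2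
    refine (h3.image (cl L)).subset ?_
    intro t ht
    obtain ⟨z, hz, hzt⟩ := exists_rep_ball L t
    refine ⟨z, ⟨hz, ?_⟩, hzt⟩
    intro hc
    apply ht
    rw [← hc]
    have h4 : cl L (rep t) = cl L z := by rw [cl_rep, hzt]
    have h5 := cl_eq.1 h4
    have := C.periodic z _ h5
    rwa [add_sub_cancel] at this
  set X := {t : Torus L | C.f (rep t) ≠ c₀}
  obtain ⟨κ, hκ, hκ0⟩ : ∃ κ : Torus L, C.m • κ = 0 ∧ κ ≠ 0 := by
    have h1 : 1 < (fib C.m (0 : Torus L)).card := by
      rw [card_fib hm0.ne']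
      nlinarith [show 2 ≤ C.m by omega]
    obtain ⟨κ, hκ, h2⟩ := Finset.exists_mem_ne h1 0
    exact ⟨κ, (mem_fib hm0.ne' _ _).1 hκ, h2⟩
  have hfin : (T ∪ X ∪ ((fun t => t - κ) '' (T ∪ X))).Finite :=
    (hTf.union hX).union ((hTf.union hX).image _)
  obtain ⟨t, ht⟩ : ∃ t, t ∉ (T ∪ X ∪ ((fun t => t - κ) '' (T ∪ X))) := by
    by_contra hc
    push Not at hc
    set n := hfin.toFinset.card + 1 with hn
    have h1 : (fib n (0 : Torus L)).card ≤ hfin.toFinset.card :=
      Finset.card_le_card (fun t _ => hfin.mem_toFinset.2 (hc t))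
    rw [card_fib (by omega)] at h1
    nlinarith
  rw [Set.mem_union, not_or, Set.mem_union, not_or] at ht
  obtain ⟨⟨h1, h2⟩, h3⟩ := ht
  have h4 : t + κ ∉ T ∪ X := fun h4 => h3 ⟨t + κ, h4, add_sub_cancel_right _ _⟩
  rw [Set.mem_union, not_or] at h4
  have e1 : C.f (rep t) = c₀ := by
    by_contra hc
    exact h2 hc
  have e2 : C.f (rep (t + κ)) = c₀ := by
    by_contra hc
    exact h4.2 hc
  have h5 := hT (t + κ) t h4.1 h1 (by rw [smul_add, hκ, add_zero]) (by rw [e1, e2])
  exact hκ0 (by simpa using h5)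

/-- **Upper bound**, when the points of `S` lie on at most two sections. -/
theorem upper (S : Finset (Surface L)) (v₁ v₂ : OnePoint ℂ) (hS : ∀ p ∈ S, p.2 = v₁ ∨ p.2 = v₂)
    (C : EllipticCurveOn L) : canonicalDegree C S ≤ S.card := by
  classical
  unfold canonicalDegree
  by_cases hn : NDeg C.f
  · have h1 := sum_mult_le C hn (S.filter (fun p => p.2 = v₁)) v₁
      (fun p hp => (Finset.mem_filter.1 hp).2)
    have h2 := sum_mult_le C hn (S.filter (fun p => ¬ p.2 = v₁)) v₂ (fun p hp => by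
      obtain ⟨h3, h4⟩ := Finset.mem_filter.1 hp
      exact (hS p h3).resolve_left h4)
    have h3 := Finset.sum_filter_add_sum_filter_not S (fun p => p.2 = v₁)
      (fun p => (C.mult p : ℤ))
    have h4 : (0 : ℤ) ≤ (S.card : ℤ) := Int.natCast_nonneg _
    linarith
  · obtain ⟨c₀, hc⟩ := const_case C hn
    have hm := const_m C hc
    have h1 : ∀ p ∈ S, (C.mult p : ℤ) ≤ 1 := by
      intro p _
      have h2 : C.mult p ≤ ({p.1 - C.c} : Finset (Torus L)).card := by
        unfold EllipticCurveOn.mult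
        have h3 : {t : Torus L | C.m • t + C.c = p.1 ∧ TakesValue C.f (rep t) p.2}
            ⊆ (({p.1 - C.c} : Finset (Torus L)) : Set (Torus L)) := by
          intro t ht
          have h4 := ht.1
          rw [hm, one_smul] at h4
          rw [Finset.coe_singleton, Set.mem_singleton_iff, ← h4]
          abel
        have h4 := Set.ncard_le_ncard h3 (Finset.finite_toSet _)
        rw [Set.ncard_coe_finset] at h4
        exact h4
      rw [Finset.card_singleton] at h2
      exact_mod_cast h2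
    have h2 := Finset.sum_le_sum h1
    rw [Finset.sum_const, nsmul_eq_mul, mul_one] at h2
    have h3 : (0 : ℤ) ≤ (C.sectionDegree ∞ : ℤ) := Int.natCast_nonneg _
    linarith

end Pool.Agent.Y442.EC
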