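import Mathlib
import Pool.Agent.Y442.EC.Kd
import Pool.Agent.TH172.ER.Baire

/-!
Density of the blow-ups of `E × ℙ¹` on which the canonical degree of the curves of genus one is
unbounded.
-/

open Filter Topology
open H4EP H667R3 Pool.Agent.TH172.ER
open scoped OnePoint

noncomputable section

namespace Pool.Agent.Y442.EC

variable {L : PeriodPair}

theorem unbounded_of_growth {S : Finset (Surface L)}
    (h : ∃ k M₀ : ℕ, ∀ M : ℕ, M₀ ≤ M → ∃ C : EllipticCurveOn L, C.m = M * (M + 1) ∧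
      (∀ v, C.sectionDegree v ≤ ((M + 1) ^ 2 + 1) * k) ∧
      (M : ℤ) ^ 2 ≤ canonicalDegree C S + 8 * k) (B : ℝ) :
    ∃ C : EllipticCurveOn L, B < (canonicalDegree C S : ℝ) := by
  obtain ⟨k, M₀, h⟩ := h
  obtain ⟨m, hm⟩ := exists_nat_gt (B + 8 * k)
  obtain ⟨C, -, -, hC⟩ := h (max M₀ (max m 1)) (le_max_left _ _)
  refine ⟨C, ?_⟩
  set M := max M₀ (max m 1) with hM
  have h1 : m ≤ M := le_trans (le_max_left _ _) (le_max_right _ _)
  have h2 : 1 ≤ M := le_trans (le_max_right m 1) (le_max_right _ _)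
  have h3 : (M : ℝ) ≤ (M : ℝ) ^ 2 := by
    have : (1 : ℝ) ≤ M := by exact_mod_cast h2
    nlinarith
  have h4 : (M : ℝ) ^ 2 ≤ (canonicalDegree C S : ℝ) + 8 * k := by exact_mod_cast hC
  have h5 : (m : ℝ) ≤ M := by exact_mod_cast h1
  linarith

theorem torsion_dense {V : Set (Torus L)} (hV : IsOpen V) (hne : V.Nonempty) :
    ∃ t ∈ V, ∃ n : ℕ, n ≠ 0 ∧ n • t = 0 := by
  have h1 : IsOpen ((cl L) ⁻¹' V) := hV.preimage cl_cont
  obtain ⟨t₀, ht₀⟩ := hne
  have h2 : rep t₀ ∈ (cl L) ⁻¹' V := by rw [Set.mem_preimage, cl_rep]; exact ht₀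
  obtain ⟨δ, hδ, hball⟩ := Metric.isOpen_iff.1 h1 _ h2
  obtain ⟨n, hn⟩ := exists_nat_gt ((‖L.ω₁‖ + ‖L.ω₂‖) / δ)
  have hR : 0 ≤ ‖L.ω₁‖ + ‖L.ω₂‖ := add_nonneg (norm_nonneg _) (norm_nonneg _)
  have hn0 : (0 : ℝ) < n := lt_of_le_of_lt (div_nonneg hR hδ.le) hn
  have hn1 : n ≠ 0 := by
    rintro rfl
    exact lt_irrefl _ (by exact_mod_cast hn0)
  have hnC : (n : ℂ) ≠ 0 := by exact_mod_cast hn1
  obtain ⟨w, hw, hcl⟩ := exists_rep_ball L (cl L ((n : ℂ) * rep t₀))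
  refine ⟨cl L (rep t₀ - w / n), ?_, n, hn1, ?_⟩
  · apply hball
    rw [Metric.mem_ball, dist_eq_norm]
    have e : rep t₀ - w / n - rep t₀ = -(w / n) := by ring
    rw [e, norm_neg, norm_div, Complex.norm_natCast, div_lt_iff₀ hn0]
    rw [mem_closedBall_zero_iff] at hw
    rw [div_lt_iff₀ hδ] at hn
    linarith
  · rw [← cl_nmul]
    have e : (n : ℂ) * (rep t₀ - w / n) = (n : ℂ) * rep t₀ - w := by
      field_simp
    rw [e, cl_sub, hcl, sub_self]

theorem injective_choice {X : Type} {r : ℕ} (B : Fin r → Set X) (hB : ∀ i, (B i).Infinite) :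
    ∃ q : Fin r → X, Function.Injective q ∧ ∀ i, q i ∈ B i := by
  classical
  choose T hT hTc using fun i => (hB i).exists_subset_card_eq r
  obtain ⟨q, hq, hqT⟩ := (Finset.all_card_le_biUnion_card_iff_exists_injective T).1 (by
    intro s
    rcases s.eq_empty_or_nonempty with h | ⟨i, hi⟩
    · rw [h]; simp
    · refine le_trans ?_ (Finset.card_le_card (Finset.subset_biUnion_of_mem T hi))
      rw [hTc]
      exact (Finset.card_le_univ s).trans_eq (Fintype.card_fin r))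
  exact ⟨q, hq, fun i => hT i (hqT i)⟩

open Classical in
theorem dense_unbounded {r : ℕ} (hr : 3 ≤ r) :
    Dense {p : Fin r → Surface L | Function.Injective p ∧
      ∀ B : ℝ, ∃ C : EllipticCurveOn L, B < (canonicalDegree C (Finset.univ.image p) : ℝ)} := by
  rw [dense_iff_inter_open]
  rintro U hU ⟨p, hp⟩
  obtain ⟨u, hu, huU⟩ := isOpen_pi_iff'.1 hU p hp
  have h1 : ∀ i, ∃ (A : Set (Torus L)) (B : Set (OnePoint ℂ)), IsOpen A ∧ IsOpen B ∧
      (p i).1 ∈ A ∧ (p i).2 ∈ B ∧ A ×ˢ B ⊆ u i := fun i =>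
    isOpen_prod_iff.1 (hu i).1 _ _ (hu i).2
  choose A B hA hB hpA hpB hAB using h1
  obtain ⟨q, hq, hqB⟩ := injective_choice B (fun i hf =>
    onePoint_open (hB i) ⟨_, hpB i⟩ hf.countable)
  choose a haA n hn hna using fun i => torsion_dense (hA i) ⟨_, hpA i⟩
  set p' : Fin r → Surface L := fun i => (a i, q i) with hp'
  have hinj : Function.Injective p' := fun i j h => hq (Prod.ext_iff.1 h).2
  refine ⟨p', huU ?_, hinj, ?_⟩
  · intro i _
    exact hAB i ⟨haA i, hqB i⟩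
  · apply unbounded_of_growth
    set i₀ : Fin r := ⟨0, by omega⟩
    set i₁ : Fin r := ⟨1, by omega⟩
    set i₂ : Fin r := ⟨2, by omega⟩
    have d01 : i₀ ≠ i₁ := by simp [i₀, i₁]
    have d02 : i₀ ≠ i₂ := by simp [i₀, i₂]
    have d12 : i₁ ≠ i₂ := by simp [i₁, i₂]
    refine growth (p₁ := p' i₀) (p₂ := p' i₁) (p₃ := p' i₂) _
      (Finset.mem_image_of_mem _ (Finset.mem_univ _)) (Finset.mem_image_of_mem _ (Finset.mem_univ _))
      (Finset.mem_image_of_mem _ (Finset.mem_univ _)) (fun h => d01 (hq h)) (fun h => d02 (hq h))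
      (fun h => d12 (hq h)) (n := n i₀ * n i₁) (mul_ne_zero (hn _) (hn _)) ?_
    change (n i₀ * n i₁) • a i₀ = (n i₀ * n i₁) • a i₁
    rw [mul_smul, mul_smul, hna i₁, smul_zero, smul_comm, hna i₀, smul_zero]

end Pool.Agent.Y442.EC
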