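import Mathlib
import Pool.Agent.TH172.ER.Defs

/-!
# Curves of higher genus on `E × ℙ¹`, given by double covers of `E`

`E = ℂ / Λ` is a complex elliptic curve, `Λ` the lattice of a period pair `L`.  `Torus L = ℂ ⧸ Λ` and
`rep : Torus L → ℂ` (a choice of a representative) are defined in `Pool.Agent.H4R3.EPa`;
`TakesValue` and `valueOrder` in `Pool.Agent.TH172.ER.Defs`.
-/

open scoped OnePoint
open H4EP Pool.Agent.TH172.ER

namespace Pool.Agent.Y442.EC

/-- A curve `C` on `E × ℙ¹`, `E = ℂ / Λ`, given through its normalisation `φ : D → E × ℙ¹`,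
`φ(t, w) = (m t, w)`. Here `m ≥ 1`, `r` is a meromorphic function on `E` (a meromorphic function on
`ℂ` which is periodic with respect to `Λ`), and `D → E` is the double cover given by the square root
`w` of `r`: `D` is the compact Riemann surface of `w² = r(t)`. The field `ramified` says that `r` has
odd order at some point of `E`; so `D → E` is ramified, and `D` is connected. The field `birational`
says that `t ↦ (m t, r t)` is injective outside a finite set `T ⊂ E`; so `φ` is injective outside a
finite set, that is, birational onto its image `C = φ(D)`, and `C` is a reduced irreducible curve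
with normalisation `D`. -/
structure DoubleCurve (L : PeriodPair) where
  m : ℕ
  m_pos : 0 < m
  r : ℂ → ℂ
  meromorphic : Meromorphic r
  periodic : ∀ z : ℂ, ∀ l ∈ L.lattice, r (z + l) = r z
  ramified : ∃ (z : ℂ) (n : ℤ), Odd n ∧ meromorphicOrderAt r z = n
  birational : ∃ T : Set (Torus L), T.Finite ∧ ∀ s t : Torus L, s ∉ T → t ∉ T →
    m • s = m • t → r (rep s) = r (rep t) → s = t

namespace DoubleCurve

variable {L : PeriodPair} (C : DoubleCurve L)

/-- The geometric genus `g` of `C`, the genus of `D`. The double cover `D → E` is ramified over the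
points `t ∈ E` at which `r` has odd order, so `2 g - 2` is the number of these points
(Riemann-Hurwitz). -/
noncomputable def genus : ℕ :=
  1 + Nat.card {t : Torus L // Odd (meromorphicOrderAt C.r (rep t)).untop₀} / 2

/-- The intersection number `C · (E × {pt})`, that is, the degree of `w : D → ℙ¹`. As `w² = r`, it is
the degree of `r : E → ℙ¹`, the number of poles of `r` on `E`, counted with multiplicity. -/
noncomputable def sectionDegree : ℕ := ∑ᶠ t : Torus L, valueOrder C.r (rep t) ∞

/-- The multiplicity of `C` at the point `p = (e, w₀)` of `E × ℂ*`: the number of points `(t, w₀)` of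
`D` with `m t = e` and `w₀² = r(t)`. (As `w₀ ≠ 0, ∞`, the cover `D → E` is not ramified at these
points, and `t ↦ m t` is étale; so every branch of `C` at `p` is smooth.) -/
noncomputable def mult (p : Torus L × ℂˣ) : ℕ :=
  Nat.card {t : Torus L // C.m • t = p.1 ∧ TakesValue C.r (rep t) (((p.2 : ℂ) ^ 2 : ℂ) : OnePoint ℂ)}

/-- The canonical degree `K_X · C'` of the strict transform `C'` of `C` on the blow-up `X` of
`E × ℙ¹` at the points of the finite set `S ⊂ E × ℂ*`: since `K_{E × ℙ¹} = -2 [E × {pt}]` and
`K_X = π^* K_{E × ℙ¹} + ∑_{p ∈ S} E_p`, it is `∑_{p ∈ S} mult_p C - 2 C · (E × {pt})`. -/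
noncomputable def canonicalDegree (S : Finset (Torus L × ℂˣ)) : ℤ :=
  ∑ p ∈ S, (C.mult p : ℤ) - 2 * (C.sectionDegree : ℤ)

end DoubleCurve

open Classical in
/-- The points `(0, w)` and `(0, -w)` of `E × ℂ*`, for `w` in the finite set `T ⊂ ℂ*`. -/
noncomputable def signedPoints (L : PeriodPair) (T : Finset ℂˣ) : Finset (Torus L × ℂˣ) :=
  (T ∪ T.image (fun w => -w)).image (fun w => ((0 : Torus L), w))

end Pool.Agent.Y442.EC
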