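import Mathlib
import Pool.Agent.Y442.EC.Kd

/-!
The elliptic function of degree two with zeros `± ω₁/4` and poles `± (ω₁/4 + ω₂/2)`: it is even and
changes its sign under translation by `ω₁/2`.
-/

open Filter Topology
open H4EP H667R3 Pool.Agent.TH172.ER
open scoped OnePoint

noncomputable section

namespace Pool.Agent.Y442.EC

variable (L : PeriodPair)

/-- the zero `ω₁ / 4` -/
def pa : ℂ := (((1 : ℤ) : ℂ) * L.ω₁ + ((0 : ℤ) : ℂ) * L.ω₂) / ((4 : ℕ) : ℂ)

/-- the pole `ω₁ / 4 + ω₂ / 2` -/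
def pb : ℂ := (((1 : ℤ) : ℂ) * L.ω₁ + ((2 : ℤ) : ℂ) * L.ω₂) / ((4 : ℕ) : ℂ)

/-- the zeros -/
def za : Fin 2 → ℂ := ![pa L, -pa L]

/-- the poles -/
def zb : Fin 2 → ℂ := ![pb L, -pb L]

theorem fr4 (x : ℂ) (p q : ℤ) (h : x = ((p : ℂ) * L.ω₁ + (q : ℂ) * L.ω₂) / ((4 : ℕ) : ℂ))
    (hpq : ¬ ((4 : ℤ) ∣ p ∧ (4 : ℤ) ∣ q)) : x ∉ L.lattice := by
  rw [h, frac_mem L p q (by norm_num)]
  exact_mod_cast hpq

theorem a_ne : cl L (pa L) ≠ cl L (-pa L) := by
  rw [Ne, cl_eq]
  apply fr4 L _ 2 0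
  · rw [pa]; push_cast; ring
  · norm_num

theorem b_ne : cl L (pb L) ≠ cl L (-pb L) := by
  rw [Ne, cl_eq]
  apply fr4 L _ 2 4
  · rw [pb]; push_cast; ring
  · norm_num

theorem inj2 {x : ℂ} (h : cl L x ≠ cl L (-x)) : Function.Injective (fun i => cl L (![x, -x] i)) := by
  intro i j hij
  fin_cases i <;> fin_cases j
  · rfl
  · exact absurd hij h
  · exact absurd hij.symm h
  · rfl

theorem ab_ne (i j : Fin 2) : cl L (za L i) ≠ cl L (zb L j) := by
  rw [Ne, cl_eq]
  fin_cases i <;> fin_cases j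
  · apply fr4 L _ 0 (-2)
    · simp only [za, zb, pa, pb]
      simp
      ring
    · norm_num
  · apply fr4 L _ 2 2
    · simp only [za, zb, pa, pb]
      simp
      ring
    · norm_num
  · apply fr4 L _ (-2) (-2)
    · simp only [za, zb, pa, pb]
      simp
      ring
    · norm_num
  · apply fr4 L _ 0 2
    · simp only [za, zb, pa, pb]
      simp
      ring
    · norm_num

/-- the function -/
def SN : EF L := mk (za L) (zb L) (inj2 L (a_ne L)) (inj2 L (b_ne L)) (ab_ne L) (by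
  rw [Fin.sum_univ_two, Fin.sum_univ_two]
  simp [za, zb])

theorem SN_h (u : ℂ) : (SN L).h u = (sigma L (u - pa L) * sigma L (u + pa L)) /
    (sigma L (u - pb L) * sigma L (u + pb L)) := by
  change sp L (za L) u / sp L (zb L) u = _
  rw [sp, sp, Fin.prod_univ_two, Fin.prod_univ_two]
  have e : ∀ x : ℂ, sg L 1 (-x) u = sigma L (u - x) := by
    intro x
    rw [sg]
    congr 1
    push_cast
    ring
  rw [e, e, e, e]
  simp [za, zb]

theorem SN_even (u : ℂ) : (SN L).h (-u) = (SN L).h u := by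
  rw [SN_h, SN_h]
  have e : ∀ x : ℂ, sigma L (-u - x) * sigma L (-u + x) = sigma L (u - x) * sigma L (u + x) := by
    intro x
    rw [show -u - x = -(u + x) by ring, show -u + x = -(u - x) by ring, sigma_neg, sigma_neg]
    ring
  rw [e, e]

theorem SN_shift_const : ∃ c : ℂ, ∀ u, (SN L).h (u + L.ω₁ / 2) = c * (SN L).h u := by
  have m1 : L.ω₁ ∈ L.lattice := L.ω₁_mem_lattice
  have m2 : -L.ω₂ ∈ L.lattice := neg_mem L.ω₂_mem_lattice
  have m3 : L.ω₁ + L.ω₂ ∈ L.lattice := add_mem L.ω₁_mem_lattice L.ω₂_mem_lattice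
  obtain ⟨C1, hC1, h1⟩ := sigma_add_coe L m1
  obtain ⟨C2, hC2, h2⟩ := sigma_add_coe L m2
  obtain ⟨C3, hC3, h3⟩ := sigma_add_coe L m3
  have hη2 : eta L (-L.ω₂) = - eta L L.ω₂ := eta_neg L L.ω₂_mem_lattice
  have hη3 : eta L (L.ω₁ + L.ω₂) = eta L L.ω₁ + eta L L.ω₂ :=
    eta_add L L.ω₁_mem_lattice L.ω₂_mem_lattice
  refine ⟨C1 / (C2 * C3) * Complex.exp (- eta L L.ω₁ * pa L + eta L L.ω₂ * pb L
    + (eta L L.ω₁ + eta L L.ω₂) * pb L), fun u => ?_⟩
  rw [SN_h, SN_h]
  have e1 : u + L.ω₁ / 2 - pa L = u + pa L := by rw [pa]; push_cast; ring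
  have e2 : u + L.ω₁ / 2 + pa L = (u - pa L) + L.ω₁ := by rw [pa]; push_cast; ring
  have e3 : u + L.ω₁ / 2 - pb L = (u + pb L) + -L.ω₂ := by rw [pb]; push_cast; ring
  have e4 : u + L.ω₁ / 2 + pb L = (u - pb L) + (L.ω₁ + L.ω₂) := by rw [pb]; push_cast; ring
  rw [e1, e2, e3, e4, h1, h2, h3, hη2, hη3]
  have hE : Complex.exp (eta L L.ω₁ * (u - pa L))
      = Complex.exp (- eta L L.ω₁ * pa L + eta L L.ω₂ * pb L + (eta L L.ω₁ + eta L L.ω₂) * pb L) *
        (Complex.exp (-eta L L.ω₂ * (u + pb L)) *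
          Complex.exp ((eta L L.ω₁ + eta L L.ω₂) * (u - pb L))) := by
    rw [← Complex.exp_add, ← Complex.exp_add]
    congr 1
    ring
  rw [hE]
  have x1 := Complex.exp_ne_zero (-eta L L.ω₂ * (u + pb L))
  have x2 := Complex.exp_ne_zero ((eta L L.ω₁ + eta L L.ω₂) * (u - pb L))
  set X1 := Complex.exp (-eta L L.ω₂ * (u + pb L))
  set X2 := Complex.exp ((eta L L.ω₁ + eta L L.ω₂) * (u - pb L))
  set X3 := Complex.exp (- eta L L.ω₁ * pa L + eta L L.ω₂ * pb L
    + (eta L L.ω₁ + eta L L.ω₂) * pb L)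
  set s1 := sigma L (u - pa L)
  set s2 := sigma L (u + pa L)
  set s3 := sigma L (u - pb L)
  set s4 := sigma L (u + pb L)
  have e5 : C2 * X1 * s4 * (C3 * X2 * s3) = (C2 * C3 * (X1 * X2)) * (s3 * s4) := by ring
  have e6 : s2 * (C1 * (X3 * (X1 * X2)) * s1) = (C1 * X3 * (X1 * X2)) * (s1 * s2) := by ring
  rw [e5, e6, mul_div_mul_comm]
  congr 1
  have hXX : X1 * X2 ≠ 0 := mul_ne_zero x1 x2
  field_simp

theorem mem_SN_Z (t : Torus L) : t ∈ (SN L).Z ↔ t = cl L (pa L) ∨ t = - cl L (pa L) := by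
  classical
  change t ∈ Finset.univ.image (fun i => cl L (za L i)) ↔ _
  rw [Finset.mem_image]
  constructor
  · rintro ⟨i, -, hi⟩
    fin_cases i
    · left; exact hi.symm
    · right; rw [← hi]; exact cl_neg _
  · rintro (h | h)
    · exact ⟨0, Finset.mem_univ _, h.symm⟩
    · refine ⟨1, Finset.mem_univ _, ?_⟩
      rw [h]; exact cl_neg _

theorem mem_SN_W (t : Torus L) : t ∈ (SN L).W ↔ t = cl L (pb L) ∨ t = - cl L (pb L) := by
  classical
  change t ∈ Finset.univ.image (fun i => cl L (zb L i)) ↔ _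
  rw [Finset.mem_image]
  constructor
  · rintro ⟨i, -, hi⟩
    fin_cases i
    · left; exact hi.symm
    · right; rw [← hi]; exact cl_neg _
  · rintro (h | h)
    · exact ⟨0, Finset.mem_univ _, h.symm⟩
    · refine ⟨1, Finset.mem_univ _, ?_⟩
      rw [h]; exact cl_neg _

theorem card_SN_Z : (SN L).Z.card = 2 := by
  classical
  change (Finset.univ.image (fun i => cl L (za L i))).card = 2
  have h : Function.Injective (fun i => cl L (za L i)) := inj2 L (a_ne L)
  rw [Finset.card_image_of_injective _ h, Finset.card_univ, Fintype.card_fin]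

theorem card_SN_W : (SN L).W.card = 2 := by
  classical
  change (Finset.univ.image (fun i => cl L (zb L i))).card = 2
  have h : Function.Injective (fun i => cl L (zb L i)) := inj2 L (b_ne L)
  rw [Finset.card_image_of_injective _ h, Finset.card_univ, Fintype.card_fin]

/-- the two-torsion point `ω₁ / 2` -/
def tau : Torus L := cl L (L.ω₁ / 2)

theorem two_tau : 2 • tau L = 0 := by
  rw [tau, ← cl_nmul, cl_eq_zero]
  have : ((2 : ℕ) : ℂ) * (L.ω₁ / 2) = L.ω₁ := by push_cast; ring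
  rw [this]
  exact L.ω₁_mem_lattice

theorem tau_ne : tau L ≠ 0 := by
  rw [tau, Ne, cl_eq_zero]
  apply fr4 L _ 2 0
  · push_cast; ring
  · norm_num

theorem a_tau : cl L (pa L) + tau L = - cl L (pa L) := by
  rw [tau, ← cl_add, cl_eq_neg]
  have : pa L + L.ω₁ / 2 + pa L = L.ω₁ := by rw [pa]; push_cast; ring
  rw [this]
  exact L.ω₁_mem_lattice

theorem b_tau : cl L (pb L) + tau L = - cl L (pb L) := by
  rw [tau, ← cl_add, cl_eq_neg]
  have : pb L + L.ω₁ / 2 + pb L = L.ω₁ + L.ω₂ := by rw [pb]; push_cast; ring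
  rw [this]
  exact add_mem L.ω₁_mem_lattice L.ω₂_mem_lattice

theorem tau_add_tau : tau L + tau L = 0 := by
  rw [← two_smul ℕ, two_tau]

theorem Z_tau (t : Torus L) : t + tau L ∈ (SN L).Z ↔ t ∈ (SN L).Z := by
  have key : ∀ t : Torus L, t ∈ (SN L).Z → t + tau L ∈ (SN L).Z := by
    intro t ht
    rw [mem_SN_Z] at ht ⊢
    rcases ht with h | h
    · right; rw [h, a_tau]
    · left
      rw [h, ← a_tau, add_assoc, tau_add_tau, add_zero]
  constructor
  · intro h
    have := key _ h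
    rwa [add_assoc, tau_add_tau, add_zero] at this
  · exact key t

theorem W_tau (t : Torus L) : t + tau L ∈ (SN L).W ↔ t ∈ (SN L).W := by
  have key : ∀ t : Torus L, t ∈ (SN L).W → t + tau L ∈ (SN L).W := by
    intro t ht
    rw [mem_SN_W] at ht ⊢
    rcases ht with h | h
    · right; rw [h, b_tau]
    · left
      rw [h, ← b_tau, add_assoc, tau_add_tau, add_zero]
  constructor
  · intro h
    have := key _ h
    rwa [add_assoc, tau_add_tau, add_zero] at this
  · exact key t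

theorem Z_neg (t : Torus L) : -t ∈ (SN L).Z ↔ t ∈ (SN L).Z := by
  rw [mem_SN_Z, mem_SN_Z, neg_inj, neg_eq_iff_eq_neg]
  tauto

theorem W_neg (t : Torus L) : -t ∈ (SN L).W ↔ t ∈ (SN L).W := by
  rw [mem_SN_W, mem_SN_W, neg_inj, neg_eq_iff_eq_neg]
  tauto

/-- the only translations that preserve the zeros -/
theorem Z_sym {δ : Torus L} (h : ∀ u ∈ (SN L).Z, u + δ ∈ (SN L).Z) : δ = 0 ∨ δ = tau L := by
  have h1 := h (cl L (pa L)) ((mem_SN_Z L _).2 (Or.inl rfl))
  rw [mem_SN_Z] at h1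
  rcases h1 with h1 | h1
  · left; simpa using h1
  · right
    rw [← a_tau] at h1
    exact add_left_cancel h1

theorem four_Z {t : Torus L} (h : t ∈ (SN L).Z) : 4 • t = 0 := by
  have h4 : 4 • cl L (pa L) = 0 := by
    rw [← cl_nmul, cl_eq_zero]
    have : ((4 : ℕ) : ℂ) * pa L = L.ω₁ := by rw [pa]; push_cast; ring
    rw [this]
    exact L.ω₁_mem_lattice
  rw [mem_SN_Z] at h
  rcases h with h | h
  · rw [h, h4]
  · rw [h, smul_neg, h4, neg_zero]

theorem four_W {t : Torus L} (h : t ∈ (SN L).W) : 4 • t = 0 := by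
  have h4 : 4 • cl L (pb L) = 0 := by
    rw [← cl_nmul, cl_eq_zero]
    have : ((4 : ℕ) : ℂ) * pb L = L.ω₁ + (L.ω₂ + L.ω₂) := by rw [pb]; push_cast; ring
    rw [this]
    exact add_mem L.ω₁_mem_lattice (add_mem L.ω₂_mem_lattice L.ω₂_mem_lattice)
  rw [mem_SN_W] at h
  rcases h with h | h
  · rw [h, h4]
  · rw [h, smul_neg, h4, neg_zero]

/-- `h` changes its sign under translation by `ω₁ / 2` -/
theorem SN_shift (u : ℂ) : (SN L).h (u + L.ω₁ / 2) = - (SN L).h u := by
  obtain ⟨c, hc⟩ := SN_shift_const L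
  have hW : cl L (-pa L) ∉ (SN L).W := by
    rw [cl_neg, W_neg]
    intro h
    exact Finset.disjoint_left.1 (SN L).disj ((mem_SN_Z L _).2 (Or.inl rfl)) h
  have hana := (SN L).ana (-pa L) hW
  have hZ : cl L (-pa L) ∈ (SN L).Z := (mem_SN_Z L _).2 (Or.inr (cl_neg _))
  have hord : meromorphicOrderAt (SN L).h (-pa L) = ((1 : ℤ) : WithTop ℤ) := by
    rw [(SN L).ord, ind_Z (SN L).disj hZ]
  have hd : deriv (SN L).h (-pa L) ≠ 0 := by
    have h1 : meromorphicOrderAt (deriv (SN L).h) (-pa L) = ((0 : ℤ) : WithTop ℤ) :=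
      meromorphicOrderAt_deriv_eq_sub_one (f := (SN L).h) (x := -pa L) (n := 1)
        (by norm_num) hord
    intro h0
    have h2 := hana.deriv.meromorphicOrderAt_eq
    rw [h1] at h2
    have h3 : analyticOrderAt (deriv (SN L).h) (-pa L) ≠ 0 := by
      rw [hana.deriv.analyticOrderAt_ne_zero]
      exact h0
    rcases hh : analyticOrderAt (deriv (SN L).h) (-pa L) with _ | n
    · rw [hh] at h2
      exact absurd h2 (WithTop.coe_ne_top)
    · rw [hh] at h2 h3
      have hn : n ≠ 0 := by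
        rintro rfl
        exact h3 rfl
      have h5 : ((0 : ℤ) : WithTop ℤ) = ((n : ℤ) : WithTop ℤ) := h2
      exact hn (by exact_mod_cast h5.symm)
  have hG : ∀ v : ℂ, (SN L).h (-pa L - v) = c * (SN L).h (-pa L + v) := by
    intro v
    rw [← hc, show -pa L + v + L.ω₁ / 2 = -(-pa L - v) by rw [pa]; push_cast; ring, SN_even]
  have hdiff : HasDerivAt (SN L).h (deriv (SN L).h (-pa L)) (-pa L) :=
    hana.differentiableAt.hasDerivAt
  have h1 : HasDerivAt (fun v : ℂ => (SN L).h (-pa L - v)) (-deriv (SN L).h (-pa L)) 0 := by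
    have e : HasDerivAt (fun v : ℂ => -pa L - v) (-1) 0 := by
      simpa using (hasDerivAt_id (0 : ℂ)).const_sub (-pa L)
    have h2 : HasDerivAt (SN L).h (deriv (SN L).h (-pa L)) (-pa L - 0) := by
      rw [sub_zero]; exact hdiff
    have := h2.comp (0 : ℂ) e
    refine this.congr_deriv ?_
    ring
  have h2 : HasDerivAt (fun v : ℂ => c * (SN L).h (-pa L + v)) (c * deriv (SN L).h (-pa L)) 0 := by
    have e : HasDerivAt (fun v : ℂ => -pa L + v) 1 0 := by
      simpa using (hasDerivAt_id (0 : ℂ)).const_add (-pa L)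
    have h2 : HasDerivAt (SN L).h (deriv (SN L).h (-pa L)) (-pa L + 0) := by
      rw [add_zero]; exact hdiff
    have h3 := (h2.comp (0 : ℂ) e).const_mul c
    refine h3.congr_deriv ?_
    ring
  have h3 : (fun v : ℂ => (SN L).h (-pa L - v)) = fun v : ℂ => c * (SN L).h (-pa L + v) :=
    funext hG
  rw [h3] at h1
  have h4 := h1.unique h2
  have h5 : c = -1 := by
    have : (c + 1) * deriv (SN L).h (-pa L) = 0 := by linear_combination -h4
    rcases mul_eq_zero.1 this with h | h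
    · linear_combination h
    · exact absurd h hd
  rw [hc, h5]
  ring

end Pool.Agent.Y442.EC
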