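import Mathlib
import Pool.Agent.Y442.EC.SN
import Pool.Agent.Y442.EC.DCDefs

/-!
The function `h(N t) / h(t)`, its four special values, and its critical values.
-/

open Filter Topology
open H4EP H667R3 Pool.Agent.TH172.ER
open scoped OnePoint

noncomputable section

namespace Pool.Agent.Y442.EC

variable (L : PeriodPair)

/-- `h(N t) / h(t)` -/
def fN (N : ℕ) : ℂ → ℂ := (SN L).f N 0

variable {L}

theorem cl_zero' : cl L 0 = 0 := by rw [cl_eq_zero]; exact zero_mem _

theorem fN_mero {N : ℕ} (hN : N ≠ 0) : Meromorphic (fN L N) := (SN L).f_mero hN 0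

theorem fN_per (N : ℕ) : ∀ z, ∀ l ∈ L.lattice, fN L N (z + l) = fN L N z :=
  fun z _ hl => (SN L).f_per N 0 z hl

theorem fN_ndeg {N : ℕ} (hN : 4 ≤ N) : NDeg (fN L N) := by
  apply (SN L).ndeg (by omega)
  rw [card_SN_Z, card_SN_W]
  nlinarith

theorem not_bad {t : Torus L} (h : t ∉ (SN L).bad (cl L 0)) : t ∉ (SN L).Z ∧ t ∉ (SN L).W := by
  rw [(SN L).mem_bad, not_or, cl_zero', add_zero] at h
  exact h

theorem vo_one {N : ℕ} (hN : 4 ≤ N) {t : Torus L} (hb : t ∉ (SN L).bad (cl L 0))
    (ht : N • t = t ∨ N • t = -t) : 0 < vo (fN L N) 1 1 (rep t) := by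
  obtain ⟨h1, h2⟩ := not_bad hb
  apply (SN L).vo_val (by omega) 0 (fN_ndeg hN) hb
  · rcases ht with h | h
    · rw [h]; exact h1
    · rw [h, Z_neg]; exact h1
  · rcases ht with h | h
    · rw [h]; exact h2
    · rw [h, W_neg]; exact h2
  · rw [one_mul, add_zero]
    rcases ht with h | h
    · apply (SN L).per'
      rw [cl_nmul, cl_rep, h]
    · rw [← SN_even L (rep t)]
      apply (SN L).per'
      rw [cl_nmul, cl_neg, cl_rep, h]

theorem vo_neg_one {N : ℕ} (hN : 4 ≤ N) {t : Torus L} (hb : t ∉ (SN L).bad (cl L 0))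
    (ht : N • t = t + tau L ∨ N • t = -t + tau L) : 0 < vo (fN L N) (-1) 1 (rep t) := by
  obtain ⟨h1, h2⟩ := not_bad hb
  apply (SN L).vo_val (by omega) 0 (fN_ndeg hN) hb
  · rcases ht with h | h
    · rw [h, Z_tau]; exact h1
    · rw [h, Z_tau, Z_neg]; exact h1
  · rcases ht with h | h
    · rw [h, W_tau]; exact h2
    · rw [h, W_tau, W_neg]; exact h2
  · rw [add_zero, neg_one_mul]
    rcases ht with h | h
    · rw [← SN_shift]
      apply (SN L).per'
      rw [cl_nmul, cl_rep, h, cl_add, cl_rep, tau]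
    · rw [← SN_even L (rep t), ← SN_shift]
      apply (SN L).per'
      rw [cl_nmul, cl_rep, h, cl_add, cl_neg, cl_rep, tau]

theorem fN_tau {N : ℕ} (hN : Even N) (z : ℂ) : fN L N (z + rep (tau L)) = - fN L N z := by
  have h1 : (SN L).h (z + rep (tau L) + 0) = - (SN L).h (z + 0) := by
    rw [add_zero, add_zero, ← SN_shift]
    apply (SN L).per'
    rw [cl_add, cl_add, cl_rep, tau]
  have h2 : (SN L).h ((N : ℂ) * (z + rep (tau L))) = (SN L).h ((N : ℂ) * z) := by
    apply (SN L).per'
    rw [cl_nmul, cl_nmul, cl_add, cl_rep, smul_add]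
    obtain ⟨k, hk⟩ := hN
    have : N • tau L = 0 := by
      rw [hk, ← two_mul, mul_comm, mul_smul, two_tau, smul_zero]
    rw [this, add_zero]
  rw [fN, EF.f, EF.f, h1, h2, div_neg]

/-- at one point only one value is taken -/
theorem vo_unique {f : ℂ → ℂ} (hf : Meromorphic f) (hn : NDeg f) (z : ℂ) {p q p' q' : ℂ}
    (hdet : p * q' - p' * q ≠ 0) (h1 : 0 < vo f p q z) (h2 : 0 < vo f p' q' z) : False := by
  have h := min_oz hf hn z hdet
  rw [vo] at h1 h2
  omega

/-- the critical values of `fN` -/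
def CV (L : PeriodPair) (N : ℕ) : Set ℂ := {v | ∃ t : Torus L, 2 ≤ vo (fN L N) v 1 (rep t)}

theorem CV_countable {N : ℕ} (hN : 4 ≤ N) : (CV L N).Countable := by
  have hN0 : N ≠ 0 := by omega
  have hf := fN_mero (L := L) hN0
  have hn := fN_ndeg (L := L) hN
  set g : ℂ → ℂ := deriv (fN L N) with hg
  have hgm : Meromorphic g := hf.deriv
  have hgper : ∀ z, ∀ l ∈ L.lattice, g (z + l) = g z := by
    intro z l hl
    have h1 : (fun x => fN L N (x + l)) = fN L N := funext fun x => fN_per N x l hl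
    have h2 := deriv_comp_add_const (fN L N) l z
    rw [h1] at h2
    exact h2.symm
  -- the derivative is not identically zero
  obtain ⟨t₀, ht₀, hb₀⟩ := (SN L).bad_exists (pre N (SN L).Z) (by
    rw [card_pre hN0, card_SN_Z, card_SN_W]
    nlinarith) (cl L 0)
  rw [mem_pre hN0] at ht₀
  have ho : meromorphicOrderAt (fN L N) (rep t₀) = ((1 : ℤ) : WithTop ℤ) := by
    obtain ⟨h1, h2⟩ := not_bad hb₀
    rw [fN, (SN L).f_ord hN0, cl_rep, EF.of, ind_Z (SN L).disj ht₀, cl_zero', add_zero,
      ind_none h1 h2, sub_zero]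
  have ho' : meromorphicOrderAt g (rep t₀) = ((0 : ℤ) : WithTop ℤ) :=
    meromorphicOrderAt_deriv_eq_sub_one (n := 1) (by norm_num) ho
  have hgtop : ∀ z, meromorphicOrderAt g z ≠ ⊤ := fun z =>
    MeromorphicOn.meromorphicOrderAt_ne_top_of_isPreconnected (U := Set.univ) (x := rep t₀)
      (fun x _ => hgm x) isPreconnected_univ (Set.mem_univ _) (Set.mem_univ _)
      (by rw [ho']; exact WithTop.coe_ne_top)
  have hfin := od_finite hgm hgper hgtop
  have hsub : CV L N ⊆ ⋃ t ∈ Function.support (od g : Torus L → ℤ),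
      {v | 0 < vo (fN L N) v 1 (rep t)} := by
    rintro v ⟨t, ht⟩
    rw [Set.mem_iUnion₂]
    refine ⟨t, ?_, ?_⟩
    · -- order of the derivative
      have h0 : 0 ≤ oz (fN L N) (rep t) := by
        by_contra hc
        push Not at hc
        have h1 := oz_sub_neg hf hn v hc
        rw [vo, h1] at ht
        omega
      have h1 : 2 ≤ oz (lin (fN L N) v 1) (rep t) := by
        rw [vo] at ht
        omega
      have h2 := oz_eq (hn v 1 (Or.inr one_ne_zero) (rep t))
      set n := oz (lin (fN L N) v 1) (rep t)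
      have h3 : meromorphicOrderAt (deriv (lin (fN L N) v 1)) (rep t)
          = ((n - 1 : ℤ) : WithTop ℤ) :=
        meromorphicOrderAt_deriv_eq_sub_one (by
          have : n ≠ 0 := by omega
          exact_mod_cast this) h2
      have h4 : deriv (lin (fN L N) v 1) = g := by
        funext w
        have : lin (fN L N) v 1 = fun w => fN L N w - v := by
          funext w
          simp [lin]
        rw [this, deriv_sub_const]
      rw [h4] at h3
      rw [Function.mem_support, od, h3, WithTop.untop₀_coe]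
      omega
    · change 0 < vo (fN L N) v 1 (rep t)
      omega
  refine Set.Countable.mono hsub (hfin.countable.biUnion fun t _ => ?_)
  apply Set.Subsingleton.countable
  intro v hv w hw
  by_contra hne
  exact vo_unique hf hn (rep t) (p := v) (q := 1) (p' := w) (q' := 1) (by
    rw [mul_one, mul_one]; exact sub_ne_zero.2 hne) hv hw

open Classical in
theorem card_two {x : Torus L} {N : ℕ} (hN : 4 ≤ N) :
    2 * N ^ 2 ≤ ((fib (N - 1) x ∪ fib (N + 1) x) \ (SN L).bad (cl L 0)).card + 6 := by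
  have h1 : (fib (N - 1) x ∪ fib (N + 1) x).card + (fib (N - 1) x ∩ fib (N + 1) x).card
      = (N - 1) ^ 2 + (N + 1) ^ 2 := by
    rw [Finset.card_union_add_card_inter, card_fib (by omega), card_fib (by omega)]
  have h2 : (fib (N - 1) x ∩ fib (N + 1) x).card ≤ 4 := by
    have h3 : fib (N - 1) x ∩ fib (N + 1) x ⊆ fib 2 0 := by
      intro t ht
      rw [Finset.mem_inter, mem_fib (by omega), mem_fib (by omega)] at ht
      rw [mem_fib (by norm_num)]
      have h4 : (N + 1) • t = (N - 1) • t + 2 • t := by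
        rw [← add_smul]
        congr 1
        omega
      rw [ht.1, ht.2] at h4
      simpa using h4.symm
    refine (Finset.card_le_card h3).trans ?_
    rw [card_fib (by norm_num)]
    norm_num
  have h5 := Finset.le_card_sdiff ((SN L).bad (cl L 0)) (fib (N - 1) x ∪ fib (N + 1) x)
  have h6 := (SN L).card_bad (cl L 0)
  rw [card_SN_Z, card_SN_W] at h6
  have h7 : (N - 1) ^ 2 + (N + 1) ^ 2 = 2 * N ^ 2 + 2 := by
    obtain ⟨k, rfl⟩ : ∃ k, N = k + 1 := ⟨N - 1, by omega⟩
    rw [Nat.add_sub_cancel]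
    ring
  omega

theorem kill {k m : ℕ} (h : k ∣ m) {t : Torus L} (ht : k • t = 0) : m • t = 0 := by
  obtain ⟨q, rfl⟩ := h
  rw [mul_comm, mul_smul, ht, smul_zero]

end Pool.Agent.Y442.EC
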