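import Mathlib
import Pool.Agent.Y442.EC.DC1

/-!
Curves of large genus and large canonical degree.
-/

open Filter Topology
open H4EP H667R3 Pool.Agent.TH172.ER
open scoped OnePoint

noncomputable section

namespace Pool.Agent.Y442.EC

variable {L : PeriodPair}

section

variable (N : ℕ) (v : ℂ)

/-- `(f - v) / (f + v)` -/
def rN (L : PeriodPair) (N : ℕ) (v : ℂ) : ℂ → ℂ := mob 1 (-v) 1 v (fN L N)

theorem rdet {v : ℂ} (hv : v ≠ 0) : (1 : ℂ) * v - (-v) * 1 ≠ 0 := by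
  have : (1 : ℂ) * v - (-v) * 1 = 2 * v := by ring
  rw [this]
  exact mul_ne_zero two_ne_zero hv

variable {N v}

theorem rN_mero (hN : 4 ≤ N) : Meromorphic (rN L N v) := mob_mero (fN_mero (by omega)) _ _ _ _

theorem rN_per : ∀ z, ∀ l ∈ L.lattice, rN L N v (z + l) = rN L N v z := mob_per (fN_per N) _ _ _ _

theorem rN_ndeg (hN : 4 ≤ N) (hv : v ≠ 0) : NDeg (rN L N v) :=
  mob_ndeg (fN_mero (by omega)) (fN_ndeg hN) (rdet hv)

theorem vo_r (hN : 4 ≤ N) (hv : v ≠ 0) {p q P Q k : ℂ} (hpq : p ≠ 0 ∨ q ≠ 0) (hk : k ≠ 0)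
    (h1 : p - v * q = k * P) (h2 : p + v * q = k * Q) (z : ℂ) :
    vo (rN L N v) P Q z = vo (fN L N) p q z := by
  have h3 := vo_mob (fN_mero (L := L) (N := N) (by omega)) (fN_ndeg hN) (rdet hv) p q hpq z
  have e1 : 1 * p + -v * q = k * P := by rw [← h1]; ring
  have e2 : 1 * p + v * q = k * Q := by rw [← h2]; ring
  rw [e1, e2] at h3
  rw [← h3]
  exact (vo_smul (rN_mero hN) hk P Q z).symm

theorem rN_birat (hN : 4 ≤ N) (hev : Even N) (hv : v ≠ 0) {M : ℕ} (hM : M ≠ 0) :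
    ∃ T : Set (Torus L), T.Finite ∧ ∀ s t : Torus L, s ∉ T → t ∉ T →
      M • s = M • t → rN L N v (rep s) = rN L N v (rep t) → s = t := by
  have hN0 : N ≠ 0 := by omega
  apply birat_of (rN_mero hN) rN_per hM
  intro κ hκ hper
  have hof : ∀ t, (SN L).of N (cl L 0) (t + κ) = (SN L).of N (cl L 0) t := by
    intro t
    have h1 := period_oz (fN_mero hN0) (fN_ndeg hN) (rdet hv) hper (rep t)
    rw [fN, (SN L).f_oz hN0, (SN L).f_oz hN0, cl_add, cl_rep, cl_rep] at h1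
    exact h1
  have h1 := (SN L).period_sym hN0 (cl L 0) (by rw [card_SN_Z, card_SN_W]; nlinarith) hof
  have h2 := Z_sym L h1
  have hind : ∀ t, ind (SN L).Z (SN L).W (t + N • κ) = ind (SN L).Z (SN L).W t := by
    intro t
    rcases h2 with h2 | h2
    · rw [h2, add_zero]
    · rw [h2]
      by_cases c1 : t ∈ (SN L).Z
      · rw [ind_Z (SN L).disj c1, ind_Z (SN L).disj ((Z_tau L t).2 c1)]
      · by_cases c2 : t ∈ (SN L).W
        · rw [ind_W (SN L).disj c2, ind_W (SN L).disj ((W_tau L t).2 c2)]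
        · rw [ind_none c1 c2, ind_none (fun h => c1 ((Z_tau L t).1 h))
            (fun h => c2 ((W_tau L t).1 h))]
  have h3 := Z_sym L ((SN L).period_sym' (cl L 0) hof hind)
  rcases h3 with h3 | h3
  · exact hκ h3
  · subst h3
    have hz := hper 0
    have hn := fN_ndeg (L := L) hN
    have hm := fN_mero (L := L) hN0
    have e0 : ∀ᶠ w in 𝓝[≠] (0 : ℂ), lin (fN L N) 0 1 w ≠ 0 :=
      (meromorphicOrderAt_ne_top_iff_eventually_ne_zero (lin_mero hm _ _ 0)).1
        (hn 0 1 (Or.inr one_ne_zero) 0)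
    have e1 : ∀ᶠ w in 𝓝[≠] (0 : ℂ), lin (fN L N) v 1 w ≠ 0 :=
      (meromorphicOrderAt_ne_top_iff_eventually_ne_zero (lin_mero hm _ _ 0)).1
        (hn v 1 (Or.inr one_ne_zero) 0)
    have e2 : ∀ᶠ w in 𝓝[≠] (0 : ℂ), lin (fN L N) (-v) 1 w ≠ 0 :=
      (meromorphicOrderAt_ne_top_iff_eventually_ne_zero (lin_mero hm _ _ 0)).1
        (hn (-v) 1 (Or.inr one_ne_zero) 0)
    obtain ⟨w, h0, h1, h2, hw⟩ := (e0.and (e1.and (e2.and hz))).exists
    simp only [lin, one_mul, sub_zero, sub_neg_eq_add] at h0 h1 h2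
    change (1 * fN L N (w + rep (tau L)) + -v) / (1 * fN L N (w + rep (tau L)) + v)
      = (1 * fN L N w + -v) / (1 * fN L N w + v) at hw
    rw [fN_tau hev] at hw
    have h3 : 1 * -fN L N w + v ≠ 0 := by
      intro h
      apply h1
      linear_combination -h
    have h4 : 1 * fN L N w + v ≠ 0 := by
      intro h
      apply h2
      linear_combination h
    rw [div_eq_div_iff h3 h4] at hw
    have h5 : 4 * v * fN L N w = 0 := by linear_combination -hw
    rcases mul_eq_zero.1 h5 with h6 | h6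
    · exact hv ((mul_eq_zero.1 h6).resolve_left (by norm_num))
    · exact h0 h6

end

/-- the curve -/
def dc (L : PeriodPair) (N : ℕ) (v : ℂ) (hN : 4 ≤ N) (hev : Even N) (hv : v ≠ 0)
    (hr : ∃ (z : ℂ) (n : ℤ), Odd n ∧ meromorphicOrderAt (rN L N v) z = n) (m : ℕ) (hm : m ≠ 0) :
    DoubleCurve L where
  m := m
  m_pos := Nat.pos_of_ne_zero hm
  r := rN L N v
  meromorphic := rN_mero hN
  periodic := rN_per
  ramified := hr
  birational := rN_birat hN hev hv hm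

section sums

variable {N : ℕ} {v : ℂ} (hN : 4 ≤ N) (hv : v ≠ 0)

include hN hv

theorem sum_rN : ∑ᶠ t : Torus L, vo (rN L N v) 1 0 (rep t)
    = ∑ᶠ t : Torus L, vo (fN L N) 1 0 (rep t) :=
  sum_mob (fN_mero (by omega)) (fN_per N) (fN_ndeg hN) (rdet hv)

theorem sum_rN_le : ∑ᶠ t : Torus L, vo (rN L N v) 1 0 (rep t) ≤ 2 * (N : ℤ) ^ 2 + 2 := by
  rw [sum_rN hN hv]
  have h := (SN L).sum_le (N := N) (by omega) 0
  rw [card_SN_Z, card_SN_W] at h
  push_cast at h
  have e : ∑ᶠ t : Torus L, vo (fN L N) 1 0 (rep t)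
      = ∑ᶠ t : Torus L, vo ((SN L).f N 0) 1 0 (rep t) := rfl
  rw [e]
  linarith

theorem le_sum_rN : 2 * (N : ℤ) ^ 2 - 2 ≤ ∑ᶠ t : Torus L, vo (rN L N v) 1 0 (rep t) := by
  rw [sum_rN hN hv]
  have h := (SN L).le_sum (N := N) (by omega) 0
  rw [card_SN_W] at h
  push_cast at h
  have e : ∑ᶠ t : Torus L, vo (fN L N) 1 0 (rep t)
      = ∑ᶠ t : Torus L, vo ((SN L).f N 0) 1 0 (rep t) := rfl
  rw [e]
  linarith

end sums

/-- the number of points where the order is odd, if all zeros and poles are simple -/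
theorem card_odd {g : ℂ → ℂ} (hg : Meromorphic g) (hper : ∀ z, ∀ l ∈ L.lattice, g (z + l) = g z)
    (hn : NDeg g) (h1 : ∀ t : Torus L, vo g 0 1 (rep t) ≤ 1) (h2 : ∀ t : Torus L, vo g 1 0 (rep t) ≤ 1) :
    (Nat.card {t : Torus L // Odd (meromorphicOrderAt g (rep t)).untop₀} : ℤ)
      = 2 * ∑ᶠ t : Torus L, vo g 1 0 (rep t) := by
  classical
  have hf1 := vo_finite hg hper hn 0 1 (Or.inr one_ne_zero)
  have hf2 := vo_finite hg hper hn 1 0 (Or.inl one_ne_zero)
  have hs : ∑ᶠ t : Torus L, vo g 0 1 (rep t) = ∑ᶠ t : Torus L, vo g 1 0 (rep t) :=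
    sum_vo hg hper hn 0 1 (Or.inr one_ne_zero)
  have e1 : 2 * ∑ᶠ t : Torus L, vo g 1 0 (rep t)
      = ∑ᶠ t : Torus L, (vo g 0 1 (rep t) + vo g 1 0 (rep t)) := by
    rw [finsum_add_distrib hf1 hf2, hs]
    ring
  rw [e1]
  have key : ∀ t : Torus L, (Odd (oz g (rep t)) ↔ vo g 0 1 (rep t) + vo g 1 0 (rep t) = 1) ∧
      (¬ Odd (oz g (rep t)) ↔ vo g 0 1 (rep t) + vo g 1 0 (rep t) = 0) := by
    intro t
    have a1 := h1 t
    have a2 := h2 t
    rw [EF.vo01] at a1 ⊢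
    rw [vo_top] at a2 ⊢
    have b : oz g (rep t) = -1 ∨ oz g (rep t) = 0 ∨ oz g (rep t) = 1 := by omega
    rcases b with b | b | b <;> rw [b] <;> constructor <;> simp
  set F : Finset (Torus L) := (hf1.union hf2).toFinset with hF
  have hFs : Function.support (fun t : Torus L => vo g 0 1 (rep t) + vo g 1 0 (rep t)) ⊆ F := by
    intro t ht
    rw [hF, Set.Finite.coe_toFinset]
    by_contra hc
    rw [Set.mem_union, not_or, Function.mem_support, Function.mem_support, not_not, not_not] at hc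
    apply ht
    change vo g 0 1 (rep t) + vo g 1 0 (rep t) = 0
    rw [hc.1, hc.2, add_zero]
  rw [finsum_eq_sum_of_support_subset _ hFs]
  have e2 : ∑ t ∈ F, (vo g 0 1 (rep t) + vo g 1 0 (rep t))
      = ∑ t ∈ F, (if Odd (oz g (rep t)) then 1 else 0 : ℤ) := by
    apply Finset.sum_congr rfl
    intro t _
    split_ifs with h
    · exact (key t).1.1 h
    · exact (key t).2.1 h
  rw [e2, Finset.sum_boole]
  have e3 : Nat.card {t : Torus L // Odd (meromorphicOrderAt g (rep t)).untop₀}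
      = (F.filter (fun t => Odd (oz g (rep t)))).card := by
    apply card_iff
    intro t
    rw [Finset.mem_filter]
    change Odd (oz g (rep t)) ↔ _
    constructor
    · intro h
      refine ⟨hFs ?_, h⟩
      rw [Function.mem_support, (key t).1.1 h]
      exact one_ne_zero
    · exact fun h => h.2
  rw [e3]

theorem exists_odd {g : ℂ → ℂ} (hn : NDeg g) (h2 : ∀ t : Torus L, vo g 1 0 (rep t) ≤ 1)
    (hpos : ∑ᶠ t : Torus L, vo g 1 0 (rep t) ≠ 0) :
    ∃ (z : ℂ) (n : ℤ), Odd n ∧ meromorphicOrderAt g z = n := by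
  obtain ⟨t, ht⟩ : ∃ t : Torus L, vo g 1 0 (rep t) ≠ 0 := by
    by_contra hc
    push Not at hc
    apply hpos
    rw [finsum_congr hc, finsum_zero]
  refine ⟨rep t, oz g (rep t), ?_, oz_eq (hn.self (rep t))⟩
  have h3 := h2 t
  rw [vo_top] at ht h3
  have : oz g (rep t) = -1 := by omega
  rw [this]
  exact ⟨-1, by norm_num⟩

section main

variable {N : ℕ} {v : ℂ} (hN : 4 ≤ N) (hev : Even N) (hv : v ≠ 0)
  (hr : ∃ (z : ℂ) (n : ℤ), Odd n ∧ meromorphicOrderAt (rN L N v) z = n) {m : ℕ} (hm : m ≠ 0)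

theorem dc_section : ((dc L N v hN hev hv hr m hm).sectionDegree : ℤ)
    = ∑ᶠ t : Torus L, vo (rN L N v) 1 0 (rep t) :=
  sum_valueOrder (rN_mero hN) rN_per (rN_ndeg hN hv) ∞

theorem dc_mult (w : ℂˣ) (S : Finset (Torus L)) (h1 : ∀ t ∈ S, m • t = 0)
    (h2 : ∀ t ∈ S, 0 < vo (rN L N v) ((w : ℂ) ^ 2) 1 (rep t)) :
    S.card ≤ (dc L N v hN hev hv hr m hm).mult (0, w) := by
  refine card_le_nat hm 0 S (fun t => TakesValue (rN L N v) (rep t) ((((w : ℂ) ^ 2 : ℂ)) : OnePoint ℂ))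
    fun t ht => ⟨h1 t ht, ?_⟩
  rw [takesValue_iff (rN_mero hN) (rN_ndeg hN hv)]
  exact h2 t ht

/-- zeros of `f` -/
theorem S0 (h4 : 4 ≤ N) : ∃ S : Finset (Torus L), 2 * N ^ 2 ≤ S.card + 4 ∧
    (∀ t ∈ S, (4 * (N * ((N - 1) * (N + 1)))) • t = 0) ∧
    ∀ t ∈ S, 0 < vo (fN L N) 0 1 (rep t) := by
  classical
  have hN0 : N ≠ 0 := by omega
  refine ⟨pre N (SN L).Z \ (SN L).bad (cl L 0), ?_, ?_, ?_⟩
  · have h5 := Finset.le_card_sdiff ((SN L).bad (cl L 0)) (pre N (SN L).Z)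
    have h6 := (SN L).card_bad (cl L 0)
    rw [card_SN_Z, card_SN_W] at h6
    rw [card_pre hN0, card_SN_Z] at h5
    omega
  · intro t ht
    rw [Finset.mem_sdiff, mem_pre hN0] at ht
    apply kill (k := 4 * N)
    · exact ⟨(N - 1) * (N + 1), by ring⟩
    · rw [mul_smul, four_Z L ht.1]
  · intro t ht
    rw [Finset.mem_sdiff, mem_pre hN0] at ht
    exact (SN L).vo_zero hN0 0 ht.1 ht.2

/-- poles of `f` -/
theorem Si (h4 : 4 ≤ N) : ∃ S : Finset (Torus L), 2 * N ^ 2 ≤ S.card + 4 ∧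
    (∀ t ∈ S, (4 * (N * ((N - 1) * (N + 1)))) • t = 0) ∧
    ∀ t ∈ S, 0 < vo (fN L N) 1 0 (rep t) := by
  classical
  have hN0 : N ≠ 0 := by omega
  refine ⟨pre N (SN L).W \ (SN L).bad (cl L 0), ?_, ?_, ?_⟩
  · have h5 := Finset.le_card_sdiff ((SN L).bad (cl L 0)) (pre N (SN L).W)
    have h6 := (SN L).card_bad (cl L 0)
    rw [card_SN_Z, card_SN_W] at h6
    rw [card_pre hN0, card_SN_W] at h5
    omega
  · intro t ht
    rw [Finset.mem_sdiff, mem_pre hN0] at ht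
    apply kill (k := 4 * N)
    · exact ⟨(N - 1) * (N + 1), by ring⟩
    · rw [mul_smul, four_W L ht.1]
  · intro t ht
    rw [Finset.mem_sdiff, mem_pre hN0] at ht
    exact (SN L).vo_pole hN0 0 ht.1 ht.2

theorem Spm (h4 : 4 ≤ N) {x : Torus L} (hx : 2 • x = 0) {κ : ℂ}
    (hκ : ∀ t, t ∉ (SN L).bad (cl L 0) → (N • t = t + x ∨ N • t = -t + x) →
      0 < vo (fN L N) κ 1 (rep t)) :
    ∃ S : Finset (Torus L), 2 * N ^ 2 ≤ S.card + 6 ∧
    (∀ t ∈ S, (4 * (N * ((N - 1) * (N + 1)))) • t = 0) ∧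
    ∀ t ∈ S, 0 < vo (fN L N) κ 1 (rep t) := by
  classical
  have hN0 : N ≠ 0 := by omega
  refine ⟨(fib (N - 1) x ∪ fib (N + 1) x) \ (SN L).bad (cl L 0), card_two h4, ?_, ?_⟩
  · intro t ht
    rw [Finset.mem_sdiff, Finset.mem_union, mem_fib (by omega), mem_fib (by omega)] at ht
    rcases ht.1 with h | h
    · apply kill (k := 2 * (N - 1))
      · exact ⟨2 * (N * (N + 1)), by ring⟩
      · rw [mul_smul, h, hx]
    · apply kill (k := 2 * (N + 1))
      · exact ⟨2 * (N * (N - 1)), by ring⟩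
      · rw [mul_smul, h, hx]
  · intro t ht
    rw [Finset.mem_sdiff, Finset.mem_union, mem_fib (by omega), mem_fib (by omega)] at ht
    apply hκ t ht.2
    rcases ht.1 with h | h
    · left
      have : N • t = (N - 1) • t + 1 • t := by
        rw [← add_smul]
        congr 1
        omega
      rw [this, h, one_smul, add_comm]
    · right
      have : (N + 1) • t = N • t + 1 • t := by rw [← add_smul]
      rw [this, one_smul] at h
      rw [← h]
      abel

end main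

end Pool.Agent.Y442.EC
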