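import Mathlib
import Pool.Agent.TH172.ER.Defs

/-!
# Curves on `E × H`, where `H` is a hyperelliptic curve

`E = ℂ / Λ` is a complex elliptic curve, `Λ` the lattice of a period pair `L`. `Torus L = ℂ ⧸ Λ` and
`rep : Torus L → ℂ` (a choice of a representative) are defined in `Pool.Agent.H4R3.EPa`;
`TakesValue` and `valueOrder` in `Pool.Agent.TH172.ER.Defs`.

`F` is a squarefree complex polynomial of degree `2 γ + 2`, and `H` is the smooth projective curve with
the affine equation `y² = F(x)`. It has genus `γ`: for `γ = 0` it is `ℙ¹`, for `γ = 1` an elliptic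
curve, for `γ ≥ 2` a hyperelliptic curve. Its two points at infinity are not ramification points of
`x : H → ℙ¹`.
-/

open scoped OnePoint
open H4EP Pool.Agent.TH172.ER

namespace Pool.Agent.Y442.EC

/-- The points `(a, b)` with `b ≠ 0` of the affine curve `y² = F(x)`: the points of `H` except the two
points at infinity and the ramification points of `x : H → ℙ¹`. -/
def HPoint (F : Polynomial ℂ) : Type := {q : ℂ × ℂ // q.2 ^ 2 = F.eval q.1 ∧ q.2 ≠ 0}

/-- The coordinate `a` of the point `(a, b)` of `H`. -/
def HPoint.x {F : Polynomial ℂ} (q : HPoint F) : ℂ := q.1.1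

/-- A curve `C` on `E × H`, `E = ℂ / Λ` and `H : y² = F(x)`, given through its normalisation
`φ : D → E × H`, `φ(t, y) = (m t, (x(t), y))`. Here `m ≥ 1`, `x` is a meromorphic function on `E` (a
meromorphic function on `ℂ` which is periodic with respect to `Λ`), and `D` is the compact Riemann
surface of `y² = F(x(t))`, a double cover of `E`. The field `ramified` says that `F(x(t))` has odd
order at some point of `E`; so `D → E` is ramified, and `D` is connected. The field `birational` says
that `t ↦ (m t, x t)` is injective outside a finite set `T ⊂ E`; so `φ` is injective outside a finite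
set, that is, birational onto its image `C = φ(D)`, and `C` is a reduced irreducible curve with
normalisation `D`. -/
structure CoverCurve (L : PeriodPair) (F : Polynomial ℂ) where
  m : ℕ
  m_pos : 0 < m
  x : ℂ → ℂ
  meromorphic : Meromorphic x
  periodic : ∀ z : ℂ, ∀ l ∈ L.lattice, x (z + l) = x z
  ramified : ∃ (z : ℂ) (n : ℤ), Odd n ∧ meromorphicOrderAt (fun u => F.eval (x u)) z = n
  birational : ∃ T : Set (Torus L), T.Finite ∧ ∀ s t : Torus L, s ∉ T → t ∉ T →
    m • s = m • t → x (rep s) = x (rep t) → s = t

namespace CoverCurve

variable {L : PeriodPair} {F : Polynomial ℂ} (C : CoverCurve L F)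

/-- The geometric genus `g` of `C`, the genus of `D`. The double cover `D → E` is ramified over the
points `t ∈ E` at which `F(x(t))` has odd order, so `2 g - 2` is the number of these points
(Riemann-Hurwitz). -/
noncomputable def genus : ℕ :=
  1 + Nat.card {t : Torus L // Odd (meromorphicOrderAt (fun u => F.eval (C.x u)) (rep t)).untop₀} / 2

/-- The intersection number `C · (E × {pt})`, that is, the degree of `D → H`. As `D` is the
normalisation of the fibre product of `x : E → ℙ¹` and `x : H → ℙ¹`, it is the degree of `x : E → ℙ¹`,
the number of poles of `x` on `E`, counted with multiplicity. -/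
noncomputable def sectionDegree : ℕ := ∑ᶠ t : Torus L, valueOrder C.x (rep t) ∞

/-- The multiplicity of `C` at the point `p = (e, (a, b))` of `E × H`, `b ≠ 0`: the number of points
`(t, b)` of `D` with `m t = e` and `x(t) = a`. (As `b ≠ 0`, the cover `D → E` is not ramified at these
points, and `t ↦ m t` is étale; so every branch of `C` at `p` is smooth.) -/
noncomputable def mult (p : Torus L × HPoint F) : ℕ :=
  Nat.card {t : Torus L // C.m • t = p.1 ∧ TakesValue C.x (rep t) ((p.2.x : ℂ) : OnePoint ℂ)}

/-- The canonical degree `K_X · C'` of the strict transform `C'` of `C` on the blow-up `X` of `E × H`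
at the points of the finite set `S`: since `K_{E × H} ≡ (2 γ - 2) [E × {pt}]`, `deg F = 2 γ + 2`, and
`K_X = π^* K_{E × H} + ∑_{p ∈ S} E_p`, it is `∑_{p ∈ S} mult_p C + (deg F - 4) C · (E × {pt})`. -/
noncomputable def canonicalDegree (S : Finset (Torus L × HPoint F)) : ℤ :=
  ∑ p ∈ S, (C.mult p : ℤ) + ((F.natDegree : ℤ) - 4) * (C.sectionDegree : ℤ)

end CoverCurve

end Pool.Agent.Y442.EC
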