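import Mathlib
import Pool.Agent.Y442.EC.DC2
import Pool.Agent.Y442.EC.HCDefs

/-!
The pull-back of the double cover `y² = F(x)` by a function on an elliptic curve: orders.
-/

open Filter Topology
open H4EP H667R3 Pool.Agent.TH172.ER
open scoped OnePoint

noncomputable section

namespace Pool.Agent.Y442.EC

variable {L : PeriodPair}

section birat

variable {N : ℕ} {A B C D : ℂ}

theorem gM_birat (hN : 4 ≤ N) (hev : Even N) (hdet : A * D - B * C ≠ 0) {M : ℕ} (hM : M ≠ 0) :
    ∃ T : Set (Torus L), T.Finite ∧ ∀ s t : Torus L, s ∉ T → t ∉ T →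
      M • s = M • t → mob A B C D (fN L N) (rep s) = mob A B C D (fN L N) (rep t) → s = t := by
  have hN0 : N ≠ 0 := by omega
  have hCD : -D ≠ 0 ∨ C ≠ 0 := by
    by_contra hc
    push Not at hc
    apply hdet
    rw [neg_eq_zero] at hc
    rw [hc.1, hc.2]; ring
  have hCD' : D ≠ 0 ∨ C ≠ 0 := by
    rcases hCD with h | h
    · left
      intro h'
      exact h (by rw [h', neg_zero])
    · exact Or.inr h
  apply birat_of (mob_mero (fN_mero hN0) A B C D) (mob_per (fN_per N) A B C D) hM
  intro κ hκ hper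
  have hof : ∀ t, (SN L).of N (cl L 0) (t + κ) = (SN L).of N (cl L 0) t := by
    intro t
    have h1 := period_oz (fN_mero hN0) (fN_ndeg hN) hdet hper (rep t)
    rw [fN, (SN L).f_oz hN0, (SN L).f_oz hN0, cl_add, cl_rep, cl_rep] at h1
    exact h1
  have h1 := (SN L).period_sym hN0 (cl L 0) (by rw [card_SN_Z, card_SN_W]; nlinarith) hof
  have h2 := Z_sym L h1
  have hind : ∀ t, ind (SN L).Z (SN L).W (t + N • κ) = ind (SN L).Z (SN L).W t := by
    intro t
    rcases h2 with h2 | h2
    · rw [h2, add_zero]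
    · rw [h2]
      by_cases c1 : t ∈ (SN L).Z
      · rw [ind_Z (SN L).disj c1, ind_Z (SN L).disj ((Z_tau L t).2 c1)]
      · by_cases c2 : t ∈ (SN L).W
        · rw [ind_W (SN L).disj c2, ind_W (SN L).disj ((W_tau L t).2 c2)]
        · rw [ind_none c1 c2, ind_none (fun h => c1 ((Z_tau L t).1 h))
            (fun h => c2 ((W_tau L t).1 h))]
  have h3 := Z_sym L ((SN L).period_sym' (cl L 0) hof hind)
  rcases h3 with h3 | h3
  · exact hκ h3
  · subst h3
    have hz := hper 0
    have hn := fN_ndeg (L := L) hN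
    have hm := fN_mero (L := L) hN0
    have e0 : ∀ᶠ w in 𝓝[≠] (0 : ℂ), lin (fN L N) 0 1 w ≠ 0 :=
      (meromorphicOrderAt_ne_top_iff_eventually_ne_zero (lin_mero hm _ _ 0)).1
        (hn 0 1 (Or.inr one_ne_zero) 0)
    have e1 : ∀ᶠ w in 𝓝[≠] (0 : ℂ), lin (fN L N) D C w ≠ 0 :=
      (meromorphicOrderAt_ne_top_iff_eventually_ne_zero (lin_mero hm _ _ 0)).1
        (hn D C hCD' 0)
    have e2 : ∀ᶠ w in 𝓝[≠] (0 : ℂ), lin (fN L N) (-D) C w ≠ 0 :=
      (meromorphicOrderAt_ne_top_iff_eventually_ne_zero (lin_mero hm _ _ 0)).1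
        (hn (-D) C hCD 0)
    obtain ⟨w, h0, h1, h2, hw⟩ := (e0.and (e1.and (e2.and hz))).exists
    simp only [lin, one_mul, sub_zero, sub_neg_eq_add] at h0 h1 h2
    change (A * fN L N (w + rep (tau L)) + B) / (C * fN L N (w + rep (tau L)) + D)
      = (A * fN L N w + B) / (C * fN L N w + D) at hw
    rw [fN_tau hev] at hw
    have h3 : C * -fN L N w + D ≠ 0 := by
      intro h
      apply h1
      linear_combination -h
    rw [div_eq_div_iff h3 h2] at hw
    have h5 : (2 * (A * D - B * C)) * fN L N w = 0 := by linear_combination -hw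
    rcases mul_eq_zero.1 h5 with h6 | h6
    · exact hdet ((mul_eq_zero.1 h6).resolve_left two_ne_zero)
    · exact h0 h6

end birat

section poly

variable {g : ℂ → ℂ} {F : Polynomial ℂ}

theorem vo_nonneg (hg : Meromorphic g) (hn : NDeg g) (q : ℂ) (z : ℂ) : 0 ≤ vo g q 1 z := by
  have h := valueOrder_eq hg hn z (q : OnePoint ℂ)
  have e : vo g q 1 z = vo g (hom (q : OnePoint ℂ)).1 (hom (q : OnePoint ℂ)).2 z := rfl
  rw [e, ← h]
  exact Int.natCast_nonneg _

theorem roots_card (hF : Squarefree F) : F.roots.toFinset.card = F.natDegree := by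
  rw [Multiset.toFinset_card_of_nodup
    (Polynomial.nodup_roots (PerfectField.separable_iff_squarefree.2 hF))]
  exact (IsAlgClosed.splits F).natDegree_eq_card_roots.symm

theorem order_poly (hg : Meromorphic g) (hn : NDeg g) (hF : Squarefree F) (z : ℂ) :
    meromorphicOrderAt (fun u => F.eval (g u)) z
      = ((∑ q ∈ F.roots.toFinset, vo g q 1 z - (F.natDegree : ℤ) * vo g 1 0 z : ℤ) : WithTop ℤ) := by
  classical
  have hF0 : F ≠ 0 := hF.ne_zero
  have hnd : F.roots.Nodup := Polynomial.nodup_roots (PerfectField.separable_iff_squarefree.2 hF)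
  have e : (fun u => F.eval (g u))
      = (fun _ => F.leadingCoeff) * ∏ q ∈ F.roots.toFinset, lin g q 1 := by
    funext u
    rw [(IsAlgClosed.splits F).eval_eq_prod_roots, Pi.mul_apply, Finset.prod_apply]
    congr 1
    rw [Finset.prod_eq_multiset_prod, Multiset.toFinset_val, hnd.dedup]
    congr 1
    apply Multiset.map_congr rfl
    intro q _
    simp [lin]
  have hm : ∀ q ∈ F.roots.toFinset, MeromorphicAt (lin g q 1) z := fun q _ => lin_mero hg q 1 z
  rw [e, meromorphicOrderAt_mul (MeromorphicAt.const _ _) (MeromorphicAt.prod hm),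
    meromorphicOrderAt_const, if_neg (Polynomial.leadingCoeff_ne_zero.2 hF0), zero_add,
    meromorphicOrderAt_prod hm]
  have h1 : ∀ q ∈ F.roots.toFinset, meromorphicOrderAt (lin g q 1) z
      = ((vo g q 1 z - vo g 1 0 z : ℤ) : WithTop ℤ) := by
    intro q _
    rw [oz_eq (hn q 1 (Or.inr one_ne_zero) z)]
    congr 1
    rw [vo_top, vo]
    ring
  rw [Finset.sum_congr rfl h1, ← roots_card hF]
  rw [← WithTop.coe_sum, Finset.sum_sub_distrib, Finset.sum_const, nsmul_eq_mul]

/-- at most one root is taken, and with multiplicity one -/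
theorem sum_vo_roots (hg : Meromorphic g) (hn : NDeg g) (R : Finset ℂ) (z : ℂ)
    (h1 : ∀ q ∈ R, vo g q 1 z ≤ 1) : ∑ q ∈ R, vo g q 1 z = 0 ∨ ∑ q ∈ R, vo g q 1 z = 1 := by
  classical
  by_cases h : ∃ q ∈ R, 0 < vo g q 1 z
  · obtain ⟨q, hq, hpos⟩ := h
    right
    rw [Finset.sum_eq_single q]
    · have := h1 q hq
      omega
    · intro q' _ hne
      by_contra hc
      have h2 := vo_nonneg hg hn q' z
      refine vo_unique hg hn z (p := q) (q := 1) (p' := q') (q' := 1) ?_ hpos (by omega)
      rw [mul_one, mul_one]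
      exact sub_ne_zero.2 (fun h => hne h.symm)
    · intro h2
      exact absurd hq h2
  · left
    push Not at h
    apply Finset.sum_eq_zero
    intro q hq
    have := h q hq
    have := vo_nonneg hg hn q z
    omega

theorem card_odd_poly (hg : Meromorphic g) (hper : ∀ z, ∀ l ∈ L.lattice, g (z + l) = g z)
    (hn : NDeg g) (hF : Squarefree F) (hev : Even F.natDegree)
    (h1 : ∀ q ∈ F.roots.toFinset, ∀ t : Torus L, vo g q 1 (rep t) ≤ 1) :
    (Nat.card {t : Torus L // Odd (meromorphicOrderAt (fun u => F.eval (g u)) (rep t)).untop₀} : ℤ)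
      = F.natDegree * ∑ᶠ t : Torus L, vo g 1 0 (rep t) := by
  classical
  set R := F.roots.toFinset with hR
  have hfin : ∀ q ∈ R, (Function.support (fun t : Torus L => vo g q 1 (rep t))).Finite :=
    fun q _ => vo_finite hg hper hn q 1 (Or.inr one_ne_zero)
  set H : Finset (Torus L) := (Set.Finite.biUnion R.finite_toSet hfin).toFinset with hH
  have hmemH : ∀ t : Torus L, t ∈ H ↔ ∃ q ∈ R, vo g q 1 (rep t) ≠ 0 := by
    intro t
    rw [hH, Set.Finite.mem_toFinset, Set.mem_iUnion₂]
    constructor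
    · rintro ⟨q, hq, h⟩
      exact ⟨q, hq, h⟩
    · rintro ⟨q, hq, h⟩
      exact ⟨q, hq, h⟩
  have e1 : (F.natDegree : ℤ) * ∑ᶠ t : Torus L, vo g 1 0 (rep t)
      = ∑ t ∈ H, ∑ q ∈ R, vo g q 1 (rep t) := by
    rw [Finset.sum_comm]
    have h2 : ∀ q ∈ R, ∑ t ∈ H, vo g q 1 (rep t) = ∑ᶠ t : Torus L, vo g 1 0 (rep t) := by
      intro q hq
      rw [← sum_vo hg hper hn q 1 (Or.inr one_ne_zero)]
      symm
      apply finsum_eq_sum_of_support_subset
      intro t ht
      rw [Finset.mem_coe, hmemH]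
      exact ⟨q, hq, ht⟩
    rw [Finset.sum_congr rfl h2, Finset.sum_const, nsmul_eq_mul, roots_card hF]
  have key : ∀ t : Torus L, (Odd (oz (fun u => F.eval (g u)) (rep t)) ↔
      ∑ q ∈ R, vo g q 1 (rep t) = 1) := by
    intro t
    rw [oz, order_poly hg hn hF, WithTop.untop₀_coe]
    have h3 := sum_vo_roots hg hn R (rep t) (fun q hq => h1 q hq t)
    have h4 : Even ((F.natDegree : ℤ) * vo g 1 0 (rep t)) :=
      (show Even (F.natDegree : ℤ) by exact_mod_cast hev).mul_right _
    rw [Int.odd_sub]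
    rcases h3 with h3 | h3
    · rw [← hR, h3]
      constructor
      · intro h
        exfalso
        exact (Int.not_odd_iff_even.2 h4) (by
          by_contra hc
          have := h.not.1
          simp at h
          exact (Int.not_even_iff_odd.2 h) h4)
      · intro h
        norm_num at h
    · rw [← hR, h3]
      constructor
      · intro _
        rfl
      · intro _
        constructor
        · intro _
          exact h4
        · intro _
          exact odd_one
  rw [e1]
  have e2 : ∑ t ∈ H, ∑ q ∈ R, vo g q 1 (rep t)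
      = ∑ t ∈ H, (if Odd (oz (fun u => F.eval (g u)) (rep t)) then 1 else 0 : ℤ) := by
    apply Finset.sum_congr rfl
    intro t _
    split_ifs with h
    · exact (key t).1 h
    · rcases sum_vo_roots hg hn R (rep t) (fun q hq => h1 q hq t) with h3 | h3
      · exact h3
      · exact absurd ((key t).2 h3) h
  rw [e2, Finset.sum_boole]
  have e3 : Nat.card {t : Torus L // Odd (meromorphicOrderAt (fun u => F.eval (g u)) (rep t)).untop₀}
      = (H.filter (fun t => Odd (oz (fun u => F.eval (g u)) (rep t)))).card := by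
    apply card_iff
    intro t
    rw [Finset.mem_filter]
    change Odd (oz (fun u => F.eval (g u)) (rep t)) ↔ _
    constructor
    · intro h
      refine ⟨?_, h⟩
      rw [hmemH]
      by_contra hc
      push Not at hc
      have h5 := (key t).1 h
      rw [Finset.sum_eq_zero hc] at h5
      norm_num at h5
    · exact fun h => h.2
  rw [e3]

theorem exists_odd_poly (hg : Meromorphic g) (hper : ∀ z, ∀ l ∈ L.lattice, g (z + l) = g z)
    (hn : NDeg g) (hF : Squarefree F) (hev : Even F.natDegree) (hF0 : F.natDegree ≠ 0)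
    (h1 : ∀ q ∈ F.roots.toFinset, ∀ t : Torus L, vo g q 1 (rep t) ≤ 1)
    (hpos : ∑ᶠ t : Torus L, vo g 1 0 (rep t) ≠ 0) :
    ∃ (z : ℂ) (n : ℤ), Odd n ∧ meromorphicOrderAt (fun u => F.eval (g u)) z = n := by
  have h2 := card_odd_poly hg hper hn hF hev h1
  have h3 : Nat.card {t : Torus L //
      Odd (meromorphicOrderAt (fun u => F.eval (g u)) (rep t)).untop₀} ≠ 0 := by
    intro h
    rw [h, Nat.cast_zero] at h2
    rcases mul_eq_zero.1 h2.symm with h4 | h4
    · exact hF0 (by exact_mod_cast h4)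
    · exact hpos h4
  obtain ⟨⟨t, ht⟩⟩ := (Nat.card_ne_zero.1 h3).1
  refine ⟨rep t, _, ht, ?_⟩
  rw [order_poly hg hn hF, WithTop.untop₀_coe]

end poly

end Pool.Agent.Y442.EC
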