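import Mathlib
import Pool.Agent.Y442.EC.DC2

/-!
Curves of large genus and large canonical degree: the final estimate.
-/

open Filter Topology
open H4EP H667R3 Pool.Agent.TH172.ER
open scoped OnePoint

noncomputable section

namespace Pool.Agent.Y442.EC

variable {L : PeriodPair}

/-- the unit `i` -/
abbrev uI : ℂˣ := Units.mk0 Complex.I Complex.I_ne_zero

theorem nn (a : ℂˣ) : a ≠ -a := by
  intro h
  have h1 : (a : ℂ) = -(a : ℂ) := by
    conv_lhs => rw [h]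
    exact Units.val_neg a
  have h2 : (2 : ℂ) * a = 0 := by linear_combination h1
  rcases mul_eq_zero.1 h2 with h3 | h3
  · norm_num at h3
  · exact a.ne_zero h3

/-- a lower bound for the sum of the multiplicities -/
theorem signed_sum (T : Finset ℂˣ) (hT : Set.InjOn (fun w : ℂˣ => (w : ℂ) ^ 2) (T : Set ℂˣ))
    (g : Torus L × ℂˣ → ℤ) (a : ℤ) (h1 : ∀ w ∈ T, a ≤ g (0, w)) (h2 : ∀ w ∈ T, a ≤ g (0, -w)) :
    (2 * T.card : ℕ) * a ≤ ∑ p ∈ signedPoints L T, g p := by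
  classical
  have h : ∑ p ∈ signedPoints L T, g p
      = ∑ w ∈ T ∪ T.image (fun w => -w), g (0, w) := by
    unfold signedPoints
    rw [Finset.sum_image]
    intro a _ b _ hab
    exact (Prod.ext_iff.1 hab).2
  have hd : Disjoint T (T.image (fun w => -w)) := by
    rw [Finset.disjoint_left]
    intro w hw h3
    obtain ⟨u, hu, huw⟩ := Finset.mem_image.1 h3
    have h4 : w = u := by
      apply hT hw hu
      change (w : ℂ) ^ 2 = (u : ℂ) ^ 2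
      rw [← huw, Units.val_neg, neg_sq]
    rw [h4] at huw
    exact nn u huw.symm
  rw [h, Finset.sum_union hd, Finset.sum_image (fun a _ b _ hab => neg_injective hab)]
  have k1 := Finset.card_nsmul_le_sum T (fun w => g (0, w)) a h1
  have k2 := Finset.card_nsmul_le_sum T (fun w => g (0, -w)) a h2
  rw [nsmul_eq_mul] at k1 k2
  push_cast
  linarith

theorem card_signed (T : Finset ℂˣ) (hT : Set.InjOn (fun w : ℂˣ => (w : ℂ) ^ 2) (T : Set ℂˣ)) :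
    (signedPoints L T).card = 2 * T.card := by
  classical
  have h1 := signed_sum (L := L) T hT (fun _ => 1) 1 (fun _ _ => le_refl _) (fun _ _ => le_refl _)
  rw [Finset.sum_const, nsmul_eq_mul, mul_one, mul_one] at h1
  have h2 : 2 * T.card ≤ (signedPoints L T).card := by exact_mod_cast h1
  refine le_antisymm ?_ h2
  unfold signedPoints
  refine Finset.card_image_le.trans ((Finset.card_union_le _ _).trans ?_)
  have := Finset.card_image_le (s := T) (f := fun w : ℂˣ => -w)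
  have e : (Finset.image (fun w : ℂˣ => -w) T).card ≤ T.card := this
  rw [two_mul]
  exact add_le_add_right e _

/-- the parameter `v` -/
def vr (ρ : ℂˣ) : ℂ := (1 - (ρ : ℂ) ^ 2) / (1 + (ρ : ℂ) ^ 2)

section rho

variable {ρ : ℂˣ} (hρ : (ρ : ℂ) ^ 4 ≠ 1)

include hρ

theorem hs' : 1 + (ρ : ℂ) ^ 2 ≠ 0 := by
  intro h
  apply hρ
  linear_combination ((ρ : ℂ) ^ 2 - 1) * h

theorem hd' : 1 - (ρ : ℂ) ^ 2 ≠ 0 := by
  intro h
  apply hρ
  linear_combination (-(ρ : ℂ) ^ 2 - 1) * h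

theorem vr_ne : vr ρ ≠ 0 := div_ne_zero (hd' hρ) (hs' hρ)

theorem vr_mul : vr ρ * (1 + (ρ : ℂ) ^ 2) = 1 - (ρ : ℂ) ^ 2 := by
  rw [vr, div_mul_cancel₀ _ (hs' hρ)]

theorem dc_data {N : ℕ} (hN : 4 ≤ N) (hev : Even N) (h1 : vr ρ ∉ CV L N) (h2 : -vr ρ ∉ CV L N)
    {m : ℕ} (hm : m ≠ 0) :
    ∃ (C : DoubleCurve L) (D : ℤ), (C.genus : ℤ) = 1 + D ∧ (C.sectionDegree : ℤ) = D ∧
      2 * (N : ℤ) ^ 2 - 2 ≤ D ∧ D ≤ 2 * (N : ℤ) ^ 2 + 2 ∧
      ∀ (w : ℂˣ) (S : Finset (Torus L)), (∀ t ∈ S, m • t = 0) →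
        (∀ t ∈ S, 0 < vo (rN L N (vr ρ)) ((w : ℂ) ^ 2) 1 (rep t)) → S.card ≤ C.mult (0, w) := by
  have hv := vr_ne hρ
  set v := vr ρ with hvd
  -- simple zeros and poles
  have g1 : ∀ t : Torus L, vo (rN L N v) 0 1 (rep t) ≤ 1 := by
    intro t
    rw [vo_r hN hv (p := v) (q := 1) (k := 2 * v) (Or.inr one_ne_zero)
      (mul_ne_zero two_ne_zero hv) (by ring) (by ring)]
    by_contra hc
    exact h1 ⟨t, by omega⟩
  have g2 : ∀ t : Torus L, vo (rN L N v) 1 0 (rep t) ≤ 1 := by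
    intro t
    rw [vo_r hN hv (p := -v) (q := 1) (k := -(2 * v)) (Or.inr one_ne_zero)
      (neg_ne_zero.2 (mul_ne_zero two_ne_zero hv)) (by ring) (by ring)]
    by_contra hc
    exact h2 ⟨t, by omega⟩
  have hle := sum_rN_le (L := L) hN hv
  have hge := le_sum_rN (L := L) hN hv
  have hodd := card_odd (rN_mero hN) rN_per (rN_ndeg hN hv) g1 g2
  set D := ∑ᶠ t : Torus L, vo (rN L N v) 1 0 (rep t) with hD
  have hN2 : (16 : ℤ) ≤ (N : ℤ) ^ 2 := by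
    have : (4 : ℤ) ≤ (N : ℤ) := by exact_mod_cast hN
    nlinarith
  have hr : ∃ (z : ℂ) (n : ℤ), Odd n ∧ meromorphicOrderAt (rN L N v) z = n :=
    exists_odd (rN_ndeg hN hv) g2 (by rw [← hD]; omega)
  refine ⟨dc L N v hN hev hv hr m hm, D, ?_, dc_section hN hev hv hr hm, hge, hle,
    fun w S hS1 hS2 => dc_mult hN hev hv hr hm w S hS1 hS2⟩
  have e : ((dc L N v hN hev hv hr m hm).genus : ℤ) = 1 + (Nat.card {t : Torus L //
      Odd (meromorphicOrderAt (rN L N v) (rep t)).untop₀} : ℤ) / 2 := by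
    change ((1 + Nat.card {t : Torus L //
      Odd (meromorphicOrderAt (rN L N v) (rep t)).untop₀} / 2 : ℕ) : ℤ) = _
    push_cast
    rfl
  rw [e, hodd]
  omega

/-- the values of `r` at the points where `f` takes the values `0`, `∞`, `1`, `-1` -/
theorem four_values {N : ℕ} (hN : 4 ≤ N) (w : ℂˣ)
    (hw : (w : ℂ) ^ 2 = 1 ∨ (w : ℂ) ^ 2 = -1 ∨ (w : ℂ) ^ 2 = (ρ : ℂ) ^ 2 ∨
      (w : ℂ) ^ 2 = ((ρ : ℂ) ^ 2)⁻¹) :
    ∃ S : Finset (Torus L), 2 * N ^ 2 ≤ S.card + 6 ∧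
      (∀ t ∈ S, (4 * (N * ((N - 1) * (N + 1)))) • t = 0) ∧
      ∀ t ∈ S, 0 < vo (rN L N (vr ρ)) ((w : ℂ) ^ 2) 1 (rep t) := by
  have x0 : (ρ : ℂ) ≠ 0 := ρ.ne_zero
  have hs := hs' hρ
  have hv := vr_ne hρ
  have hvv := vr_mul hρ
  rcases hw with hw | hw | hw | hw
  · obtain ⟨S, c, k, q⟩ := Si (L := L) hN
    refine ⟨S, by omega, k, fun t ht => ?_⟩
    rw [hw, vo_r hN hv (p := 1) (q := 0) (k := 1) (Or.inl one_ne_zero) one_ne_zero
      (by ring) (by ring)]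
    exact q t ht
  · obtain ⟨S, c, k, q⟩ := S0 (L := L) hN
    refine ⟨S, by omega, k, fun t ht => ?_⟩
    rw [hw, vo_r hN hv (p := 0) (q := 1) (k := vr ρ) (Or.inr one_ne_zero) hv (by ring) (by ring)]
    exact q t ht
  · obtain ⟨S, c, k, q⟩ := Spm (L := L) hN (x := 0) (κ := 1) (smul_zero _) (by
      intro t hb h
      rw [add_zero, add_zero] at h
      exact vo_one hN hb h)
    refine ⟨S, c, k, fun t ht => ?_⟩
    rw [hw, vo_r hN hv (p := 1) (q := 1) (k := 2 / (1 + (ρ : ℂ) ^ 2)) (Or.inr one_ne_zero)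
      (div_ne_zero two_ne_zero hs) (by
        field_simp
        linear_combination -hvv) (by
        field_simp
        linear_combination hvv)]
    exact q t ht
  · obtain ⟨S, c, k, q⟩ := Spm (L := L) hN (x := tau L) (κ := -1) (two_tau L)
      (fun t hb h => vo_neg_one hN hb h)
    refine ⟨S, c, k, fun t ht => ?_⟩
    rw [hw, vo_r hN hv (p := -1) (q := 1) (k := -(2 * (ρ : ℂ) ^ 2) / (1 + (ρ : ℂ) ^ 2))
      (Or.inr one_ne_zero) (div_ne_zero (neg_ne_zero.2 (mul_ne_zero two_ne_zero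
        (pow_ne_zero 2 x0))) hs) (by
        field_simp
        linear_combination -hvv) (by
        field_simp
        linear_combination hvv)]
    exact q t ht

theorem sq_ne : (1 : ℂ) ≠ -1 ∧ (1 : ℂ) ≠ (ρ : ℂ) ^ 2 ∧ (1 : ℂ) ≠ ((ρ : ℂ) ^ 2)⁻¹ ∧
    (-1 : ℂ) ≠ (ρ : ℂ) ^ 2 ∧ (-1 : ℂ) ≠ ((ρ : ℂ) ^ 2)⁻¹ ∧ (ρ : ℂ) ^ 2 ≠ ((ρ : ℂ) ^ 2)⁻¹ := by
  have x0 : (ρ : ℂ) ≠ 0 := ρ.ne_zero
  have s2 : (1 : ℂ) ≠ (ρ : ℂ) ^ 2 := by
    intro h
    apply hρ
    have : (ρ : ℂ) ^ 4 = ((ρ : ℂ) ^ 2) ^ 2 := by ring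
    rw [this, ← h]
    ring
  have s4 : (-1 : ℂ) ≠ (ρ : ℂ) ^ 2 := by
    intro h
    apply hρ
    have : (ρ : ℂ) ^ 4 = ((ρ : ℂ) ^ 2) ^ 2 := by ring
    rw [this, ← h]
    ring
  refine ⟨by norm_num, s2, ?_, s4, ?_, ?_⟩
  · intro h
    apply s2
    rw [← inv_inj, ← h, inv_one]
  · intro h
    apply s4
    rw [← inv_inj, ← h]
    norm_num
  · intro h
    apply hρ
    have h1 : (ρ : ℂ) ^ 2 * (ρ : ℂ) ^ 2 = 1 := by
      nth_rewrite 2 [h]
      exact mul_inv_cancel₀ (pow_ne_zero 2 x0)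
    linear_combination h1

end rho

theorem uI_sq : ((uI : ℂˣ) : ℂ) ^ 2 = -1 := by simp

theorem inv_sq' (ρ : ℂˣ) : ((ρ⁻¹ : ℂˣ) : ℂ) ^ 2 = ((ρ : ℂ) ^ 2)⁻¹ := by
  rw [Units.val_inv_eq_inv_val, inv_pow]

theorem neg_sq' (w : ℂˣ) : ((-w : ℂˣ) : ℂ) ^ 2 = (w : ℂ) ^ 2 := by rw [Units.val_neg, neg_sq]

/-- a set of units with distinct squares -/
theorem list_inj [DecidableEq ℂˣ] (l : List ℂˣ) (h : (l.map (fun w : ℂˣ => (w : ℂ) ^ 2)).Nodup) :
    Set.InjOn (fun w : ℂˣ => (w : ℂ) ^ 2) (l.toFinset : Set ℂˣ) ∧ l.toFinset.card = l.length := by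
  refine ⟨?_, List.toFinset_card_of_nodup h.of_map⟩
  intro a ha b hb hab
  rw [Finset.mem_coe, List.mem_toFinset] at ha hb
  exact List.inj_on_of_nodup_map h ha hb hab

open Classical in
theorem four_inj {ρ : ℂˣ} (hρ : (ρ : ℂ) ^ 4 ≠ 1) :
    Set.InjOn (fun w : ℂˣ => (w : ℂ) ^ 2) (({1, uI, ρ, ρ⁻¹} : Finset ℂˣ) : Set ℂˣ) ∧
      ({1, uI, ρ, ρ⁻¹} : Finset ℂˣ).card = 4 := by
  obtain ⟨s1, s2, s3, s4, s5, s6⟩ := sq_ne hρ
  have h := list_inj [1, uI, ρ, ρ⁻¹] (by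
    simp only [List.map_cons, List.map_nil, uI_sq, inv_sq', Units.val_one, one_pow]
    simp only [List.nodup_cons, List.mem_cons, List.not_mem_nil, or_false, not_or, not_false_eq_true,
      List.nodup_nil, and_true]
    exact ⟨⟨s1, s2, s3⟩, ⟨s4, s5⟩, s6⟩)
  have e : ([1, uI, ρ, ρ⁻¹] : List ℂˣ).toFinset = ({1, uI, ρ, ρ⁻¹} : Finset ℂˣ) := by
    ext x
    simp
  rw [e] at h
  exact h

/-- the bad parameters -/
def badρ (L : PeriodPair) : Set ℂˣ :=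
  {ρ | (ρ : ℂ) ^ 4 = 1} ∪ ⋃ n : ℕ, {ρ | vr ρ ∈ CV L (2 * n + 4) ∨ -vr ρ ∈ CV L (2 * n + 4)}

theorem fib_vr (v : ℂ) : {ρ : ℂˣ | (ρ : ℂ) ^ 4 ≠ 1 ∧ vr ρ = v}.Finite := by
  have h : {z : ℂ | (Polynomial.C (1 + v) * Polynomial.X ^ 2 - Polynomial.C (1 - v)).eval z = 0}.Finite := by
    have hp : (Polynomial.C (1 + v) * Polynomial.X ^ 2 - Polynomial.C (1 - v) : Polynomial ℂ) ≠ 0 := by
      intro h
      have h1 := congrArg (Polynomial.eval 0) h
      have h2 := congrArg (Polynomial.eval 1) h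
      simp at h1 h2
      rw [h2] at h1
      norm_num at h1
    refine (Polynomial.C (1 + v) * Polynomial.X ^ 2
      - Polynomial.C (1 - v) : Polynomial ℂ).roots.toFinset.finite_toSet.subset ?_
    intro z hz
    rw [Finset.mem_coe, Multiset.mem_toFinset, Polynomial.mem_roots hp]
    exact hz
  refine Set.Finite.of_finite_image (f := fun u : ℂˣ => (u : ℂ)) (h.subset ?_)
    (fun a _ b _ hab => Units.ext hab)
  rintro _ ⟨ρ, ⟨hρ, hv⟩, rfl⟩
  have hs : 1 + (ρ : ℂ) ^ 2 ≠ 0 := by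
    intro h
    apply hρ
    linear_combination ((ρ : ℂ) ^ 2 - 1) * h
  change (Polynomial.C (1 + v) * Polynomial.X ^ 2 - Polynomial.C (1 - v)).eval (ρ : ℂ) = 0
  rw [Polynomial.eval_sub, Polynomial.eval_mul, Polynomial.eval_C, Polynomial.eval_pow,
    Polynomial.eval_X, Polynomial.eval_C]
  rw [vr, div_eq_iff hs] at hv
  linear_combination -hv

theorem roots_countable (n : ℕ) (hn : n ≠ 0) : {ρ : ℂˣ | (ρ : ℂ) ^ n = 1}.Countable := by
  have h : {z : ℂ | z ^ n = 1}.Finite := by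
    have hp : (Polynomial.X ^ n - 1 : Polynomial ℂ) ≠ 0 := by
      intro h
      have := congrArg (Polynomial.eval 0) h
      simp [hn] at this
    refine (Polynomial.X ^ n - 1 : Polynomial ℂ).roots.toFinset.finite_toSet.subset ?_
    intro z hz
    rw [Finset.mem_coe, Multiset.mem_toFinset, Polynomial.mem_roots hp]
    change (Polynomial.X ^ n - 1 : Polynomial ℂ).eval z = 0
    rw [Polynomial.eval_sub, Polynomial.eval_pow, Polynomial.eval_X, Polynomial.eval_one, hz,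
      sub_self]
  have h2 : {ρ : ℂˣ | (ρ : ℂ) ^ n = 1}.Finite := by
    refine Set.Finite.of_finite_image (f := fun u : ℂˣ => (u : ℂ)) (h.subset ?_)
      (fun a _ b _ hab => Units.ext hab)
    rintro _ ⟨ρ, hρ, rfl⟩
    exact hρ
  exact h2.countable

theorem badρ_countable : (badρ L).Countable := by
  have hsub : badρ L ⊆ {ρ : ℂˣ | (ρ : ℂ) ^ 4 = 1} ∪ ⋃ n : ℕ,
      ((⋃ v ∈ CV L (2 * n + 4), {ρ : ℂˣ | (ρ : ℂ) ^ 4 ≠ 1 ∧ vr ρ = v}) ∪
      (⋃ v ∈ CV L (2 * n + 4), {ρ : ℂˣ | (ρ : ℂ) ^ 4 ≠ 1 ∧ vr ρ = -v})) := by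
    intro ρ hρ
    by_cases hc : (ρ : ℂ) ^ 4 = 1
    · exact Or.inl hc
    · right
      rcases hρ with h | h
      · exact absurd h hc
      · obtain ⟨n, hn⟩ := Set.mem_iUnion.1 h
        refine Set.mem_iUnion.2 ⟨n, ?_⟩
        rcases hn with hn | hn
        · exact Or.inl (Set.mem_iUnion₂.2 ⟨_, hn, hc, rfl⟩)
        · exact Or.inr (Set.mem_iUnion₂.2 ⟨_, hn, hc, (neg_neg _).symm⟩)
  refine Set.Countable.mono hsub ((roots_countable 4 (by norm_num)).union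
    (Set.countable_iUnion fun n => ?_))
  have hCV := CV_countable (L := L) (N := 2 * n + 4) (by omega)
  exact (hCV.biUnion fun v _ => (fib_vr v).countable).union
    (hCV.biUnion fun v _ => (fib_vr (-v)).countable)

theorem mpos {N : ℕ} (hN : 4 ≤ N) : 4 * (N * ((N - 1) * (N + 1))) ≠ 0 := by
  have : 0 < N - 1 := by omega
  positivity

theorem final_count {C : DoubleCurve L} {D : ℤ} {N : ℕ} (hg : (C.genus : ℤ) = 1 + D)
    (hs : (C.sectionDegree : ℤ) = D) (hD : D ≤ 2 * (N : ℤ) ^ 2 + 2) (T : Finset ℂˣ)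
    (hT : Set.InjOn (fun w : ℂˣ => (w : ℂ) ^ 2) (T : Set ℂˣ))
    (hw : ∀ w : ℂˣ, (w ∈ T ∨ -w ∈ T) → 2 * N ^ 2 ≤ C.mult (0, w) + 6)
    (S : Finset (Torus L × ℂˣ)) (hS : signedPoints L T ⊆ S) :
    (2 * (T.card : ℤ) - 2) * ((C.genus : ℤ) - 1) - 16 * T.card ≤ C.canonicalDegree S := by
  have h1 := signed_sum (L := L) T hT (fun p => (C.mult p : ℤ)) (2 * (N : ℤ) ^ 2 - 6) (by
      intro w hwT
      have : ((2 * N ^ 2 : ℕ) : ℤ) ≤ ((C.mult (0, w) + 6 : ℕ) : ℤ) := by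
        exact_mod_cast hw w (Or.inl hwT)
      push_cast at this
      linarith) (by
      intro w hwT
      have : ((2 * N ^ 2 : ℕ) : ℤ) ≤ ((C.mult (0, -w) + 6 : ℕ) : ℤ) := by
        exact_mod_cast hw (-w) (Or.inr (by rwa [neg_neg]))
      push_cast at this
      linarith)
  have hsub : ∑ p ∈ signedPoints L T, (C.mult p : ℤ) ≤ ∑ p ∈ S, (C.mult p : ℤ) :=
    Finset.sum_le_sum_of_subset_of_nonneg hS (fun p _ _ => Int.natCast_nonneg _)
  unfold DoubleCurve.canonicalDegree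
  rw [hs, hg]
  have hT0 : (0 : ℤ) ≤ (T.card : ℤ) := Int.natCast_nonneg _
  have h2 : (T.card : ℤ) * D ≤ (T.card : ℤ) * (2 * (N : ℤ) ^ 2 + 2) :=
    mul_le_mul_of_nonneg_left hD hT0
  push_cast at h1
  nlinarith

open Classical in
theorem exists_curves {ρ : ℂˣ} (hρ : ρ ∉ badρ L) (g₀ : ℕ) :
    ∃ C : DoubleCurve L, g₀ ≤ C.genus ∧ ∀ S, signedPoints L {1, uI, ρ, ρ⁻¹} ⊆ S →
      6 * ((C.genus : ℤ) - 1) - 64 ≤ C.canonicalDegree S := by
  rw [badρ, Set.mem_union, not_or, Set.mem_iUnion, not_exists] at hρ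
  have h := hρ.2 g₀
  rw [Set.mem_ofPred_eq, not_or] at h
  have hρ4 : (ρ : ℂ) ^ 4 ≠ 1 := hρ.1
  have hN : 4 ≤ 2 * g₀ + 4 := by omega
  obtain ⟨C, D, hg, hs, hD1, hD2, hC⟩ := dc_data hρ4 hN ⟨g₀ + 2, by ring⟩ h.1 h.2 (mpos hN)
  obtain ⟨hinj, hcard⟩ := four_inj hρ4
  refine ⟨C, ?_, fun S hS => ?_⟩
  · have : (g₀ : ℤ) ≤ (C.genus : ℤ) := by
      rw [hg]
      push_cast at hD1
      nlinarith
    exact_mod_cast this
  · have h3 := final_count (L := L) hg hs hD2 {1, uI, ρ, ρ⁻¹} hinj (by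
      intro w hw
      have hw' : (w : ℂ) ^ 2 = 1 ∨ (w : ℂ) ^ 2 = -1 ∨ (w : ℂ) ^ 2 = (ρ : ℂ) ^ 2 ∨
          (w : ℂ) ^ 2 = ((ρ : ℂ) ^ 2)⁻¹ := by
        have key : ∀ u : ℂˣ, u ∈ ({1, uI, ρ, ρ⁻¹} : Finset ℂˣ) → (u : ℂ) ^ 2 = 1 ∨
            (u : ℂ) ^ 2 = -1 ∨ (u : ℂ) ^ 2 = (ρ : ℂ) ^ 2 ∨ (u : ℂ) ^ 2 = ((ρ : ℂ) ^ 2)⁻¹ := by
          intro u hu
          simp only [Finset.mem_insert, Finset.mem_singleton] at hu
          rcases hu with rfl | rfl | rfl | rfl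
          · left; simp
          · right; left; exact uI_sq
          · right; right; left; rfl
          · right; right; right; exact inv_sq' _
        rcases hw with hw | hw
        · exact key w hw
        · have := key (-w) hw
          rwa [neg_sq'] at this
      obtain ⟨F, c, k, q⟩ := four_values (L := L) hρ4 hN w hw'
      have := hC w F k q
      omega) S hS
    rw [hcard] at h3
    norm_num at h3 ⊢
    exact h3

end Pool.Agent.Y442.EC
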