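import Mathlib
import Pool.Agent.Y442.EC.DC3

/-!
The square lattice: the function `h` satisfies `h(i u + 1/2) = i h(u)`.
-/

open Filter Topology
open H4EP H667R3 Pool.Agent.TH172.ER
open scoped OnePoint
open Complex (I)

noncomputable section

namespace Pool.Agent.Y442.EC

/-- The lattice `ℤ + ℤ i`, with the basis `1 + i`, `- i`. -/
def gaussPair : PeriodPair where
  ω₁ := 1 + I
  ω₂ := -I
  indep := by
    rw [LinearIndependent.pair_iff]
    intro s t h
    simp only [Complex.real_smul] at h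
    have h1 : (s : ℂ) + ((s : ℂ) - t) * I = 0 := by linear_combination h
    have hr := congrArg Complex.re h1
    have hi := congrArg Complex.im h1
    simp at hr hi
    constructor
    · exact hr
    · rw [hr] at hi
      linarith

theorem g1 : gaussPair.ω₁ = 1 + I := rfl
theorem g2 : gaussPair.ω₂ = -I := rfl

theorem mem_g {z : ℂ} : z ∈ gaussPair.lattice ↔ ∃ m n : ℤ, (m : ℂ) + n * I = z := by
  rw [PeriodPair.mem_lattice, g1, g2]
  constructor
  · rintro ⟨p, q, h⟩
    exact ⟨p, p - q, by rw [← h]; push_cast; ring⟩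
  · rintro ⟨m, n, h⟩
    exact ⟨m, m - n, by rw [← h]; push_cast; ring⟩

theorem CM_g : CM gaussPair := by
  intro l hl
  rw [mem_g] at hl ⊢
  obtain ⟨m, n, rfl⟩ := hl
  refine ⟨-n, m, ?_⟩
  push_cast
  linear_combination (n : ℂ) * Complex.I_mul_I * (-1)

theorem one_mem_g : (1 : ℂ) ∈ gaussPair.lattice := mem_g.2 ⟨1, 0, by push_cast; ring⟩

theorem I_mem_g : I ∈ gaussPair.lattice := mem_g.2 ⟨0, 1, by push_cast; ring⟩

theorem int_mul_g {l : ℂ} (hl : l ∈ gaussPair.lattice) (m n : ℤ) :
    ((m : ℂ) + n * I) * l ∈ gaussPair.lattice := by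
  have h1 := intCast_mul_mem gaussPair hl m
  have h2 := intCast_mul_mem gaussPair (CM_g l hl) n
  have e : ((m : ℂ) + n * I) * l = (m : ℂ) * l + (n : ℂ) * (I * l) := by ring
  rw [e]
  exact add_mem h1 h2

/-- the function -/
abbrev G := SN gaussPair

theorem Ia : I * pa gaussPair = pa gaussPair - 1 / 2 := by
  rw [pa, g1, g2]
  push_cast
  linear_combination (1 / 4) * Complex.I_mul_I

theorem Ib : I * pb gaussPair = 1 / 2 - pb gaussPair := by
  rw [pb, g1, g2]
  push_cast
  linear_combination (-1 / 4) * Complex.I_mul_I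

theorem G_const : ∃ c : ℂ, ∀ u, G.h (I * u + 1 / 2) = c * G.h u := by
  obtain ⟨C, hC, h⟩ := sigma_add_coe gaussPair one_mem_g
  set e := eta gaussPair 1
  set a := pa gaussPair with ha
  set b := pb gaussPair with hb
  have hI := fun z => sigma_I_mul (L := gaussPair) CM_g z
  have Ia' : I * a = a - 1 / 2 := Ia
  have Ib' : I * b = 1 / 2 - b := Ib
  refine ⟨Complex.exp (e * (I * (a + b))), fun u => ?_⟩
  rw [SN_h, SN_h]
  have e1 : I * u + 1 / 2 - a = I * (u - a) := by linear_combination Ia'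
  have e2 : I * u + 1 / 2 + a = I * (u + a) + 1 := by linear_combination -Ia'
  have e3 : I * u + 1 / 2 - b = I * (u + b) := by linear_combination -Ib'
  have e4 : I * u + 1 / 2 + b = I * (u - b) + 1 := by linear_combination Ib'
  rw [← ha, ← hb, e1, e2, e3, e4, h, h, hI, hI, hI, hI]
  have hE : Complex.exp (e * (I * (u + a)))
      = Complex.exp (e * (I * (a + b))) * Complex.exp (e * (I * (u - b))) := by
    rw [← Complex.exp_add]
    congr 1
    ring
  rw [hE]
  have x1 := Complex.exp_ne_zero (e * (I * (u - b)))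
  have hII := Complex.I_ne_zero
  set X1 := Complex.exp (e * (I * (u - b)))
  set X2 := Complex.exp (e * (I * (a + b)))
  set s1 := sigma gaussPair (u - a)
  set s2 := sigma gaussPair (u + a)
  set s3 := sigma gaussPair (u - b)
  set s4 := sigma gaussPair (u + b)
  have e5 : I * s1 * (C * (X2 * X1) * (I * s2)) = (I * I * C * X1 * X2) * (s1 * s2) := by ring
  have e6 : I * s4 * (C * X1 * (I * s3)) = (I * I * C * X1) * (s3 * s4) := by ring
  rw [e5, e6, mul_div_mul_comm]
  congr 1
  have hne : I * I * C * X1 ≠ 0 := mul_ne_zero (mul_ne_zero (mul_ne_zero hII hII) hC) x1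
  exact mul_div_cancel_left₀ X2 hne

/-- `h(i u + 1/2) = i h(u)` -/
theorem G_shift (u : ℂ) : G.h (I * u + 1 / 2) = I * G.h u := by
  obtain ⟨c, hc⟩ := G_const
  have hW : cl gaussPair (pa gaussPair) ∉ G.W := by
    intro h
    exact Finset.disjoint_left.1 G.disj ((mem_SN_Z gaussPair _).2 (Or.inl rfl)) h
  have hana := G.ana (pa gaussPair) hW
  have hZ : cl gaussPair (pa gaussPair) ∈ G.Z := (mem_SN_Z gaussPair _).2 (Or.inl rfl)
  have hord : meromorphicOrderAt G.h (pa gaussPair) = ((1 : ℤ) : WithTop ℤ) := by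
    rw [G.ord, ind_Z G.disj hZ]
  have hd : deriv G.h (pa gaussPair) ≠ 0 := by
    have h1 : meromorphicOrderAt (deriv G.h) (pa gaussPair) = ((0 : ℤ) : WithTop ℤ) :=
      meromorphicOrderAt_deriv_eq_sub_one (f := G.h) (x := pa gaussPair) (n := 1)
        (by norm_num) hord
    intro h0
    have h2 := hana.deriv.meromorphicOrderAt_eq
    rw [h1] at h2
    have h3 : analyticOrderAt (deriv G.h) (pa gaussPair) ≠ 0 := by
      rw [hana.deriv.analyticOrderAt_ne_zero]
      exact h0
    rcases hh : analyticOrderAt (deriv G.h) (pa gaussPair) with _ | n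
    · rw [hh] at h2
      exact absurd h2 (WithTop.coe_ne_top)
    · rw [hh] at h2 h3
      have hn : n ≠ 0 := by
        rintro rfl
        exact h3 rfl
      have h5 : ((0 : ℤ) : WithTop ℤ) = ((n : ℤ) : WithTop ℤ) := h2
      exact hn (by exact_mod_cast h5.symm)
  have hG : ∀ v : ℂ, G.h (pa gaussPair + I * v) = c * G.h (pa gaussPair + v) := by
    intro v
    rw [← hc]
    congr 1
    linear_combination -Ia
  have hdiff : HasDerivAt G.h (deriv G.h (pa gaussPair)) (pa gaussPair) :=
    hana.differentiableAt.hasDerivAt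
  have h1 : HasDerivAt (fun v : ℂ => G.h (pa gaussPair + I * v)) (deriv G.h (pa gaussPair) * I) 0 := by
    have e : HasDerivAt (fun v : ℂ => pa gaussPair + I * v) I 0 := by
      simpa using ((hasDerivAt_id (0 : ℂ)).const_mul I).const_add (pa gaussPair)
    have h2 : HasDerivAt G.h (deriv G.h (pa gaussPair)) (pa gaussPair + I * 0) := by
      rw [mul_zero, add_zero]; exact hdiff
    exact h2.comp (0 : ℂ) e
  have h2 : HasDerivAt (fun v : ℂ => c * G.h (pa gaussPair + v)) (c * deriv G.h (pa gaussPair)) 0 := by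
    have e : HasDerivAt (fun v : ℂ => pa gaussPair + v) 1 0 := by
      simpa using (hasDerivAt_id (0 : ℂ)).const_add (pa gaussPair)
    have h2 : HasDerivAt G.h (deriv G.h (pa gaussPair)) (pa gaussPair + 0) := by
      rw [add_zero]; exact hdiff
    have h3 := (h2.comp (0 : ℂ) e).const_mul c
    refine h3.congr_deriv ?_
    ring
  have h3 : (fun v : ℂ => G.h (pa gaussPair + I * v)) = fun v : ℂ => c * G.h (pa gaussPair + v) :=
    funext hG
  rw [h3] at h1
  have h4 := h1.unique h2
  have h5 : c = I := by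
    have : (I - c) * deriv G.h (pa gaussPair) = 0 := by linear_combination h4
    rcases mul_eq_zero.1 this with h | h
    · linear_combination -h
    · exact absurd h hd
  rw [hc, h5]

theorem ind_shift (u : ℂ) : ind G.Z G.W (cl gaussPair (I * u + 1 / 2))
    = ind G.Z G.W (cl gaussPair u) := by
  classical
  have hg : AnalyticAt ℂ (fun z : ℂ => I * z + 1 / 2) u := by fun_prop
  have hd : deriv (fun z : ℂ => I * z + 1 / 2) u ≠ 0 := by
    have : HasDerivAt (fun z : ℂ => I * z + 1 / 2) (I * 1) u :=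
      ((hasDerivAt_id u).const_mul I).add_const _
    rw [this.deriv, mul_one]
    exact Complex.I_ne_zero
  have h1 : meromorphicOrderAt (G.h ∘ fun z : ℂ => I * z + 1 / 2) u
      = ((ind G.Z G.W (cl gaussPair (I * u + 1 / 2)) : ℤ) : WithTop ℤ) := by
    rw [meromorphicOrderAt_comp_of_deriv_ne_zero hg hd, G.ord]
  have h2 : (G.h ∘ fun z : ℂ => I * z + 1 / 2) = (fun _ => I) * G.h := by
    funext z
    exact G_shift z
  rw [h2, meromorphicOrderAt_mul (MeromorphicAt.const _ _) (G.mero u), meromorphicOrderAt_const,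
    if_neg Complex.I_ne_zero, zero_add, G.ord] at h1
  exact_mod_cast h1.symm

theorem ind_zero {Z W : Finset (Torus gaussPair)} (h : Disjoint Z W) {t : Torus gaussPair}
    (h0 : ind Z W t = 0) : t ∉ Z ∧ t ∉ W := by
  constructor
  · intro ht
    rw [ind_Z h ht] at h0
    norm_num at h0
  · intro ht
    rw [ind_W h ht] at h0
    norm_num at h0

/-- points with `h (N t) = κ h(t)` -/
theorem vo_gen {N : ℕ} (hN : 4 ≤ N) {t : Torus gaussPair} (hb : t ∉ G.bad (cl gaussPair 0))
    {κ s : ℂ} (hs : N • t = cl gaussPair s) (hz : cl gaussPair s ∉ G.Z ∧ cl gaussPair s ∉ G.W)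
    (hv : G.h s = κ * G.h (rep t)) : 0 < vo (fN gaussPair N) κ 1 (rep t) := by
  apply G.vo_val (by omega) 0 (fN_ndeg hN) hb
  · rw [hs]; exact hz.1
  · rw [hs]; exact hz.2
  · rw [add_zero, ← hv]
    apply G.per'
    rw [cl_nmul, cl_rep, hs]

theorem s1_not {u : ℂ} (h1 : cl gaussPair u ∉ G.Z) (h2 : cl gaussPair u ∉ G.W) :
    cl gaussPair (I * u + 1 / 2) ∉ G.Z ∧ cl gaussPair (I * u + 1 / 2) ∉ G.W :=
  ind_zero G.disj (by rw [ind_shift, ind_none h1 h2])

/-- the points `cl ((j + x) / α)`, `j = 0, ..., N²` -/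
def grid (N : ℕ) (x α : ℂ) : Finset (Torus gaussPair) :=
  open Classical in
  (Finset.range (N ^ 2 + 1)).image (fun j : ℕ => cl gaussPair (((j : ℂ) + x) / α))

theorem grid_card {N : ℕ} (x : ℂ) {α : ℂ} (β : ℤ) (hβ : β ^ 2 = 1)
    (hα : α * ((N : ℂ) + β * I) = ((N ^ 2 + 1 : ℕ) : ℂ)) : (grid N x α).card = N ^ 2 + 1 := by
  classical
  unfold grid
  rw [Finset.card_image_of_injOn, Finset.card_range]
  intro j hj j' hj' h
  simp only [Finset.coe_range, Set.mem_Iio] at hj hj'
  simp only at h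
  rw [cl_eq, mem_g] at h
  obtain ⟨m, n, h⟩ := h
  obtain ⟨K, hK⟩ : ∃ K : ℕ, K = N ^ 2 + 1 := ⟨_, rfl⟩
  rw [← hK] at hα hj hj'
  have hn : (K : ℂ) ≠ 0 := Nat.cast_ne_zero.2 (by rw [hK]; exact Nat.succ_ne_zero _)
  have hα0 : α ≠ 0 := by
    intro h0
    rw [h0, zero_mul] at hα
    exact hn hα.symm
  have h1 : ((j : ℂ) - j') * ((N : ℂ) + β * I) = ((m : ℂ) + n * I) * (K : ℂ) := by
    rw [h, ← hα]
    field_simp
    ring
  have hr := congrArg Complex.im h1
  have h2 : ((j : ℤ) - j') * β = n * (K : ℤ) := by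
    have : (((j : ℂ) - j') * ((N : ℂ) + β * I)).im = ((j : ℝ) - j') * β := by
      simp [Complex.mul_im]
    rw [this] at hr
    have h3 : (((m : ℂ) + n * I) * (K : ℂ)).im = n * (K : ℝ) := by
      simp [Complex.mul_im]
    rw [h3] at hr
    exact_mod_cast hr
  have h3 : (K : ℤ) ∣ ((j : ℤ) - j') := by
    refine ⟨n * β, ?_⟩
    have : ((j : ℤ) - j') = (((j : ℤ) - j') * β) * β := by
      rw [mul_assoc, ← pow_two, hβ, mul_one]
    rw [this, h2]
    ring
  have h4 := Int.eq_zero_of_abs_lt_dvd h3 (by rw [abs_lt]; constructor <;> omega)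
  omega

end Pool.Agent.Y442.EC
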