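import Mathlib
import Pool.Agent.Y442.EC.SG

/-!
The square lattice: two more special values, and the final estimate.
-/

open Filter Topology
open H4EP H667R3 Pool.Agent.TH172.ER
open scoped OnePoint
open Complex (I)

noncomputable section

namespace Pool.Agent.Y442.EC

theorem hαA (N : ℕ) : ((N : ℂ) - I) * ((N : ℂ) + ((1 : ℤ) : ℂ) * I) = ((N ^ 2 + 1 : ℕ) : ℂ) := by
  push_cast
  linear_combination -Complex.I_mul_I

theorem hαB (N : ℕ) : ((N : ℂ) + I) * ((N : ℂ) + ((-1 : ℤ) : ℂ) * I) = ((N ^ 2 + 1 : ℕ) : ℂ) := by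
  push_cast
  linear_combination -Complex.I_mul_I

theorem ne_of_mul {N : ℕ} {α β : ℂ} (h : α * β = ((N ^ 2 + 1 : ℕ) : ℂ)) : α ≠ 0 := by
  intro h0
  rw [h0, zero_mul] at h
  exact (Nat.cast_ne_zero.2 (Nat.succ_ne_zero _)) h.symm

theorem mem_grid {N : ℕ} {x α : ℂ} (hα : α ≠ 0) {t : Torus gaussPair} (ht : t ∈ grid N x α) :
    ∃ (z : ℂ) (j : ℕ), cl gaussPair z = t ∧ α * z = j + x := by
  classical
  unfold grid at ht
  obtain ⟨j, -, hj⟩ := Finset.mem_image.1 ht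
  exact ⟨_, j, hj, by field_simp⟩

theorem nat_mem_g (j : ℕ) : (j : ℂ) ∈ gaussPair.lattice := mem_g.2 ⟨j, 0, by push_cast; ring⟩

theorem gridA {N : ℕ} {x : ℂ} {t : Torus gaussPair} (ht : t ∈ grid N x ((N : ℂ) - I)) :
    N • t = cl gaussPair (I * rep t + x) := by
  obtain ⟨z, j, hz, hj⟩ := mem_grid (ne_of_mul (hαA N)) ht
  rw [← hz, ← cl_nmul, hz, cl_eq]
  have h1 : z - rep t ∈ gaussPair.lattice := by
    rw [← cl_eq, hz, cl_rep]
  have h2 := add_mem (nat_mem_g j) (CM_g _ h1)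
  have e : (j : ℂ) + I * (z - rep t) = (N : ℂ) * z - (I * rep t + x) := by
    linear_combination -hj
  rwa [e] at h2

theorem gridB {N : ℕ} {x : ℂ} {t : Torus gaussPair} (ht : t ∈ grid N x ((N : ℂ) + I)) :
    N • t = cl gaussPair (-(I * rep t) + x) := by
  obtain ⟨z, j, hz, hj⟩ := mem_grid (ne_of_mul (hαB N)) ht
  rw [← hz, ← cl_nmul, hz, cl_eq]
  have h1 : z - rep t ∈ gaussPair.lattice := by
    rw [← cl_eq, hz, cl_rep]
  have h2 := sub_mem (nat_mem_g j) (CM_g _ h1)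
  have e : (j : ℂ) - I * (z - rep t) = (N : ℂ) * z - (-(I * rep t) + x) := by
    linear_combination -hj
  rwa [e] at h2

theorem grid_kill {N : ℕ} {x α : ℂ} (β : ℤ) (hα : α * ((N : ℂ) + β * I) = ((N ^ 2 + 1 : ℕ) : ℂ))
    (hx : 2 * x ∈ gaussPair.lattice) {t : Torus gaussPair} (ht : t ∈ grid N x α) :
    (2 * (N ^ 2 + 1)) • t = 0 := by
  obtain ⟨z, j, hz, hj⟩ := mem_grid (ne_of_mul hα) ht
  rw [← hz, ← cl_nmul, cl_eq_zero]
  have h1 : (2 * (j : ℂ) + 2 * x) ∈ gaussPair.lattice := by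
    have h2 := add_mem (add_mem (nat_mem_g j) (nat_mem_g j)) hx
    have e : (j : ℂ) + j + 2 * x = 2 * (j : ℂ) + 2 * x := by ring
    rwa [e] at h2
  have h3 := int_mul_g h1 (N : ℤ) β
  have e : (((N : ℤ) : ℂ) + β * I) * (2 * (j : ℂ) + 2 * x)
      = ((2 * (N ^ 2 + 1) : ℕ) : ℂ) * z := by
    have e2 : ((2 * (N ^ 2 + 1) : ℕ) : ℂ) = 2 * ((N ^ 2 + 1 : ℕ) : ℂ) := by push_cast; ring
    rw [e2, ← hα]
    have e3 : ((N : ℤ) : ℂ) = (N : ℂ) := by push_cast; rfl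
    rw [e3]
    linear_combination (-2 * ((N : ℂ) + β * I)) * hj
  rwa [e] at h3

theorem Sgauss {N : ℕ} (_hN : 4 ≤ N) {x κ : ℂ} (h2x : 2 * x ∈ gaussPair.lattice)
    (hκ : ∀ t : Torus gaussPair, t ∉ G.bad (cl gaussPair 0) →
      (N • t = cl gaussPair (I * rep t + x) ∨ N • t = cl gaussPair (-(I * rep t) + (x - 1))) →
      0 < vo (fN gaussPair N) κ 1 (rep t)) :
    ∃ S : Finset (Torus gaussPair), 2 * N ^ 2 ≤ S.card + 6 ∧
      (∀ t ∈ S, (2 * (N ^ 2 + 1)) • t = 0) ∧ ∀ t ∈ S, 0 < vo (fN gaussPair N) κ 1 (rep t) := by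
  classical
  set A := grid N x ((N : ℂ) - I) with hA
  set B := grid N (x - 1) ((N : ℂ) + I) with hB
  have h2x' : 2 * (x - 1) ∈ gaussPair.lattice := by
    have h1 := sub_mem h2x (add_mem one_mem_g one_mem_g)
    have e : 2 * x - (1 + 1) = 2 * (x - 1) := by ring
    rwa [e] at h1
  have cA : A.card = N ^ 2 + 1 := grid_card x 1 (by norm_num) (hαA N)
  have cB : B.card = N ^ 2 + 1 := grid_card (x - 1) (-1) (by norm_num) (hαB N)
  have cAB : (A ∩ B).card ≤ 4 := by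
    have h3 : A ∩ B ⊆ fib 2 0 := by
      intro t ht
      rw [Finset.mem_inter] at ht
      rw [mem_fib (by norm_num)]
      have h1 := gridA ht.1
      rw [gridB ht.2, cl_eq] at h1
      have h2 := sub_mem (neg_mem h1) one_mem_g
      have e : -(-(I * rep t) + (x - 1) - (I * rep t + x)) - 1 = I * (2 * rep t) := by ring
      rw [e, I_mul_mem_iff CM_g] at h2
      rw [← cl_rep t, ← cl_nmul, cl_eq_zero]
      exact_mod_cast h2
    refine (Finset.card_le_card h3).trans ?_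
    rw [card_fib (by norm_num)]
    norm_num
  refine ⟨(A ∪ B) \ G.bad (cl gaussPair 0), ?_, ?_, ?_⟩
  · have h1 := Finset.card_union_add_card_inter A B
    have h5 := Finset.le_card_sdiff (G.bad (cl gaussPair 0)) (A ∪ B)
    have h6 := G.card_bad (cl gaussPair 0)
    rw [card_SN_Z, card_SN_W] at h6
    omega
  · intro t ht
    rw [Finset.mem_sdiff, Finset.mem_union] at ht
    rcases ht.1 with h | h
    · exact grid_kill 1 (hαA N) h2x h
    · exact grid_kill (-1) (hαB N) h2x' h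
  · intro t ht
    rw [Finset.mem_sdiff, Finset.mem_union] at ht
    apply hκ t ht.2
    rcases ht.1 with h | h
    · exact Or.inl (gridA h)
    · exact Or.inr (gridB h)

theorem Splus {N : ℕ} (hN : 4 ≤ N) : ∃ S : Finset (Torus gaussPair), 2 * N ^ 2 ≤ S.card + 6 ∧
    (∀ t ∈ S, (2 * (N ^ 2 + 1)) • t = 0) ∧ ∀ t ∈ S, 0 < vo (fN gaussPair N) I 1 (rep t) := by
  apply Sgauss hN (x := 1 / 2)
  · have e : (2 : ℂ) * (1 / 2) = 1 := by norm_num
    rw [e]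
    exact one_mem_g
  · intro t hb ht
    obtain ⟨h1, h2⟩ := not_bad hb
    have h3 := s1_not (u := rep t) (by rwa [cl_rep]) (by rwa [cl_rep])
    rcases ht with h | h
    · exact vo_gen hN hb h h3 (G_shift _)
    · have e : -(I * rep t) + ((1 : ℂ) / 2 - 1) = -(I * rep t + 1 / 2) := by ring
      rw [e] at h
      refine vo_gen hN hb h ?_ ?_
      · rw [cl_neg, Z_neg, W_neg]
        exact h3
      · rw [SN_even, G_shift]

theorem Sminus {N : ℕ} (hN : 4 ≤ N) : ∃ S : Finset (Torus gaussPair), 2 * N ^ 2 ≤ S.card + 6 ∧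
    (∀ t ∈ S, (2 * (N ^ 2 + 1)) • t = 0) ∧ ∀ t ∈ S, 0 < vo (fN gaussPair N) (-I) 1 (rep t) := by
  apply Sgauss hN (x := 1 / 2 + gaussPair.ω₁ / 2)
  · have e : (2 : ℂ) * (1 / 2 + gaussPair.ω₁ / 2) = 1 + gaussPair.ω₁ := by ring
    rw [e]
    exact add_mem one_mem_g gaussPair.ω₁_mem_lattice
  · intro t hb ht
    obtain ⟨h1, h2⟩ := not_bad hb
    have h3 := s1_not (u := rep t) (by rwa [cl_rep]) (by rwa [cl_rep])
    rcases ht with h | h
    · have e : I * rep t + (1 / 2 + gaussPair.ω₁ / 2) = (I * rep t + 1 / 2) + gaussPair.ω₁ / 2 := by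
        ring
      rw [e] at h
      refine vo_gen hN hb h ?_ ?_
      · rw [cl_add]
        change cl gaussPair (I * rep t + 1 / 2) + tau gaussPair ∉ G.Z ∧
          cl gaussPair (I * rep t + 1 / 2) + tau gaussPair ∉ G.W
        rw [Z_tau, W_tau]
        exact h3
      · rw [SN_shift, G_shift]
        ring
    · have e : -(I * rep t) + ((1 : ℂ) / 2 + gaussPair.ω₁ / 2 - 1)
          = -(I * rep t + 1 / 2) + gaussPair.ω₁ / 2 := by ring
      rw [e] at h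
      refine vo_gen hN hb h ?_ ?_
      · rw [cl_add]
        change cl gaussPair (-(I * rep t + 1 / 2)) + tau gaussPair ∉ G.Z ∧
          cl gaussPair (-(I * rep t + 1 / 2)) + tau gaussPair ∉ G.W
        rw [Z_tau, W_tau, cl_neg, Z_neg, W_neg]
        exact h3
      · rw [SN_shift, SN_even, G_shift]
        ring

section

variable {ρ σ : ℂˣ} (hρ : (ρ : ℂ) ^ 4 ≠ 1)
  (hσ : (σ : ℂ) ^ 2 * (1 + I * (ρ : ℂ) ^ 2) = (ρ : ℂ) ^ 2 + I)

include hσ

theorem sden : 1 + I * (ρ : ℂ) ^ 2 ≠ 0 := by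
  intro h
  rw [h, mul_zero] at hσ
  have h1 : (2 : ℂ) = 0 := by linear_combination h + I * hσ + Complex.I_mul_I
  norm_num at h1

theorem snum : (ρ : ℂ) ^ 2 + I ≠ 0 := by
  rw [← hσ]
  exact mul_ne_zero (pow_ne_zero 2 σ.ne_zero) (sden hσ)

include hρ

theorem two_values {N : ℕ} (hN : 4 ≤ N) (w : ℂˣ)
    (hw : (w : ℂ) ^ 2 = (σ : ℂ) ^ 2 ∨ (w : ℂ) ^ 2 = ((σ : ℂ) ^ 2)⁻¹) :
    ∃ S : Finset (Torus gaussPair), 2 * N ^ 2 ≤ S.card + 6 ∧
      (∀ t ∈ S, (2 * (N ^ 2 + 1)) • t = 0) ∧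
      ∀ t ∈ S, 0 < vo (rN gaussPair N (vr ρ)) ((w : ℂ) ^ 2) 1 (rep t) := by
  have hs := hs' hρ
  have hv := vr_ne hρ
  have hvv := vr_mul hρ
  have hd := sden hσ
  have hn := snum hσ
  have x0 : (σ : ℂ) ^ 2 ≠ 0 := pow_ne_zero 2 σ.ne_zero
  have h1I : (1 : ℂ) + I ≠ 0 := by
    intro h
    have := congrArg Complex.re h
    simp at this
  have k1 : (I + vr ρ) * (1 + (ρ : ℂ) ^ 2) = (1 + I) * (1 + I * (ρ : ℂ) ^ 2) := by
    linear_combination hvv - (ρ : ℂ) ^ 2 * Complex.I_mul_I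
  have k2 : (I - vr ρ) * (1 + (ρ : ℂ) ^ 2) = (1 + I) * ((ρ : ℂ) ^ 2 + I) := by
    linear_combination -hvv - Complex.I_mul_I
  have n1 : I + vr ρ ≠ 0 := by
    intro h
    rw [h, zero_mul] at k1
    exact (mul_ne_zero h1I hd) k1.symm
  have n2 : I - vr ρ ≠ 0 := by
    intro h
    rw [h, zero_mul] at k2
    exact (mul_ne_zero h1I hn) k2.symm
  have k3 : I - vr ρ = (I + vr ρ) * (σ : ℂ) ^ 2 := by
    apply mul_right_cancel₀ hs
    rw [k2, ← hσ]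
    linear_combination (-(σ : ℂ) ^ 2) * k1
  rcases hw with hw | hw
  · obtain ⟨S, c, k, q⟩ := Splus hN
    refine ⟨S, c, k, fun t ht => ?_⟩
    rw [hw, vo_r hN hv (p := I) (q := 1) (k := I + vr ρ) (Or.inr one_ne_zero) n1
      (by rw [mul_one]; exact k3) (by ring)]
    exact q t ht
  · obtain ⟨S, c, k, q⟩ := Sminus hN
    refine ⟨S, c, k, fun t ht => ?_⟩
    rw [hw, vo_r hN hv (p := -I) (q := 1) (k := -(I - vr ρ)) (Or.inr one_ne_zero)
      (neg_ne_zero.2 n2) (by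
        rw [k3]
        field_simp
        ring) (by ring)]
    exact q t ht

open Classical in
theorem six_inj :
    Set.InjOn (fun w : ℂˣ => (w : ℂ) ^ 2) (({1, uI, ρ, ρ⁻¹, σ, σ⁻¹} : Finset ℂˣ) : Set ℂˣ) ∧
      ({1, uI, ρ, ρ⁻¹, σ, σ⁻¹} : Finset ℂˣ).card = 6 := by
  obtain ⟨s1, s2, s3, s4, s5, s6⟩ := sq_ne hρ
  have x0 : (ρ : ℂ) ^ 2 ≠ 0 := pow_ne_zero 2 ρ.ne_zero
  have y0 : (σ : ℂ) ^ 2 ≠ 0 := pow_ne_zero 2 σ.ne_zero
  have hx2 : ((ρ : ℂ) ^ 2 - 1) * ((ρ : ℂ) ^ 2 + 1) ≠ 0 := by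
    intro h
    apply hρ
    linear_combination h
  have hx1 : (ρ : ℂ) ^ 2 - 1 ≠ 0 := left_ne_zero_of_mul hx2
  have hx1' : (ρ : ℂ) ^ 2 + 1 ≠ 0 := right_ne_zero_of_mul hx2
  have h1I : (1 : ℂ) + I ≠ 0 := by
    intro h
    have := congrArg Complex.re h
    simp at this
  have h1I' : (1 : ℂ) - I ≠ 0 := by
    intro h
    have := congrArg Complex.re h
    simp at this
  have a1 : (1 : ℂ) ≠ (σ : ℂ) ^ 2 := by
    intro h
    rw [← h] at hσ
    exact (mul_ne_zero hx1 h1I') (by linear_combination -hσ)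
  have a2 : (-1 : ℂ) ≠ (σ : ℂ) ^ 2 := by
    intro h
    rw [← h] at hσ
    exact (mul_ne_zero hx1' h1I) (by linear_combination -hσ)
  have a3 : (ρ : ℂ) ^ 2 ≠ (σ : ℂ) ^ 2 := by
    intro h
    rw [← h] at hσ
    exact (mul_ne_zero Complex.I_ne_zero hx2) (by linear_combination hσ)
  have a4 : ((ρ : ℂ) ^ 2)⁻¹ ≠ (σ : ℂ) ^ 2 := by
    intro h
    rw [← h] at hσ
    apply hx2
    field_simp at hσ
    linear_combination -hσ
  have b1 : (1 : ℂ) ≠ ((σ : ℂ) ^ 2)⁻¹ := by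
    intro h
    apply a1
    rw [← inv_inj, ← h, inv_one]
  have b2 : (-1 : ℂ) ≠ ((σ : ℂ) ^ 2)⁻¹ := by
    intro h
    apply a2
    rw [← inv_inj, ← h]
    norm_num
  have b3 : (ρ : ℂ) ^ 2 ≠ ((σ : ℂ) ^ 2)⁻¹ := by
    intro h
    apply a4
    rw [h, inv_inv]
  have b4 : ((ρ : ℂ) ^ 2)⁻¹ ≠ ((σ : ℂ) ^ 2)⁻¹ := fun h => a3 (inv_injective h)
  have b5 : (σ : ℂ) ^ 2 ≠ ((σ : ℂ) ^ 2)⁻¹ := by
    intro h
    have h1 : (σ : ℂ) ^ 2 * (σ : ℂ) ^ 2 = 1 := by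
      nth_rewrite 2 [h]
      exact mul_inv_cancel₀ y0
    have h2 : ((σ : ℂ) ^ 2 - 1) * ((σ : ℂ) ^ 2 + 1) = 0 := by linear_combination h1
    rcases mul_eq_zero.1 h2 with h3 | h3
    · exact a1 (by linear_combination -h3)
    · exact a2 (by linear_combination -h3)
  have h := list_inj [1, uI, ρ, ρ⁻¹, σ, σ⁻¹] (by
    simp only [List.map_cons, List.map_nil, uI_sq, inv_sq', Units.val_one, one_pow]
    simp only [List.nodup_cons, List.mem_cons, List.not_mem_nil, or_false, not_or, not_false_eq_true,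
      List.nodup_nil, and_true]
    exact ⟨⟨s1, s2, s3, a1, b1⟩, ⟨s4, s5, a2, b2⟩, ⟨s6, a3, b3⟩, ⟨a4, b4⟩, b5⟩)
  have e : ([1, uI, ρ, ρ⁻¹, σ, σ⁻¹] : List ℂˣ).toFinset
      = ({1, uI, ρ, ρ⁻¹, σ, σ⁻¹} : Finset ℂˣ) := by
    ext x
    simp
  rw [e] at h
  exact h

end

open Classical in
theorem exists_curves_g {ρ σ : ℂˣ} (hρ : ρ ∉ badρ gaussPair)
    (hσ : (σ : ℂ) ^ 2 * (1 + I * (ρ : ℂ) ^ 2) = (ρ : ℂ) ^ 2 + I) (g₀ : ℕ) :
    ∃ C : DoubleCurve gaussPair, g₀ ≤ C.genus ∧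
      ∀ S, signedPoints gaussPair {1, uI, ρ, ρ⁻¹, σ, σ⁻¹} ⊆ S →
      10 * ((C.genus : ℤ) - 1) - 96 ≤ C.canonicalDegree S := by
  rw [badρ, Set.mem_union, not_or, Set.mem_iUnion, not_exists] at hρ
  have h := hρ.2 g₀
  rw [Set.mem_ofPred_eq, not_or] at h
  have hρ4 : (ρ : ℂ) ^ 4 ≠ 1 := hρ.1
  set N := 2 * g₀ + 4 with hNd
  have hN : 4 ≤ N := by omega
  have hm : 4 * (N * ((N - 1) * (N + 1))) * (2 * (N ^ 2 + 1)) ≠ 0 := mul_ne_zero (mpos hN) (by omega)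
  obtain ⟨C, D, hg, hs, hD1, hD2, hC⟩ := dc_data (L := gaussPair) hρ4 hN
    (show Even N from ⟨g₀ + 2, by omega⟩) h.1 h.2 hm
  obtain ⟨hinj, hcard⟩ := six_inj hρ4 hσ
  refine ⟨C, ?_, fun S hS => ?_⟩
  · have : (g₀ : ℤ) ≤ (C.genus : ℤ) := by
      rw [hg]
      have hN' : (N : ℤ) = 2 * g₀ + 4 := by rw [hNd]; push_cast; ring
      rw [hN'] at hD1
      nlinarith
    exact_mod_cast this
  · have h3 := final_count (L := gaussPair) hg hs hD2 {1, uI, ρ, ρ⁻¹, σ, σ⁻¹} hinj (by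
      intro w hw
      have hw' : ((w : ℂ) ^ 2 = 1 ∨ (w : ℂ) ^ 2 = -1 ∨ (w : ℂ) ^ 2 = (ρ : ℂ) ^ 2 ∨
          (w : ℂ) ^ 2 = ((ρ : ℂ) ^ 2)⁻¹) ∨ ((w : ℂ) ^ 2 = (σ : ℂ) ^ 2 ∨
          (w : ℂ) ^ 2 = ((σ : ℂ) ^ 2)⁻¹) := by
        have key : ∀ u : ℂˣ, u ∈ ({1, uI, ρ, ρ⁻¹, σ, σ⁻¹} : Finset ℂˣ) → ((u : ℂ) ^ 2 = 1 ∨
            (u : ℂ) ^ 2 = -1 ∨ (u : ℂ) ^ 2 = (ρ : ℂ) ^ 2 ∨ (u : ℂ) ^ 2 = ((ρ : ℂ) ^ 2)⁻¹) ∨
            ((u : ℂ) ^ 2 = (σ : ℂ) ^ 2 ∨ (u : ℂ) ^ 2 = ((σ : ℂ) ^ 2)⁻¹) := by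
          intro u hu
          simp only [Finset.mem_insert, Finset.mem_singleton] at hu
          rcases hu with rfl | rfl | rfl | rfl | rfl | rfl
          · left; left; simp
          · left; right; left; exact uI_sq
          · left; right; right; left; rfl
          · left; right; right; right; exact inv_sq' _
          · right; left; rfl
          · right; right; exact inv_sq' _
        rcases hw with hw | hw
        · exact key w hw
        · have := key (-w) hw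
          rwa [neg_sq'] at this
      rcases hw' with hw' | hw'
      · obtain ⟨F, c, k, q⟩ := four_values (L := gaussPair) hρ4 hN w hw'
        have := hC w F (fun t ht => kill (Dvd.intro _ rfl) (k t ht)) q
        omega
      · obtain ⟨F, c, k, q⟩ := two_values hρ4 hσ hN w hw'
        have := hC w F (fun t ht => kill (Dvd.intro_left _ rfl) (k t ht)) q
        omega) S hS
    rw [hcard] at h3
    norm_num at h3 ⊢
    exact h3

end Pool.Agent.Y442.EC
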