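import Mathlib
import Pool.Agent.Y442.EC.HC1
import Pool.Agent.Y442.EC.SG2

/-!
Curves of large genus and large canonical degree on blow-ups of `E × H`.
-/

open Filter Topology
open H4EP H667R3 Pool.Agent.TH172.ER
open scoped OnePoint

noncomputable section

namespace Pool.Agent.Y442.EC

variable {L : PeriodPair}

/-- `s + (f - 2) / (f + 2)` -/
def xN (L : PeriodPair) (N : ℕ) (s : ℂ) : ℂ → ℂ := mob (1 + s) (2 * (s - 1)) 1 2 (fN L N)

theorem xdet (s : ℂ) : (1 + s) * 2 - 2 * (s - 1) * 1 ≠ 0 := by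
  have : (1 + s) * 2 - 2 * (s - 1) * 1 = 4 := by ring
  rw [this]
  norm_num

section

variable {N : ℕ} {s : ℂ}

theorem xN_mero (hN : 4 ≤ N) : Meromorphic (xN L N s) := mob_mero (fN_mero (by omega)) _ _ _ _

theorem xN_per : ∀ z, ∀ l ∈ L.lattice, xN L N s (z + l) = xN L N s z := mob_per (fN_per N) _ _ _ _

theorem xN_ndeg (hN : 4 ≤ N) : NDeg (xN L N s) :=
  mob_ndeg (fN_mero (by omega)) (fN_ndeg hN) (xdet s)

theorem vo_x (hN : 4 ≤ N) {p q P Q k : ℂ} (hpq : p ≠ 0 ∨ q ≠ 0) (hk : k ≠ 0)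
    (h1 : (1 + s) * p + 2 * (s - 1) * q = k * P) (h2 : p + 2 * q = k * Q) (z : ℂ) :
    vo (xN L N s) P Q z = vo (fN L N) p q z := by
  have h3 := vo_mob (fN_mero (L := L) (N := N) (by omega)) (fN_ndeg hN) (xdet s) p q hpq z
  rw [h1, show (1 : ℂ) * p + 2 * q = k * Q by rw [← h2]; ring] at h3
  rw [← h3]
  exact (vo_smul (xN_mero hN) hk P Q z).symm

theorem sum_xN (hN : 4 ≤ N) : ∑ᶠ t : Torus L, vo (xN L N s) 1 0 (rep t)
    = ∑ᶠ t : Torus L, vo (fN L N) 1 0 (rep t) :=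
  sum_mob (fN_mero (by omega)) (fN_per N) (fN_ndeg hN) (xdet s)

theorem sum_xN_bounds (hN : 4 ≤ N) :
    2 * (N : ℤ) ^ 2 - 2 ≤ ∑ᶠ t : Torus L, vo (xN L N s) 1 0 (rep t) ∧
    ∑ᶠ t : Torus L, vo (xN L N s) 1 0 (rep t) ≤ 2 * (N : ℤ) ^ 2 + 2 := by
  have h1 := sum_rN_le (L := L) hN (v := 1) one_ne_zero
  have h2 := le_sum_rN (L := L) hN (v := 1) one_ne_zero
  rw [sum_rN hN one_ne_zero] at h1 h2
  rw [sum_xN hN]
  exact ⟨h2, h1⟩

/-- the curve, and its invariants -/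
theorem cover_data (hN : 4 ≤ N) (hev : Even N) {F : Polynomial ℂ} (hF : Squarefree F) {k : ℕ}
    (hk : F.natDegree = 2 * k) (hk0 : k ≠ 0)
    (hcrit : ∀ q ∈ F.roots.toFinset, ∀ t : Torus L, vo (xN L N s) q 1 (rep t) ≤ 1)
    {m : ℕ} (hm : m ≠ 0) :
    ∃ (C : CoverCurve L F) (δ : ℤ), (C.genus : ℤ) = 1 + k * δ ∧ (C.sectionDegree : ℤ) = δ ∧
      2 * (N : ℤ) ^ 2 - 2 ≤ δ ∧ δ ≤ 2 * (N : ℤ) ^ 2 + 2 ∧
      ∀ (p : HPoint F) (S : Finset (Torus L)), (∀ t ∈ S, m • t = 0) →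
        (∀ t ∈ S, 0 < vo (xN L N s) p.x 1 (rep t)) → S.card ≤ C.mult (0, p) := by
  have hevF : Even F.natDegree := by
    rw [hk]
    exact even_two_mul k
  have hge := (sum_xN_bounds (L := L) (s := s) hN).1
  have hle := (sum_xN_bounds (L := L) (s := s) hN).2
  have hodd := card_odd_poly (xN_mero hN) xN_per (xN_ndeg hN) hF hevF hcrit
  have hN2 : (16 : ℤ) ≤ (N : ℤ) ^ 2 := by
    have : (4 : ℤ) ≤ (N : ℤ) := by exact_mod_cast hN
    nlinarith
  have hr := exists_odd_poly (xN_mero hN) xN_per (xN_ndeg hN) hF hevF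
    (by rw [hk]; exact mul_ne_zero two_ne_zero hk0) hcrit (by omega)
  have hsec : ((∑ᶠ t : Torus L, valueOrder (xN L N s) (rep t) ∞ : ℕ) : ℤ)
      = ∑ᶠ t : Torus L, vo (xN L N s) 1 0 (rep t) :=
    sum_valueOrder (xN_mero hN) xN_per (xN_ndeg hN) ∞
  set δ := ∑ᶠ t : Torus L, vo (xN L N s) 1 0 (rep t) with hδ
  set C : CoverCurve L F :=
    { m := m
      m_pos := Nat.pos_of_ne_zero hm
      x := xN L N s
      meromorphic := xN_mero hN
      periodic := xN_per
      ramified := hr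
      birational := gM_birat hN hev (xdet s) hm } with hC
  refine ⟨C, δ, ?_, hsec, hge, hle, fun p S h1 h2 => ?_⟩
  · have e : (C.genus : ℤ) = 1 + (Nat.card {t : Torus L //
        Odd (meromorphicOrderAt (fun u => F.eval (xN L N s u)) (rep t)).untop₀} : ℤ) / 2 := by
      change ((1 + Nat.card {t : Torus L //
        Odd (meromorphicOrderAt (fun u => F.eval (xN L N s u)) (rep t)).untop₀} / 2 : ℕ) : ℤ) = _
      push_cast
      rfl
    rw [e, hodd, hk]
    push_cast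
    rw [mul_assoc, Int.mul_ediv_cancel_left _ two_ne_zero]
  · refine card_le_nat hm 0 S (fun t => TakesValue (xN L N s) (rep t) ((p.x : ℂ) : OnePoint ℂ))
      fun t ht => ⟨h1 t ht, ?_⟩
    rw [takesValue_iff (xN_mero hN) (xN_ndeg hN)]
    exact h2 t ht

end

/-- the points of `H` over a finite set of points of the line -/
theorem exists_points {F : Polynomial ℂ} (A : Finset ℂ) (hA : ∀ a ∈ A, F.eval a ≠ 0) :
    ∃ T : Finset (HPoint F), T.card = 2 * A.card ∧ ∀ q : HPoint F, q ∈ T ↔ q.x ∈ A := by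
  classical
  have h0 : ∀ a : ℂ, ∃ b : ℂ, b ^ 2 = F.eval a := fun a =>
    IsAlgClosed.exists_pow_nat_eq _ (by norm_num)
  choose b hb using h0
  have hb0 : ∀ a ∈ A, b a ≠ 0 := by
    intro a ha h
    apply hA a ha
    rw [← hb a, h]
    norm_num
  set B : Finset (ℂ × ℂ) := A.image (fun a => (a, b a)) ∪ A.image (fun a => (a, -b a)) with hB
  have hBmem : ∀ q : ℂ × ℂ, q ∈ B ↔ (q.2 ^ 2 = F.eval q.1 ∧ q.2 ≠ 0) ∧ q.1 ∈ A := by
    intro q
    rw [hB, Finset.mem_union, Finset.mem_image, Finset.mem_image]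
    constructor
    · rintro (⟨a, ha, rfl⟩ | ⟨a, ha, rfl⟩)
      · exact ⟨⟨hb a, hb0 a ha⟩, ha⟩
      · exact ⟨⟨by rw [neg_sq]; exact hb a, neg_ne_zero.2 (hb0 a ha)⟩, ha⟩
    · rintro ⟨⟨h1, -⟩, h2⟩
      have h3 : (q.2 - b q.1) * (q.2 + b q.1) = 0 := by linear_combination h1 - hb q.1
      rcases mul_eq_zero.1 h3 with h4 | h4
      · left
        exact ⟨q.1, h2, Prod.ext rfl (by linear_combination -h4)⟩
      · right
        exact ⟨q.1, h2, Prod.ext rfl (by linear_combination -h4)⟩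
  have hcB : B.card = 2 * A.card := by
    rw [hB, Finset.card_union_of_disjoint, Finset.card_image_of_injective,
      Finset.card_image_of_injective]
    · ring
    · intro a a' h
      exact (Prod.ext_iff.1 h).1
    · intro a a' h
      exact (Prod.ext_iff.1 h).1
    · rw [Finset.disjoint_left]
      intro q hq hq'
      obtain ⟨a, ha, rfl⟩ := Finset.mem_image.1 hq
      obtain ⟨a', ha', h⟩ := Finset.mem_image.1 hq'
      obtain ⟨h1, h2⟩ := Prod.ext_iff.1 h
      simp only at h1 h2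
      rw [h1] at h2
      apply hb0 a ha
      have : (2 : ℂ) * b a = 0 := by linear_combination -h2
      exact (mul_eq_zero.1 this).resolve_left two_ne_zero
  obtain ⟨G, hG⟩ : ∃ G : {q // q ∈ B} → HPoint F, ∀ q, (G q).1 = q.1 :=
    ⟨fun q => ⟨q.1, ((hBmem q.1).1 q.2).1⟩, fun _ => rfl⟩
  refine ⟨B.attach.image G, ?_, fun q => ?_⟩
  · rw [Finset.card_image_of_injective, Finset.card_attach, hcB]
    intro q q' h
    apply Subtype.ext
    rw [← hG, ← hG, h]
  · rw [Finset.mem_image]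
    constructor
    · rintro ⟨q', -, rfl⟩
      have h := ((hBmem q'.1).1 q'.2).2
      rw [← hG] at h
      exact h
    · intro h
      refine ⟨⟨q.1, (hBmem q.1).2 ⟨q.2, h⟩⟩, Finset.mem_attach _ _, ?_⟩
      apply Subtype.ext
      rw [hG]

/-- the bad values of `s` -/
def badS (L : PeriodPair) (F : Polynomial ℂ) (A : Finset ℂ) : Set ℂ :=
  {s | ∃ a ∈ A, F.eval (s + a) = 0} ∪
    ⋃ q ∈ F.roots.toFinset, ⋃ n : ℕ, ⋃ c ∈ CV L (2 * n + 4),
      {s | 1 + s - q ≠ 0 ∧ 2 * (q - s + 1) / (1 + s - q) = c}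

theorem badS_countable {F : Polynomial ℂ} (hF : F ≠ 0) (A : Finset ℂ) :
    (badS L F A).Countable := by
  apply Set.Countable.union
  · have e : {s : ℂ | ∃ a ∈ A, F.eval (s + a) = 0} ⊆ ⋃ a ∈ A, ⋃ r ∈ F.roots.toFinset, {r - a} := by
      rintro s ⟨a, ha, h⟩
      rw [Set.mem_iUnion₂]
      refine ⟨a, ha, ?_⟩
      rw [Set.mem_iUnion₂]
      refine ⟨s + a, ?_, ?_⟩
      · rw [Multiset.mem_toFinset, Polynomial.mem_roots hF]
        exact h
      · rw [add_sub_cancel_right]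
        exact rfl
    refine Set.Countable.mono e ?_
    exact A.countable_toSet.biUnion fun a _ => F.roots.toFinset.countable_toSet.biUnion
      fun r _ => Set.countable_singleton _
  · refine F.roots.toFinset.countable_toSet.biUnion fun q _ => Set.countable_iUnion fun n =>
      (CV_countable (L := L) (N := 2 * n + 4) (by omega)).biUnion fun c _ => ?_
    apply Set.Subsingleton.countable
    rintro s ⟨h1, h2⟩ s' ⟨h1', h2'⟩
    have h3 := h2.trans h2'.symm
    rw [div_eq_div_iff h1 h1'] at h3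
    have h4 : (4 : ℂ) * (s - s') = 0 := by linear_combination -h3
    exact sub_eq_zero.1 ((mul_eq_zero.1 h4).resolve_left (by norm_num))

theorem crit_of {F : Polynomial ℂ} (hF : F ≠ 0) {A : Finset ℂ} (h1A : 1 ∈ A) {s : ℂ}
    (hs : s ∉ badS L F A) (n : ℕ) :
    ∀ q ∈ F.roots.toFinset, ∀ t : Torus L, vo (xN L (2 * n + 4) s) q 1 (rep t) ≤ 1 := by
  intro q hq t
  rw [badS, Set.mem_union, not_or] at hs
  have hroot : F.eval q = 0 := by
    rw [Multiset.mem_toFinset, Polynomial.mem_roots hF] at hq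
    exact hq
  have hr : 1 + s - q ≠ 0 := by
    intro h
    apply hs.1
    refine ⟨1, h1A, ?_⟩
    have : s + 1 = q := by linear_combination h
    rw [this]
    exact hroot
  have hc : 2 * (q - s + 1) / (1 + s - q) ∉ CV L (2 * n + 4) := by
    intro h
    apply hs.2
    simp only [Set.mem_iUnion]
    exact ⟨q, hq, n, _, h, hr, rfl⟩
  rw [vo_x (L := L) (by omega) (p := 2 * (q - s + 1) / (1 + s - q)) (q := 1)
    (k := 4 / (1 + s - q)) (Or.inr one_ne_zero) (div_ne_zero (by norm_num) hr) (by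
      field_simp
      ring) (by
      field_simp
      ring)]
  by_contra h
  exact hc ⟨t, by omega⟩

/-- the four values, and the six values -/
theorem six_values (s : ℂ) {N : ℕ} (hN : 4 ≤ N) {P : ℂ}
    (hP : P = s + 1 ∨ P = s - 1 ∨ P = s - 1 / 3 ∨ P = s - 3) :
    ∃ S : Finset (Torus L), 2 * N ^ 2 ≤ S.card + 6 ∧
      (∀ t ∈ S, (4 * (N * ((N - 1) * (N + 1)))) • t = 0) ∧
      ∀ t ∈ S, 0 < vo (xN L N s) P 1 (rep t) := by
  rcases hP with rfl | rfl | rfl | rfl
  · obtain ⟨S, c, k, q⟩ := Si (L := L) hN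
    refine ⟨S, by omega, k, fun t ht => ?_⟩
    rw [vo_x hN (p := 1) (q := 0) (k := 1) (Or.inl one_ne_zero) one_ne_zero (by ring) (by ring)]
    exact q t ht
  · obtain ⟨S, c, k, q⟩ := S0 (L := L) hN
    refine ⟨S, by omega, k, fun t ht => ?_⟩
    rw [vo_x hN (p := 0) (q := 1) (k := 2) (Or.inr one_ne_zero) two_ne_zero (by ring) (by ring)]
    exact q t ht
  · obtain ⟨S, c, k, q⟩ := Spm (L := L) hN (x := 0) (κ := 1) (smul_zero _) (by
      intro t hb h
      rw [add_zero, add_zero] at h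
      exact vo_one hN hb h)
    refine ⟨S, c, k, fun t ht => ?_⟩
    rw [vo_x hN (p := 1) (q := 1) (k := 3) (Or.inr one_ne_zero) three_ne_zero (by ring) (by ring)]
    exact q t ht
  · obtain ⟨S, c, k, q⟩ := Spm (L := L) hN (x := tau L) (κ := -1) (two_tau L)
      (fun t hb h => vo_neg_one hN hb h)
    refine ⟨S, c, k, fun t ht => ?_⟩
    rw [vo_x hN (p := -1) (q := 1) (k := 1) (Or.inr one_ne_zero) one_ne_zero (by ring) (by ring)]
    exact q t ht

theorem two_more (s : ℂ) {N : ℕ} (hN : 4 ≤ N) {P : ℂ}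
    (hP : P = s + (-3 + 4 * Complex.I) / 5 ∨ P = s + (-3 - 4 * Complex.I) / 5) :
    ∃ S : Finset (Torus gaussPair), 2 * N ^ 2 ≤ S.card + 6 ∧
      (∀ t ∈ S, (2 * (N ^ 2 + 1)) • t = 0) ∧
      ∀ t ∈ S, 0 < vo (xN gaussPair N s) P 1 (rep t) := by
  have k1 : Complex.I + 2 ≠ 0 := by
    intro h
    have := congrArg Complex.re h
    simp at this
  have k2 : -Complex.I + 2 ≠ 0 := by
    intro h
    have := congrArg Complex.re h
    simp at this
  rcases hP with rfl | rfl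
  · obtain ⟨S, c, k, q⟩ := Splus hN
    refine ⟨S, c, k, fun t ht => ?_⟩
    rw [vo_x hN (p := Complex.I) (q := 1) (k := Complex.I + 2) (Or.inr one_ne_zero) k1
      (by linear_combination (-4 / 5 : ℂ) * Complex.I_mul_I) (by ring)]
    exact q t ht
  · obtain ⟨S, c, k, q⟩ := Sminus hN
    refine ⟨S, c, k, fun t ht => ?_⟩
    rw [vo_x hN (p := -Complex.I) (q := 1) (k := -Complex.I + 2) (Or.inr one_ne_zero) k2
      (by linear_combination (-4 / 5 : ℂ) * Complex.I_mul_I) (by ring)]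
    exact q t ht

end Pool.Agent.Y442.EC
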