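import Mathlib
import Pool.Agent.Y442.EC.HC2

/-!
Curves of large genus and large canonical degree on blow-ups of `E × H`: the final estimate.
-/

open Filter Topology
open H4EP H667R3 Pool.Agent.TH172.ER
open scoped OnePoint

noncomputable section

namespace Pool.Agent.Y442.EC

variable {L : PeriodPair}

theorem sum_zero_points {F : Polynomial ℂ} (T : Finset (HPoint F))
    (S : Finset (Torus L × HPoint F)) (hS : ∀ q ∈ T, ((0 : Torus L), q) ∈ S)
    (g : Torus L × HPoint F → ℕ) (a : ℤ) (h : ∀ q ∈ T, a ≤ g (0, q)) :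
    (T.card : ℤ) * a ≤ ∑ p ∈ S, (g p : ℤ) := by
  classical
  have h1 : ∑ q ∈ T, (g (0, q) : ℤ) = ∑ p ∈ T.image (fun q => ((0 : Torus L), q)), (g p : ℤ) := by
    rw [Finset.sum_image]
    intro a _ b _ hab
    exact (Prod.ext_iff.1 hab).2
  have h2 : ∑ p ∈ T.image (fun q => ((0 : Torus L), q)), (g p : ℤ) ≤ ∑ p ∈ S, (g p : ℤ) := by
    apply Finset.sum_le_sum_of_subset_of_nonneg
    · intro p hp
      obtain ⟨q, hq, rfl⟩ := Finset.mem_image.1 hp
      exact hS q hq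
    · intro p _ _
      exact Int.natCast_nonneg _
  have h3 := Finset.card_nsmul_le_sum T (fun q => (g (0, q) : ℤ)) a h
  rw [nsmul_eq_mul] at h3
  linarith

theorem final_curves (A : Finset ℂ) (h1A : 1 ∈ A) {F : Polynomial ℂ} (hF : Squarefree F) {γ : ℕ}
    (hdeg : F.natDegree = 2 * γ + 2) {s : ℂ} (hs : s ∉ badS L F A)
    (hval : ∀ N : ℕ, 4 ≤ N → ∃ m : ℕ, m ≠ 0 ∧ ∀ a ∈ A, ∃ S : Finset (Torus L),
      2 * N ^ 2 ≤ S.card + 6 ∧ (∀ t ∈ S, m • t = 0) ∧
      ∀ t ∈ S, 0 < vo (xN L N s) (s + a) 1 (rep t)) :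
    ∃ S₀ : Finset (Torus L × HPoint F), S₀.card = 2 * A.card ∧
      (∀ p, p ∈ S₀ ↔ p.1 = 0 ∧ p.2.x - s ∈ A) ∧
      ∀ S, S₀ ⊆ S → ∀ g₀ : ℕ, ∃ C : CoverCurve L F, g₀ ≤ C.genus ∧
        (2 * (A.card : ℤ) + 2 * γ - 2) * ((C.genus : ℤ) - 1) - 16 * A.card * (γ + 1)
          ≤ (γ + 1) * C.canonicalDegree S := by
  classical
  have hF0 : F ≠ 0 := hF.ne_zero
  have hbad : ∀ a ∈ A, F.eval (s + a) ≠ 0 := by
    intro a ha h
    exact hs (Or.inl ⟨a, ha, h⟩)
  obtain ⟨T, hTc, hT⟩ := exists_points (A.image (fun a => s + a)) (F := F) (by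
    intro b hb
    obtain ⟨a, ha, rfl⟩ := Finset.mem_image.1 hb
    exact hbad a ha)
  rw [Finset.card_image_of_injective _ (add_right_injective s)] at hTc
  have hTm : ∀ q : HPoint F, q ∈ T ↔ q.x - s ∈ A := by
    intro q
    rw [hT, Finset.mem_image]
    constructor
    · rintro ⟨a, ha, h⟩
      rw [← h, add_sub_cancel_left]
      exact ha
    · intro h
      exact ⟨_, h, by ring⟩
  refine ⟨T.image (fun q => ((0 : Torus L), q)), ?_, ?_, ?_⟩
  · rw [Finset.card_image_of_injective, hTc]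
    intro a b hab
    exact (Prod.ext_iff.1 hab).2
  · intro p
    rw [Finset.mem_image]
    constructor
    · rintro ⟨q, hq, rfl⟩
      exact ⟨rfl, (hTm q).1 hq⟩
    · rintro ⟨h1, h2⟩
      exact ⟨p.2, (hTm _).2 h2, Prod.ext h1.symm rfl⟩
  · intro S hS g₀
    have hN : 4 ≤ 2 * g₀ + 4 := by omega
    obtain ⟨m, hm, hval'⟩ := hval (2 * g₀ + 4) hN
    obtain ⟨C, δ, hg, hsec, hd1, hd2, hmult⟩ := cover_data (L := L) hN
      (show Even (2 * g₀ + 4) from ⟨g₀ + 2, by omega⟩) hF (k := γ + 1) (by rw [hdeg]; ring)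
      (by omega) (crit_of hF0 h1A hs g₀) hm
    refine ⟨C, ?_, ?_⟩
    · have h1 : (g₀ : ℤ) ≤ (C.genus : ℤ) := by
        rw [hg]
        push_cast at hd1 ⊢
        have h2 : (0 : ℤ) ≤ γ := Int.natCast_nonneg _
        have h3 : (0 : ℤ) ≤ g₀ := Int.natCast_nonneg _
        have h4 : (g₀ : ℤ) ≤ δ := by nlinarith
        nlinarith
      exact_mod_cast h1
    · have hm1 : ∀ q ∈ T, (2 * ((2 * g₀ + 4 : ℕ) : ℤ) ^ 2 - 6 : ℤ) ≤ (C.mult (0, q) : ℤ) := by
        intro q hq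
        obtain ⟨R, c, k, hv⟩ := hval' _ ((hTm q).1 hq)
        have h1 := hmult q R k (by
          intro t ht
          have := hv t ht
          rwa [add_sub_cancel] at this)
        have h2 : ((2 * (2 * g₀ + 4) ^ 2 : ℕ) : ℤ) ≤ ((C.mult (0, q) + 6 : ℕ) : ℤ) := by
          exact_mod_cast c.trans (Nat.add_le_add_right h1 6)
        push_cast at h2 ⊢
        linarith
      have h3 := sum_zero_points T S (fun q hq => hS (Finset.mem_image_of_mem _ hq)) C.mult _ hm1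
      have hTc' : (T.card : ℤ) = 2 * (A.card : ℤ) := by exact_mod_cast hTc
      unfold CoverCurve.canonicalDegree
      rw [hsec, hg, hdeg]
      have hA0 : (0 : ℤ) ≤ (A.card : ℤ) := Int.natCast_nonneg _
      have hγ : (0 : ℤ) ≤ (γ : ℤ) := Int.natCast_nonneg _
      have h4 : (2 * (A.card : ℤ)) * (δ - 8) ≤ ∑ p ∈ S, (C.mult p : ℤ) := by
        rw [hTc'] at h3
        have : (2 * (A.card : ℤ)) * (δ - 8)
            ≤ 2 * (A.card : ℤ) * (2 * ((2 * g₀ + 4 : ℕ) : ℤ) ^ 2 - 6) :=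
          mul_le_mul_of_nonneg_left (by linarith) (by positivity)
        linarith
      have h5 := mul_le_mul_of_nonneg_left h4 (show (0 : ℤ) ≤ γ + 1 by positivity)
      push_cast
      nlinarith

open Classical in
/-- the four values -/
def A4 : Finset ℂ := {1, -1, -1 / 3, -3}

open Classical in
/-- the six values -/
def A6 : Finset ℂ := {1, -1, -1 / 3, -3, (-3 + 4 * Complex.I) / 5, (-3 - 4 * Complex.I) / 5}

theorem mem_A4 (a : ℂ) : a ∈ A4 ↔ a ∈ ({1, -1, -1 / 3, -3} : Set ℂ) := by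
  simp [A4]

theorem mem_A6 (a : ℂ) : a ∈ A6 ↔
    a ∈ ({1, -1, -1 / 3, -3, (-3 + 4 * Complex.I) / 5, (-3 - 4 * Complex.I) / 5} : Set ℂ) := by
  simp [A6]

theorem card_A4 : A4.card = 4 := by
  classical
  have h : ([1, -1, -1 / 3, -3] : List ℂ).Nodup := by
    simp only [List.nodup_cons, List.mem_cons, List.not_mem_nil, or_false, not_or,
      not_false_eq_true, List.nodup_nil, and_true]
    norm_num
  have e : A4 = ([1, -1, -1 / 3, -3] : List ℂ).toFinset := by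
    ext x
    simp [A4]
  rw [e, List.toFinset_card_of_nodup h]
  rfl

theorem card_A6 : A6.card = 6 := by
  classical
  have h : ([1, -1, -1 / 3, -3, (-3 + 4 * Complex.I) / 5, (-3 - 4 * Complex.I) / 5] :
      List ℂ).Nodup := by
    have key : ∀ z w : ℂ, z.im ≠ w.im → z ≠ w := fun z w h h' => h (by rw [h'])
    have i1 : ((-3 + 4 * Complex.I) / 5 : ℂ).im = 4 / 5 := by
      rw [show ((-3 + 4 * Complex.I) / 5 : ℂ) = ((-3 / 5 : ℝ) : ℂ) + ((4 / 5 : ℝ) : ℂ) * Complex.I by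
        push_cast; ring]
      simp
    have i2 : ((-3 - 4 * Complex.I) / 5 : ℂ).im = -4 / 5 := by
      rw [show ((-3 - 4 * Complex.I) / 5 : ℂ) = ((-3 / 5 : ℝ) : ℂ) + ((-4 / 5 : ℝ) : ℂ) * Complex.I by
        push_cast; ring]
      simp
    have j3 : (-1 / 3 : ℂ).im = 0 := by
      rw [show (-1 / 3 : ℂ) = ((-1 / 3 : ℝ) : ℂ) by push_cast; ring]
      exact Complex.ofReal_im _
    simp only [List.nodup_cons, List.mem_cons, List.not_mem_nil, or_false, not_or,
      not_false_eq_true, List.nodup_nil, and_true]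
    refine ⟨⟨by norm_num, by norm_num, by norm_num, ?_, ?_⟩, ⟨by norm_num, by norm_num, ?_, ?_⟩,
      ⟨by norm_num, ?_, ?_⟩, ⟨?_, ?_⟩, ?_⟩
    all_goals
      apply key
      try rw [i1]
      try rw [i2]
      try rw [j3]
      norm_num
  have e : A6 = ([1, -1, -1 / 3, -3, (-3 + 4 * Complex.I) / 5, (-3 - 4 * Complex.I) / 5] :
      List ℂ).toFinset := by
    ext x
    simp [A6]
  rw [e, List.toFinset_card_of_nodup h]
  rfl

theorem curves4 (L : PeriodPair) {F : Polynomial ℂ} (hF : Squarefree F) {γ : ℕ}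
    (hdeg : F.natDegree = 2 * γ + 2) {s : ℂ} (hs : s ∉ badS L F A4) :
    ∃ S₀ : Finset (Torus L × HPoint F), S₀.card = 8 ∧
      (∀ p, p ∈ S₀ ↔ p.1 = 0 ∧ p.2.x - s ∈ ({1, -1, -1 / 3, -3} : Set ℂ)) ∧
      ∀ S, S₀ ⊆ S → ∀ g₀ : ℕ, ∃ C : CoverCurve L F, g₀ ≤ C.genus ∧
        (2 * (γ : ℤ) + 6) * ((C.genus : ℤ) - 1) - 64 * (γ + 1) ≤ (γ + 1) * C.canonicalDegree S := by
  obtain ⟨S₀, h1, h2, h3⟩ := final_curves (L := L) A4 (by simp [A4]) hF hdeg hs (by
    intro N hN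
    refine ⟨4 * (N * ((N - 1) * (N + 1))), mpos hN, fun a ha => ?_⟩
    apply six_values (L := L) s hN
    rw [mem_A4] at ha
    rcases ha with rfl | rfl | rfl | rfl
    · left; rfl
    · right; left; ring
    · right; right; left; ring
    · right; right; right; ring)
  refine ⟨S₀, by rw [h1, card_A4], fun p => by rw [h2, mem_A4], fun S hS g₀ => ?_⟩
  obtain ⟨C, hC, h4⟩ := h3 S hS g₀
  refine ⟨C, hC, ?_⟩
  rw [card_A4] at h4
  push_cast at h4
  linarith

theorem curves6 {F : Polynomial ℂ} (hF : Squarefree F) {γ : ℕ}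
    (hdeg : F.natDegree = 2 * γ + 2) {s : ℂ} (hs : s ∉ badS gaussPair F A6) :
    ∃ S₀ : Finset (Torus gaussPair × HPoint F), S₀.card = 12 ∧
      (∀ p, p ∈ S₀ ↔ p.1 = 0 ∧ p.2.x - s ∈
        ({1, -1, -1 / 3, -3, (-3 + 4 * Complex.I) / 5, (-3 - 4 * Complex.I) / 5} : Set ℂ)) ∧
      ∀ S, S₀ ⊆ S → ∀ g₀ : ℕ, ∃ C : CoverCurve gaussPair F, g₀ ≤ C.genus ∧
        (2 * (γ : ℤ) + 10) * ((C.genus : ℤ) - 1) - 96 * (γ + 1)
          ≤ (γ + 1) * C.canonicalDegree S := by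
  obtain ⟨S₀, h1, h2, h3⟩ := final_curves (L := gaussPair) A6 (by simp [A6]) hF hdeg hs (by
    intro N hN
    refine ⟨4 * (N * ((N - 1) * (N + 1))) * (2 * (N ^ 2 + 1)), mul_ne_zero (mpos hN) (by omega),
      fun a ha => ?_⟩
    rw [mem_A6] at ha
    have hb : (s + a = s + 1 ∨ s + a = s - 1 ∨ s + a = s - 1 / 3 ∨ s + a = s - 3) ∨
        (s + a = s + (-3 + 4 * Complex.I) / 5 ∨ s + a = s + (-3 - 4 * Complex.I) / 5) := by
      rcases ha with rfl | rfl | rfl | rfl | rfl | rfl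
      · left; left; rfl
      · left; right; left; ring
      · left; right; right; left; ring
      · left; right; right; right; ring
      · right; left; rfl
      · right; right; rfl
    rcases hb with hb | hb
    · obtain ⟨S, c, k, q⟩ := six_values (L := gaussPair) s hN hb
      exact ⟨S, c, fun t ht => kill (Dvd.intro _ rfl) (k t ht), q⟩
    · obtain ⟨S, c, k, q⟩ := two_more s hN hb
      exact ⟨S, c, fun t ht => kill (Dvd.intro_left _ rfl) (k t ht), q⟩)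
  refine ⟨S₀, by rw [h1, card_A6], fun p => by rw [h2, mem_A6], fun S hS g₀ => ?_⟩
  obtain ⟨C, hC, h4⟩ := h3 S hS g₀
  refine ⟨C, hC, ?_⟩
  rw [card_A6] at h4
  push_cast at h4
  linarith

end Pool.Agent.Y442.EC
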